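import Pool.Agent.P.MP_8a0bcd_co.Defs

-- part Pool.Agent.P.MP_8a0bcd_co.Lab
section

/-! Partitions of almost all of space into open convex polyhedra. -/

set_option autoImplicit false

namespace Pool.Agent.Cyl

open Set
open scoped Classical

/-- Space. -/
abbrev E : Type := Fin 3 → ℝ

/-- Linear functionals. -/
abbrev Fn : Type := E →ₗ[ℝ] ℝ

theorem Fn.cont (l : Fn) : Continuous l := l.continuous_of_finiteDimensional

/-- An intersection of at most `m` open half spaces. -/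
def Poly (m : ℕ) (S : Set E) : Prop :=
  ∃ T : Finset (Fn × ℝ), T.card ≤ m ∧ S = {x | ∀ h ∈ T, h.2 < h.1 x}

theorem Poly.mono {m m' : ℕ} {S : Set E} (h : Poly m S) (hm : m ≤ m') : Poly m' S :=
  let ⟨T, a, b⟩ := h
  ⟨T, a.trans hm, b⟩

theorem Poly.isOpen {m : ℕ} {S : Set E} (h : Poly m S) : IsOpen S := by
  obtain ⟨T, -, rfl⟩ := h
  have : {x : E | ∀ h ∈ T, h.2 < h.1 x} = ⋂ h ∈ T, {x | h.2 < h.1 x} := by ext; simp
  rw [this]
  exact isOpen_biInter_finset fun h _ => isOpen_lt continuous_const (Fn.cont h.1)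

theorem Poly.convex {m : ℕ} {S : Set E} (h : Poly m S) : Convex ℝ S := by
  obtain ⟨T, -, rfl⟩ := h
  have : {x : E | ∀ h ∈ T, h.2 < h.1 x} = ⋂ h ∈ T, {x | h.2 < h.1 x} := by ext; simp
  rw [this]
  exact convex_iInter₂ fun h _ => convex_halfSpace_gt h.1.isLinear _

theorem poly_univ : Poly 0 univ := ⟨∅, by simp, by simp⟩

theorem Poly.inter {m m' : ℕ} {S S' : Set E} (h : Poly m S) (h' : Poly m' S') :
    Poly (m + m') (S ∩ S') := by
  obtain ⟨T, a, rfl⟩ := h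
  obtain ⟨T', a', rfl⟩ := h'
  refine ⟨T ∪ T', (Finset.card_union_le _ _).trans (add_le_add a a'), ?_⟩
  ext x
  simp only [mem_inter_iff, mem_ofPred_eq, Finset.mem_union, or_imp, forall_and]

theorem Poly.iInter {J : Type} [Fintype J] {m : ℕ} {S : J → Set E} (h : ∀ j, Poly m (S j)) :
    Poly (Fintype.card J * m) (⋂ j, S j) := by
  choose T a b using h
  refine ⟨Finset.univ.biUnion T, Finset.card_biUnion_le_card_mul _ _ _ fun j _ => a j, ?_⟩
  ext x
  simp only [mem_iInter, b, mem_ofPred_eq, Finset.mem_biUnion, Finset.mem_univ, true_and]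
  exact ⟨fun h p ⟨j, hj⟩ => h j p hj, fun h j p hj => h p ⟨j, hj⟩⟩

/-- Covered by finitely many planes. -/
def Thin (S : Set E) : Prop :=
  ∃ T : Finset (Fn × ℝ), (∀ h ∈ T, h.1 ≠ 0) ∧ ∀ x ∈ S, ∃ h ∈ T, h.1 x = h.2

theorem Thin.mono {S S' : Set E} (h : Thin S) (hS : S' ⊆ S) : Thin S' :=
  let ⟨T, a, b⟩ := h
  ⟨T, a, fun x hx => b x (hS hx)⟩

theorem thin_empty : Thin ∅ := ⟨∅, by simp, by simp⟩

theorem Thin.union {S S' : Set E} (h : Thin S) (h' : Thin S') : Thin (S ∪ S') := by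
  obtain ⟨T, a, b⟩ := h
  obtain ⟨T', a', b'⟩ := h'
  refine ⟨T ∪ T', fun p hp => (Finset.mem_union.1 hp).elim (a p) (a' p), ?_⟩
  rintro x (hx | hx)
  · obtain ⟨p, c, d⟩ := b x hx
    exact ⟨p, Finset.mem_union_left _ c, d⟩
  · obtain ⟨p, c, d⟩ := b' x hx
    exact ⟨p, Finset.mem_union_right _ c, d⟩

theorem Thin.biUnion {J : Type} {I : Set J} (hI : I.Finite) {S : J → Set E}
    (h : ∀ j ∈ I, Thin (S j)) : Thin (⋃ j ∈ I, S j) := by
  induction I, hI using Set.Finite.induction_on with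
  | empty => simpa using thin_empty
  | insert _ _ ih =>
    rw [biUnion_insert]
    exact (h _ (mem_insert _ _)).union (ih fun j hj => h j (mem_insert_of_mem _ hj))

theorem thin_walls {l : Fn} {Θ : Finset ℝ} (h : Θ.Nonempty → l ≠ 0) : Thin {x | l x ∈ Θ} := by
  refine ⟨Θ.image fun θ => (l, θ), fun p hp => ?_, fun x hx => ⟨_, Finset.mem_image_of_mem _ hx, rfl⟩⟩
  obtain ⟨θ, a, rfl⟩ := Finset.mem_image.1 hp
  exact h ⟨θ, a⟩

theorem Thin.dense {S : Set E} (h : Thin S) : Dense Sᶜ := by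
  obtain ⟨T, a, b⟩ := h
  have h1 : ∀ p ∈ T, Dense {x : E | p.1 x ≠ p.2} := by
    intro p hp
    obtain ⟨v, hv⟩ : ∃ v, p.1 v ≠ 0 := by
      by_contra h
      push Not at h
      exact a p hp (LinearMap.ext h)
    intro x
    by_cases hx : p.1 x = p.2
    swap
    · exact subset_closure hx
    have c : Filter.Tendsto (fun t : ℝ => x + t • v) (nhdsWithin 0 (Ioi 0)) (nhds x) := by
      have : Continuous fun t : ℝ => x + t • v := by fun_prop
      simpa using (this.tendsto 0).mono_left nhdsWithin_le_nhds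
    refine mem_closure_of_tendsto c (eventually_nhdsWithin_of_forall fun t ht => ?_)
    simp only [mem_ofPred_eq, map_add, map_smul, smul_eq_mul, hx, ne_eq, add_eq_left]
    exact mul_ne_zero (ne_of_gt ht) hv
  have h2 : Dense (⋂ p ∈ (T : Set (Fn × ℝ)), {x : E | p.1 x ≠ p.2}) :=
    dense_biInter_of_isOpen
      (fun p _ => isOpen_ne_fun (Fn.cont p.1) continuous_const) T.countable_toSet h1
  refine h2.mono fun x hx hS => ?_
  obtain ⟨p, c, d⟩ := b x hS
  exact mem_iInter₂.1 hx p c d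

/-- The points on the same side as `x` of all the planes `l = θ`, `θ ∈ Θ`. -/
def slab (l : Fn) (Θ : Finset ℝ) (x : E) : Set E :=
  {y | ∀ θ ∈ Θ, (θ < l x → θ < l y) ∧ (l x < θ → l y < θ)}

/-- The position of `x` among the planes `l = θ`, `θ ∈ Θ`. -/
noncomputable def lab (l : Fn) (Θ : Finset ℝ) (x : E) : Finset ℝ := Θ.filter (· ≤ l x)

theorem mem_slab_self (l : Fn) (Θ : Finset ℝ) (x : E) : x ∈ slab l Θ x := fun _ _ => ⟨id, id⟩

theorem slab_notMem {l : Fn} {Θ : Finset ℝ} {x y : E} (hx : l x ∉ Θ) (hy : y ∈ slab l Θ x) :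
    l y ∉ Θ := fun h => by
  rcases lt_trichotomy (l y) (l x) with a | a | a
  · exact lt_irrefl _ ((hy _ h).1 a)
  · exact hx (a ▸ h)
  · exact lt_irrefl _ ((hy _ h).2 a)

theorem slab_eq {l : Fn} {Θ : Finset ℝ} {x y : E} (hx : l x ∉ Θ) (hy : y ∈ slab l Θ x) :
    slab l Θ y = slab l Θ x := by
  have key : ∀ θ ∈ Θ, (θ < l y ↔ θ < l x) ∧ (l y < θ ↔ l x < θ) := by
    intro θ h
    have a := hy θ h
    have b : θ ≠ l x := fun e => hx (e ▸ h)
    rcases b.lt_or_gt with c | c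
    · exact ⟨iff_of_true (a.1 c) c, iff_of_false (a.1 c).not_gt c.not_gt⟩
    · exact ⟨iff_of_false (a.2 c).not_gt c.not_gt, iff_of_true (a.2 c) c⟩
  ext z
  exact forall₂_congr fun θ h => by rw [(key θ h).1, (key θ h).2]

theorem mem_slab_of_lab {l : Fn} {Θ : Finset ℝ} {x y : E} (hy : l y ∉ Θ)
    (h : lab l Θ y = lab l Θ x) : y ∈ slab l Θ x := by
  intro θ hθ
  have a : θ ≤ l y ↔ θ ≤ l x := by
    have := Finset.ext_iff.1 h θ
    simpa [lab, hθ] using this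
  exact ⟨fun b => (a.2 b.le).lt_of_ne fun e => hy (e ▸ hθ), fun b => not_le.1 fun c => (a.1 c).not_gt b⟩

theorem poly_slab (l : Fn) (Θ : Finset ℝ) (x : E) : Poly 2 (slab l Θ x) := by
  have key : ∀ (l : Fn) (t : ℝ) (Θ : Finset ℝ), Poly 1 {y | ∀ θ ∈ Θ, θ < t → θ < l y} := by
    intro l t Θ
    rcases (Θ.filter (· < t)).eq_empty_or_nonempty with h | h
    · refine ⟨∅, by simp, ?_⟩
      ext y
      simp only [mem_ofPred_eq, Finset.notMem_empty, false_imp_iff, implies_true, iff_true]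
      exact fun θ a b => absurd b (Finset.filter_eq_empty_iff.1 h a)
    · refine ⟨{(l, (Θ.filter (· < t)).max' h)}, by simp, ?_⟩
      ext y
      simp [Finset.max'_lt_iff]
  have := (key l (l x) Θ).inter (key (-l) (-l x) (Θ.image fun θ => -θ))
  convert this using 1
  ext y
  simp [slab, forall_and]

/-- A finite partition of the complement of a thin set into open polyhedra. -/
structure Lab where
  /-- the good points -/
  G : Set E
  /-- the class of a point -/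
  cls : E → Set E
  mem : ∀ x ∈ G, x ∈ cls x
  sub : ∀ x ∈ G, cls x ⊆ G
  eq : ∀ x ∈ G, ∀ y ∈ cls x, cls y = cls x
  poly : ∀ x ∈ G, ∃ m, Poly m (cls x)
  thin : Thin Gᶜ
  fin : (cls '' G).Finite

namespace Lab

/-- All classes are cut out by at most `m` half spaces. -/
def PolyB (L : Lab) (m : ℕ) : Prop := ∀ x ∈ L.G, Poly m (L.cls x)

/-- The classes that meet `S`. -/
noncomputable def cl (L : Lab) (S : Set E) : Finset (Set E) :=
  (L.fin.subset (image_mono (inter_subset_right (s := S)))).toFinset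

theorem mem_cl {L : Lab} {S R : Set E} : R ∈ L.cl S ↔ ∃ x ∈ S, x ∈ L.G ∧ L.cls x = R := by
  simp [cl, and_assoc]

theorem cls_mem_cl {L : Lab} {S : Set E} {x : E} (h : x ∈ S) (h' : x ∈ L.G) : L.cls x ∈ L.cl S :=
  mem_cl.2 ⟨x, h, h', rfl⟩

theorem cl_mono (L : Lab) {S S' : Set E} (h : S ⊆ S') : L.cl S ⊆ L.cl S' := fun _ hR =>
  let ⟨x, a, b⟩ := mem_cl.1 hR
  mem_cl.2 ⟨x, h a, b⟩

theorem isOpen (L : Lab) {x : E} (h : x ∈ L.G) : IsOpen (L.cls x) :=
  let ⟨_, a⟩ := L.poly x h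
  a.isOpen

theorem convex (L : Lab) {x : E} (h : x ∈ L.G) : Convex ℝ (L.cls x) :=
  let ⟨_, a⟩ := L.poly x h
  a.convex

theorem disjoint (L : Lab) {x y : E} (hx : x ∈ L.G) (hy : y ∈ L.G) (h : L.cls x ≠ L.cls y) :
    Disjoint (L.cls x) (L.cls y) :=
  disjoint_left.2 fun z a b => h ((L.eq x hx z a).symm.trans (L.eq y hy z b))

/-- A good point in the closure of a class lies in the class. -/
theorem mem_of_closure (L : Lab) {x y : E} (hx : x ∈ L.G) (hy : y ∈ L.G)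
    (h : y ∈ closure (L.cls x)) : y ∈ L.cls x := by
  obtain ⟨z, a, b⟩ := mem_closure_iff.1 h _ (L.isOpen hy) (L.mem y hy)
  rw [← L.eq x hx z b, L.eq y hy z a]
  exact L.mem y hy

/-- A connected set of good points lies in one class. -/
theorem conn (L : Lab) {S : Set E} (hS : IsPreconnected S) (h : S ⊆ L.G) {x y : E} (hx : x ∈ S)
    (hy : y ∈ S) : L.cls y = L.cls x :=
  L.eq x (h hx) y (hS.subset_of_closure_inter_subset (L.isOpen (h hx)) ⟨x, hx, L.mem x (h hx)⟩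
    (fun _ a => L.mem_of_closure (h hx) (h a.2) a.1) hy)

/-- Counting classes through a labelling of the points. -/
theorem card_cl_le {A : Type} (L : Lab) (S : Set E) (f : E → A) (B : Finset A)
    (h1 : ∀ x ∈ S, x ∈ L.G → f x ∈ B)
    (h2 : ∀ x ∈ S, x ∈ L.G → ∀ y ∈ S, y ∈ L.G → f x = f y → L.cls x = L.cls y) :
    (L.cl S).card ≤ B.card := by
  choose! g a b c using fun R (h : R ∈ L.cl S) => mem_cl.1 h
  refine Finset.card_le_card_of_injOn (fun R => f (g R)) (fun R h => h1 _ (a R h) (b R h))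
    fun R h R' h' e => ?_
  rw [← c R h, ← c R' h']
  exact h2 _ (a R h) (b R h) _ (a R' h') (b R' h') e

/-- Counting classes piece by piece. -/
theorem card_cl_le_sum {A : Type} (L : Lab) (S : Set E) (B : Finset A) (P : A → Set E)
    (h : ∀ x ∈ S, x ∈ L.G → ∃ a ∈ B, x ∈ P a) : (L.cl S).card ≤ ∑ a ∈ B, (L.cl (P a)).card := by
  refine (Finset.card_le_card fun R hR => ?_).trans Finset.card_biUnion_le
  obtain ⟨x, a, b, rfl⟩ := mem_cl.1 hR
  obtain ⟨i, c, d⟩ := h x a b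
  exact Finset.mem_biUnion.2 ⟨i, c, cls_mem_cl d b⟩

/-- The partition with one class. -/
def triv : Lab where
  G := univ
  cls _ := univ
  mem _ _ := trivial
  sub _ _ := Subset.rfl
  eq _ _ _ _ := rfl
  poly _ _ := ⟨0, poly_univ⟩
  thin := by simpa using thin_empty
  fin := (finite_singleton univ).subset (by rintro _ ⟨x, -, rfl⟩; rfl)

theorem triv_poly : triv.PolyB 0 := fun _ _ => poly_univ

section refine

variable {J : Type} [Fintype J] (L : Lab) (l : Set E → J → Fn) (Θ : Set E → J → Finset ℝ)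
  (h : ∀ R j, (Θ R j).Nonempty → l R j ≠ 0)

/-- Cut every class `R` by the planes `l R j = θ`, `θ ∈ Θ R j`. -/
def refine : Lab where
  G := {x | x ∈ L.G ∧ ∀ j, l (L.cls x) j x ∉ Θ (L.cls x) j}
  cls x := L.cls x ∩ ⋂ j, slab (l (L.cls x) j) (Θ (L.cls x) j) x
  mem x hx := ⟨L.mem x hx.1, mem_iInter.2 fun _ => mem_slab_self _ _ _⟩
  sub x hx y hy := ⟨L.sub x hx.1 hy.1, fun j => by
    rw [L.eq x hx.1 y hy.1]
    exact slab_notMem (hx.2 j) (mem_iInter.1 hy.2 j)⟩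
  eq x hx y hy := by
    rw [L.eq x hx.1 y hy.1]
    congr 1
    exact iInter_congr fun j => slab_eq (hx.2 j) (mem_iInter.1 hy.2 j)
  poly x hx :=
    let ⟨_, a⟩ := L.poly x hx.1
    ⟨_, a.inter (Poly.iInter fun _ => poly_slab _ _ _)⟩
  thin := by
    refine (L.thin.union (Thin.biUnion L.fin fun R _ => Thin.biUnion (finite_univ (α := J))
      fun j _ => thin_walls (h R j))).mono fun x hx => ?_
    by_cases a : x ∈ L.G
    · obtain ⟨j, b⟩ : ∃ j, l (L.cls x) j x ∈ Θ (L.cls x) j := by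
        by_contra c
        exact hx ⟨a, fun j d => c ⟨j, d⟩⟩
      exact Or.inr (mem_iUnion₂.2 ⟨_, mem_image_of_mem _ a, mem_iUnion₂.2 ⟨j, trivial, b⟩⟩)
    · exact Or.inl a
  fin := by
    have : ((fun x => (⟨L.cls x, fun j => lab (l (L.cls x) j) (Θ (L.cls x) j) x⟩ :
        Set E × (J → Finset ℝ))) '' L.G).Finite := by
      refine (L.fin.biUnion fun R _ => (finite_singleton R).prod
        (Finite.pi' fun j => (Θ R j).powerset.finite_toSet)).subset ?_
      rintro _ ⟨x, a, rfl⟩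
      exact mem_iUnion₂.2 ⟨_, mem_image_of_mem _ a, rfl, fun j =>
        Finset.mem_powerset.2 (Finset.filter_subset _ _)⟩
    refine Finite.of_finite_image (f := fun R => (⟨L.cls (Classical.epsilon (· ∈ R)), fun j =>
      lab (l (L.cls (Classical.epsilon (· ∈ R))) j) (Θ (L.cls (Classical.epsilon (· ∈ R))) j)
        (Classical.epsilon (· ∈ R))⟩ : Set E × (J → Finset ℝ))) (this.subset ?_) ?_
    · rintro _ ⟨_, ⟨x, a, rfl⟩, rfl⟩
      have b := Classical.epsilon_spec (p := (· ∈ L.cls x ∩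
        ⋂ j, slab (l (L.cls x) j) (Θ (L.cls x) j) x))
        ⟨x, L.mem x a.1, mem_iInter.2 fun _ => mem_slab_self _ _ _⟩
      exact ⟨_, L.sub x a.1 b.1, rfl⟩
    · rintro _ ⟨x, a, rfl⟩ _ ⟨y, a', rfl⟩ e
      have b := Classical.epsilon_spec (p := (· ∈ L.cls x ∩
        ⋂ j, slab (l (L.cls x) j) (Θ (L.cls x) j) x))
        ⟨x, L.mem x a.1, mem_iInter.2 fun _ => mem_slab_self _ _ _⟩
      have b' := Classical.epsilon_spec (p := (· ∈ L.cls y ∩
        ⋂ j, slab (l (L.cls y) j) (Θ (L.cls y) j) y))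
        ⟨y, L.mem y a'.1, mem_iInter.2 fun _ => mem_slab_self _ _ _⟩
      simp only [Prod.mk.injEq] at e
      generalize Classical.epsilon (· ∈ L.cls x ∩
        ⋂ j, slab (l (L.cls x) j) (Θ (L.cls x) j) x) = u at b e
      generalize Classical.epsilon (· ∈ L.cls y ∩
        ⋂ j, slab (l (L.cls y) j) (Θ (L.cls y) j) y) = v at b' e
      rw [L.eq x a.1 u b.1, L.eq y a'.1 v b'.1] at e
      obtain ⟨e1, e2⟩ := e
      have a2 := a'.2
      simp only
      rw [← e1] at e2 b' a2 ⊢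
      congr 1
      refine iInter_congr fun j => ?_
      have c := mem_iInter.1 b.2 j
      have c' := mem_iInter.1 b'.2 j
      rw [← slab_eq (a.2 j) c, ← slab_eq (a2 j) c']
      exact slab_eq (slab_notMem (a2 j) c') (mem_slab_of_lab (slab_notMem (a.2 j) c) (congrFun e2 j))

theorem mem_refine {x : E} :
    x ∈ (L.refine l Θ h).G ↔ x ∈ L.G ∧ ∀ j, l (L.cls x) j x ∉ Θ (L.cls x) j := Iff.rfl

theorem refine_cls (x : E) : (L.refine l Θ h).cls x =
    L.cls x ∩ ⋂ j, slab (l (L.cls x) j) (Θ (L.cls x) j) x := rfl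

theorem refine_poly {m : ℕ} (hm : L.PolyB m) : (L.refine l Θ h).PolyB (m + Fintype.card J * 2) :=
  fun x hx => (hm x hx.1).inter (Poly.iInter fun _ => poly_slab _ _ _)

/-- Points of one old class with the same positions lie in the same new class. -/
theorem refine_eq {x y : E} (hx : x ∈ (L.refine l Θ h).G) (hy : y ∈ (L.refine l Θ h).G)
    (e : L.cls y = L.cls x) (e' : ∀ j, lab (l (L.cls x) j) (Θ (L.cls x) j) y =
      lab (l (L.cls x) j) (Θ (L.cls x) j) x) : (L.refine l Θ h).cls y = (L.refine l Θ h).cls x :=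
  (L.refine l Θ h).eq x hx y ⟨e ▸ L.mem y hy.1, mem_iInter.2 fun j =>
    mem_slab_of_lab (e ▸ hy.2 j) (e' j)⟩

/-- The new classes inside an old class are counted by the positions. -/
theorem refine_card {R : Set E} (hR : R ∈ L.cl univ) (B : Finset (J → Finset ℝ))
    (hB : ∀ x ∈ R, (fun j => lab (l R j) (Θ R j) x) ∈ B) :
    ((L.refine l Θ h).cl R).card ≤ B.card := by
  obtain ⟨z, -, a, rfl⟩ := mem_cl.1 hR
  refine card_cl_le _ _ _ B (fun x b _ => hB x b) fun x b b' y c c' e => ?_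
  have d := L.eq z a x b
  have d' := L.eq z a y c
  refine refine_eq L l Θ h c' b' (d.trans d'.symm) fun j => ?_
  rw [d']
  exact congrFun e j

theorem refine_card_sum (S : Set E) :
    ((L.refine l Θ h).cl S).card ≤ ∑ R ∈ L.cl S, ((L.refine l Θ h).cl R).card :=
  card_cl_le_sum _ _ _ id fun x a b => ⟨_, cls_mem_cl a b.1, L.mem x b.1⟩

end refine

section prod

variable {ι : Type} [Fintype ι] (L : ι → Lab)

/-- The common refinement. -/
def prod : Lab where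
  G := ⋂ i, (L i).G
  cls x := ⋂ i, (L i).cls x
  mem x hx := mem_iInter.2 fun i => (L i).mem x (mem_iInter.1 hx i)
  sub x hx := iInter_mono fun i => (L i).sub x (mem_iInter.1 hx i)
  eq x hx y hy := iInter_congr fun i => (L i).eq x (mem_iInter.1 hx i) y (mem_iInter.1 hy i)
  poly x hx := by
    choose m a using fun i => (L i).poly x (mem_iInter.1 hx i)
    exact ⟨_, Poly.iInter fun i => (a i).mono (Finset.le_sup (f := m) (Finset.mem_univ i))⟩
  thin := by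
    rw [compl_iInter, ← biUnion_univ]
    exact Thin.biUnion finite_univ fun i _ => (L i).thin
  fin := by
    refine ((Finite.pi' fun i => (L i).fin).image fun f => ⋂ i, f i).subset ?_
    rintro _ ⟨x, a, rfl⟩
    exact ⟨fun i => (L i).cls x, fun i => mem_image_of_mem _ (mem_iInter.1 a i), rfl⟩

theorem mem_prod {x : E} : x ∈ (prod L).G ↔ ∀ i, x ∈ (L i).G := mem_iInter

theorem prod_cls (x : E) : (prod L).cls x = ⋂ i, (L i).cls x := rfl

theorem prod_poly {m : ℕ} (hm : ∀ i, (L i).PolyB m) : (prod L).PolyB (Fintype.card ι * m) :=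
  fun x hx => Poly.iInter fun i => hm i x (mem_iInter.1 hx i)

theorem prod_card (S : Set E) : ((prod L).cl S).card ≤ ∏ i, ((L i).cl S).card := by
  rw [← Fintype.card_piFinset]
  refine card_cl_le _ _ (fun x i => (L i).cls x) _ (fun x a b => Fintype.mem_piFinset.2 fun i =>
    cls_mem_cl a ((mem_prod L).1 b i)) fun x _ _ y _ _ e => ?_
  exact iInter_congr fun i => congrFun e i

end prod

end Lab

end Pool.Agent.Cyl
end

-- part Pool.Agent.P.MP_8a0bcd_co.St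
section

/-! Shared definitions: semialgebraic predicates, quadrics, frames, planar partitions. -/

set_option autoImplicit false

namespace Pool.Agent.Cyl

open Set
open scoped Classical

/-- The predicate `P` depends only on the signs of finitely many polynomials. -/
def SA {σ : Type} (P : (σ → ℝ) → Prop) : Prop :=
  ∃ T : Finset (MvPolynomial σ ℝ), ∀ x y : σ → ℝ,
    (∀ p ∈ T, SignType.sign (MvPolynomial.eval x p) = SignType.sign (MvPolynomial.eval y p)) →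
      P x → P y

/-- Polynomial functions of degree at most two. -/
def Quad (g : E → ℝ) : Prop :=
  ∃ (q : Fin 3 → Fin 3 → ℝ) (l : Fin 3 → ℝ) (c : ℝ),
    ∀ x, g x = ∑ i, ∑ j, q i j * x i * x j + ∑ i, l i * x i + c

/-- The unit disc around `a` in the coordinates `α`, `β`. -/
def disc (α β : Fn) (a : E) : Set E := {y | α (y - a) ^ 2 + β (y - a) ^ 2 ≤ 1}

/-- The square of half side `ρ` around `a` in the coordinates `α`, `β`. -/
def tube (α β : Fn) (a : E) (ρ : ℝ) : Set E := {y | |α (y - a)| ≤ ρ ∧ |β (y - a)| ≤ ρ}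

/-- `S` has diameter at most `l` in the coordinates `α`, `β`. -/
def Small (α β : Fn) (l : ℝ) (S : Set E) : Prop :=
  ∀ x ∈ S, ∀ y ∈ S, |α (x - y)| ≤ l ∧ |β (x - y)| ≤ l

/-- The coordinates `α`, `β` are independent. -/
def Onto (α β : Fn) : Prop := ∀ s t : ℝ, ∃ z, α z = s ∧ β z = t

/-- Orthonormal frames of the planes orthogonal to the directions `i : ι`, one frame for each
auxiliary direction `w : W`. -/
structure Geo (ι W : Type) (l θ : ℝ) where
  /-- the coordinate that vanishes on `w` -/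
  τ : W → ι → Fn
  /-- the coordinate along the projection of `w` -/
  σ : W → ι → Fn
  /-- squared distance to the axis -/
  Q : ι → E → ℝ
  form : ∀ w i z, τ w i z ^ 2 + σ w i z ^ 2 = Q i z
  onto : ∀ w i, Onto (τ w i) (σ w i)
  ker : ∀ w i j z, i ≠ j → τ w i z = 0 → τ w j z = 0 → ∀ k, τ w k z = 0
  line : ∀ w i j z, i ≠ j → τ w i z = 0 → τ w j z = 0 → ∀ k, Q k z ≤ l ^ 2 * Q i z
  slope : ∀ w i j z, i ≠ j → |σ w j z| ≤ l * (|τ w j z| + |τ w i z| + |σ w i z|)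
  axis : ∀ w i, ∃ γ : Fn, ∀ j, i ≠ j → ∃ κ : ℝ, κ ≠ 0 ∧
    ∀ z, |τ w j z - κ * γ z| ≤ |τ w i z| + |σ w i z|
  pick : ∀ z : ι → E, (∀ i, Q i (z i) = 1) → ∃ w, ∀ i, θ ≤ |σ w i (z i)|

/-- On `R` the discs of `J` decide membership in the union of the discs of `K`, and all of them
are seen from `R` almost in the direction `z` or `-z`. -/
def Nice {κ : Type} (α β : Fn) (K : Finset κ) (a : κ → E) (ε : ℝ) (R : Set E) (J : Finset κ)
    (z : E) : Prop :=
  (∀ k ∈ J, ∃ s : ℝ, (s = 1 ∨ s = -1) ∧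
    ∀ y ∈ R, |α (y - a k - s • z)| ≤ ε ∧ |β (y - a k - s • z)| ≤ ε) ∧
  ((∀ y ∈ R, ∃ k ∈ K, y ∈ disc α β (a k)) ∨
    ∀ y ∈ R, ∀ k ∈ K, y ∈ disc α β (a k) → ∃ k' ∈ J, y ∈ disc α β (a k'))

/-- A partition adapted to a family of unit discs, without the direction data. -/
structure Col {κ : Type} (α β : Fn) (K : Finset κ) (a : κ → E) (l : ℝ) (m C : ℕ) where
  /-- the partition -/
  L : Lab
  /-- the walls `α = θ` -/
  Θ : Finset ℝ
  poly : L.PolyB m
  card : Θ.card ≤ C * K.card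
  near : ∀ θ ∈ Θ, ∃ k ∈ K, |θ - α (a k)| ≤ 3
  off : ∀ x ∈ L.G, α x ∉ Θ
  bad : ∀ x, x ∉ L.G → α x ∈ Θ ∨ ∃ k ∈ K, x ∈ tube α β (a k) 3
  loc : ∀ S, Small α β l S → (L.cl S).card ≤ C

/-- A partition adapted to a family of unit discs. -/
structure Pl {κ : Type} (α β : Fn) (K : Finset κ) (a : κ → E) (ε l : ℝ) (m C : ℕ)
    extends Col α β K a l m C where
  /-- the discs that matter on a class -/
  J : Set E → Finset κ
  /-- the common direction on a class -/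
  z : Set E → E
  sub : ∀ R, J R ⊆ K
  unit : ∀ R, α (z R) ^ 2 + β (z R) ^ 2 = 1
  nice : ∀ x ∈ L.G, Nice α β K a ε (L.cls x) (J (L.cls x)) (z (L.cls x))

end Pool.Agent.Cyl
end

-- part Pool.Agent.P.MP_8a0bcd_co.QEA
section

/-! Quantifier elimination, the real-variable step. -/

set_option autoImplicit false

namespace Pool.Agent.Cyl

open Set
open scoped Classical

open Polynomial

theorem qea_stretch {b x y : ℝ} (hx : b < x) (hy : b < y) :
    ∃ g : ℝ ≃o ℝ, (∀ s, s ≤ b → g s = s) ∧ g x = y := by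
  obtain ⟨c, hc, hcx⟩ : ∃ c : ℝ, 0 < c ∧ (x - b) * c = y - b :=
    ⟨(y - b) / (x - b), div_pos (by linarith) (by linarith),
      mul_div_cancel₀ _ (by linarith : 0 < x - b).ne'⟩
  have hm : StrictMono fun s : ℝ => if s ≤ b then s else b + (s - b) * c := by
    intro s s' hs
    dsimp only
    split_ifs with h1 h2 h2
    · exact hs
    · have : 0 < (s' - b) * c := mul_pos (by linarith) hc
      linarith
    · linarith
    · nlinarith
  have hsur : Function.Surjective fun s : ℝ => if s ≤ b then s else b + (s - b) * c := by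
    intro z
    by_cases hz : z ≤ b
    · exact ⟨z, if_pos hz⟩
    · have h1 : 0 < (z - b) / c := div_pos (by linarith) hc
      refine ⟨b + (z - b) / c, ?_⟩
      dsimp only
      rw [if_neg (by linarith)]
      field_simp
      ring
  refine ⟨hm.orderIsoOfSurjective _ hsur, fun s hs => ?_, ?_⟩
  · rw [StrictMono.coe_orderIsoOfSurjective]
    exact if_pos hs
  · rw [StrictMono.coe_orderIsoOfSurjective]
    rw [if_neg (by linarith), hcx]
    ring

/-- A strictly increasing map on a finite set extends to an order automorphism of the line. -/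
theorem exists_orderIso_extend (F : Finset ℝ) (m : ℝ → ℝ) (hm : StrictMonoOn m F) :
    ∃ ψ : ℝ ≃o ℝ, ∀ t ∈ F, ψ t = m t := by
  induction F using Finset.induction_on_max with
  | empty => exact ⟨OrderIso.refl ℝ, by simp⟩
  | insert t s hts ih =>
    obtain ⟨ψ, hψ⟩ := ih (hm.mono (by simp))
    have hlt : ∀ x ∈ s, m x < min (ψ t) (m t) := fun x hx =>
      lt_min (by rw [← hψ x hx]; exact ψ.strictMono (hts x hx))
        (hm (by simp [hx]) (by simp) (hts x hx))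
    obtain ⟨b, hb, hb'⟩ : ∃ b, b < min (ψ t) (m t) ∧ ∀ x ∈ s, m x ≤ b := by
      rcases s.eq_empty_or_nonempty with rfl | hne
      · exact ⟨min (ψ t) (m t) - 1, by linarith, by simp⟩
      · obtain ⟨x, hx, hx'⟩ := s.exists_max_image m hne
        exact ⟨m x, hlt x hx, hx'⟩
    obtain ⟨g, hg, hg'⟩ := qea_stretch (lt_min_iff.1 hb).1 (lt_min_iff.1 hb).2
    refine ⟨ψ.trans g, fun x hx => ?_⟩
    rcases Finset.mem_insert.1 hx with rfl | hx
    · exact hg'
    · rw [OrderIso.trans_apply, hψ x hx, hg _ (hb' x hx)]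

/-- The open gap of `Z` around `t`. -/
def qeaO (Z : Finset ℝ) (t : ℝ) : Set ℝ := {s | ∀ z ∈ Z, (z < t → z < s) ∧ (t < z → s < z)}

/-- The closed gap of `Z` around `t`. -/
def qeaC (Z : Finset ℝ) (t : ℝ) : Set ℝ := {s | ∀ z ∈ Z, (z < t → z ≤ s) ∧ (t < z → s ≤ z)}

/-- The function is unbounded in both directions. -/
def qeaU (q : ℝ → ℝ) : Prop :=
  ∀ a, (∃ s, a < s ∧ |q a| < |q s|) ∧ ∃ s, s < a ∧ |q a| < |q s|

theorem qea_self (Z : Finset ℝ) (t : ℝ) : t ∈ qeaO Z t := fun _ _ => ⟨id, id⟩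

theorem qea_sub {Z : Finset ℝ} {t s : ℝ} (h : s ∈ qeaO Z t) : s ∈ qeaC Z t :=
  fun z hz => ⟨fun h1 => ((h z hz).1 h1).le, fun h1 => ((h z hz).2 h1).le⟩

theorem qea_ord (Z : Finset ℝ) (t : ℝ) : (qeaO Z t).OrdConnected :=
  ⟨fun _ ha _ hb _ hx z hz =>
    ⟨fun h => ((ha z hz).1 h).trans_le hx.1, fun h => hx.2.trans_lt ((hb z hz).2 h)⟩⟩

theorem qea_not {Z : Finset ℝ} {t s : ℝ} (ht : t ∉ Z) (h : s ∈ qeaO Z t) : s ∉ Z := by
  intro hs
  rcases lt_trichotomy s t with h1 | rfl | h1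
  · exact lt_irrefl _ ((h s hs).1 h1)
  · exact ht hs
  · exact lt_irrefl _ ((h s hs).2 h1)

theorem qea_trans {Z : Finset ℝ} {t s r : ℝ} (h : s ∈ qeaO Z t) (h' : r ∈ qeaO Z s) :
    r ∈ qeaO Z t :=
  fun z hz => ⟨fun h1 => (h' z hz).1 ((h z hz).1 h1), fun h1 => (h' z hz).2 ((h z hz).2 h1)⟩

theorem qea_pos {f : ℝ → ℝ} (hf : Continuous f) {S : Set ℝ} (hS : S.OrdConnected)
    (h : ∀ x ∈ S, f x ≠ 0) {a b : ℝ} (ha : a ∈ S) (hb : b ∈ S) (hp : 0 < f a) : 0 < f b := by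
  by_contra hc
  obtain ⟨x, hx, h0⟩ := hS.isPreconnected.intermediate_value hb ha hf.continuousOn
    ⟨not_lt.1 hc, hp.le⟩
  exact h x hx h0

theorem qea_sign {f : ℝ → ℝ} (hf : Continuous f) {S : Set ℝ} (hS : S.OrdConnected)
    (h : ∀ x ∈ S, f x ≠ 0) {a b : ℝ} (ha : a ∈ S) (hb : b ∈ S) :
    SignType.sign (f a) = SignType.sign (f b) := by
  rcases lt_or_gt_of_ne (h a ha) with h1 | h1
  · have h2 : f b < 0 := lt_of_le_of_ne
      (not_lt.1 fun h2 => lt_asymm h1 (qea_pos hf hS h hb ha h2)) (h b hb)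
    rw [sign_neg h1, sign_neg h2]
  · rw [sign_pos h1, sign_pos (qea_pos hf hS h ha hb h1)]

theorem qea_up {Z : Finset ℝ} {p q : ℝ → ℝ} (hq : Continuous q) (hU : qeaU q)
    (hZ : ∀ z ∈ Z, 0 < p z → 0 < q z) {t : ℝ} (hpm : StrictMonoOn p (qeaC Z t))
    (hqm : StrictMonoOn q (qeaC Z t)) (h : 0 ≤ p t) : ∃ s ∈ qeaO Z t, 0 < q s := by
  have htC := qea_sub (qea_self Z t)
  rcases (Z.filter fun z => t < z).eq_empty_or_nonempty with he | hne
  · obtain ⟨s, hs, hs'⟩ := (hU t).1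
    have hsO : s ∈ qeaO Z t := fun z hz => ⟨fun h1 => h1.trans hs, fun h1 =>
      absurd (Finset.mem_filter.2 ⟨hz, h1⟩) (by rw [he]; exact Finset.notMem_empty z)⟩
    refine ⟨s, hsO, ?_⟩
    have := hqm htC (qea_sub hsO) hs
    by_contra hc
    rw [abs_of_nonpos (not_lt.1 hc)] at hs'
    have := neg_abs_le (q t)
    linarith
  · obtain ⟨b, hb, hb'⟩ := (Z.filter fun z => t < z).exists_min_image id hne
    obtain ⟨hbZ, htb⟩ := Finset.mem_filter.1 hb
    have hle : ∀ z ∈ Z, t < z → b ≤ z := fun z hz h1 => hb' z (Finset.mem_filter.2 ⟨hz, h1⟩)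
    have hbC : b ∈ qeaC Z t := fun z hz => ⟨fun h1 => (h1.trans htb).le, hle z hz⟩
    have h1 : 0 < q b := hZ b hbZ (h.trans_lt (hpm htC hbC htb))
    have h2 : ∀ᶠ s in nhdsWithin b (Iio b), 0 < q s :=
      nhdsWithin_le_nhds (hq.continuousAt.eventually (lt_mem_nhds h1))
    obtain ⟨s, hs, hs'⟩ := (h2.and (Ioo_mem_nhdsLT htb)).exists
    exact ⟨s, fun z hz => ⟨fun h3 => h3.trans hs'.1, fun h3 => hs'.2.trans_le (hle z hz h3)⟩, hs⟩

theorem qea_down {Z : Finset ℝ} {p q : ℝ → ℝ} (hq : Continuous q) (hU : qeaU q)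
    (hZ : ∀ z ∈ Z, p z < 0 → q z < 0) {t : ℝ} (hpm : StrictMonoOn p (qeaC Z t))
    (hqm : StrictMonoOn q (qeaC Z t)) (h : p t ≤ 0) : ∃ s ∈ qeaO Z t, q s < 0 := by
  have htC := qea_sub (qea_self Z t)
  rcases (Z.filter fun z => z < t).eq_empty_or_nonempty with he | hne
  · obtain ⟨s, hs, hs'⟩ := (hU t).2
    have hsO : s ∈ qeaO Z t := fun z hz => ⟨fun h1 =>
      absurd (Finset.mem_filter.2 ⟨hz, h1⟩) (by rw [he]; exact Finset.notMem_empty z),
      fun h1 => hs.trans h1⟩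
    refine ⟨s, hsO, ?_⟩
    have := hqm (qea_sub hsO) htC hs
    by_contra hc
    rw [abs_of_nonneg (not_lt.1 hc)] at hs'
    have := le_abs_self (q t)
    linarith
  · obtain ⟨b, hb, hb'⟩ := (Z.filter fun z => z < t).exists_max_image id hne
    obtain ⟨hbZ, htb⟩ := Finset.mem_filter.1 hb
    have hle : ∀ z ∈ Z, z < t → z ≤ b := fun z hz h1 => hb' z (Finset.mem_filter.2 ⟨hz, h1⟩)
    have hbC : b ∈ qeaC Z t := fun z hz => ⟨hle z hz, fun h1 => (htb.trans h1).le⟩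
    have h1 : q b < 0 := hZ b hbZ ((hpm hbC htC htb).trans_le h)
    have h2 : ∀ᶠ s in nhdsWithin b (Ioi b), q s < 0 :=
      nhdsWithin_le_nhds (hq.continuousAt.eventually (gt_mem_nhds h1))
    obtain ⟨s, hs, hs'⟩ := (h2.and (Ioo_mem_nhdsGT htb)).exists
    exact ⟨s, fun z hz => ⟨fun h3 => (hle z hz h3).trans_lt hs'.1, fun h3 => hs'.2.trans h3⟩, hs⟩

/-- If `q` has no root in the gap then its sign there is the sign of `p`. -/
theorem qea_key {Z : Finset ℝ} {p q : ℝ → ℝ} (hq : Continuous q) (hU : qeaU q)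
    (hZ : ∀ z ∈ Z, SignType.sign (p z) = SignType.sign (q z)) {t : ℝ}
    (hpm : StrictMonoOn p (qeaC Z t)) (hqm : StrictMonoOn q (qeaC Z t))
    (h : ∀ s ∈ qeaO Z t, q s ≠ 0) :
    ∀ s ∈ qeaO Z t, SignType.sign (p t) = SignType.sign (q s) := by
  intro s hs
  have up := qea_up hq hU (fun z hz h1 => sign_eq_one_iff.1 (hZ z hz ▸ sign_pos h1)) hpm hqm
  have dn := qea_down hq hU (fun z hz h1 => sign_eq_neg_one_iff.1 (hZ z hz ▸ sign_neg h1)) hpm hqm
  rcases lt_trichotomy (p t) 0 with h1 | h1 | h1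
  · obtain ⟨r, hr, hr'⟩ := dn h1.le
    rw [sign_neg h1, ← qea_sign hq (qea_ord Z t) h hr hs, sign_neg hr']
  · obtain ⟨r, hr, hr'⟩ := dn h1.le
    obtain ⟨r1, hr1, hr1'⟩ := up h1.ge
    exact absurd (qea_pos hq (qea_ord Z t) h hr1 hr hr1') (lt_asymm hr')
  · obtain ⟨r, hr, hr'⟩ := up h1.le
    rw [sign_pos h1, ← qea_sign hq (qea_ord Z t) h hr hs, sign_pos hr']

theorem qea_key' {Z : Finset ℝ} {p q : ℝ → ℝ} (hq : Continuous q) (hU : qeaU q)
    (hZ : ∀ z ∈ Z, SignType.sign (p z) = SignType.sign (q z)) {t : ℝ}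
    (hm : (StrictMonoOn p (qeaC Z t) ∧ StrictMonoOn q (qeaC Z t)) ∨
      (StrictAntiOn p (qeaC Z t) ∧ StrictAntiOn q (qeaC Z t)))
    (h : ∀ s ∈ qeaO Z t, q s ≠ 0) :
    ∀ s ∈ qeaO Z t, SignType.sign (p t) = SignType.sign (q s) := by
  rcases hm with ⟨h1, h2⟩ | ⟨h1, h2⟩
  · exact qea_key hq hU hZ h1 h2 h
  · intro s hs
    have := qea_key (p := fun x => -p x) (q := fun x => -q x) hq.neg
      (by simpa only [qeaU, abs_neg] using hU)
      (fun z hz => by rw [Left.sign_neg, Left.sign_neg, hZ z hz]) h1.neg h2.neg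
      (fun s hs => neg_ne_zero.2 (h s hs)) s hs
    rwa [Left.sign_neg, Left.sign_neg, neg_inj] at this

theorem qea_core {Z R : Finset ℝ} {p q : ℝ → ℝ} (hp : Continuous p) (hq : Continuous q)
    (hUp : qeaU p) (hUq : qeaU q) (hR : ∀ r, p r = 0 ↔ r ∈ R)
    (hZ : ∀ z ∈ Z, SignType.sign (p z) = SignType.sign (q z))
    (hm : ∀ t, t ∉ Z → (StrictMonoOn p (qeaC Z t) ∧ StrictMonoOn q (qeaC Z t)) ∨
      (StrictAntiOn p (qeaC Z t) ∧ StrictAntiOn q (qeaC Z t))) :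
    ∃ ψ : ℝ ≃o ℝ, (∀ z ∈ Z, ψ z = z) ∧ ∀ t, SignType.sign (p t) = SignType.sign (q (ψ t)) := by
  have hex : ∀ r, ∃ s, (r ∈ Z → s = r) ∧ s ∈ qeaO Z r ∧ (r ∉ Z → p r = 0 → q s = 0) := by
    intro r
    by_cases hr : r ∈ Z
    · exact ⟨r, fun _ => rfl, qea_self Z r, fun h => absurd hr h⟩
    by_cases h0 : ∃ s ∈ qeaO Z r, q s = 0
    · obtain ⟨s, hs, hs'⟩ := h0
      exact ⟨s, fun h => absurd h hr, hs, fun _ _ => hs'⟩
    · push Not at h0
      refine ⟨r, fun _ => rfl, qea_self Z r, fun _ h1 => ?_⟩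
      have := qea_key' hq hUq hZ (hm r hr) h0 r (qea_self Z r)
      rw [h1, sign_zero] at this
      exact sign_eq_zero_iff.1 this.symm
  choose m m1 m2 m3 using hex
  have hmono : StrictMonoOn m ((Z ∪ R : Finset ℝ) : Set ℝ) := by
    intro a ha b hb hab
    by_cases haZ : a ∈ Z
    · rw [m1 a haZ]
      exact (m2 b a haZ).1 hab
    by_cases hbZ : b ∈ Z
    · rw [m1 b hbZ]
      exact (m2 a b hbZ).2 hab
    have ha0 : p a = 0 := (hR a).2 ((Finset.mem_union.1 ha).resolve_left haZ)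
    have hb0 : p b = 0 := (hR b).2 ((Finset.mem_union.1 hb).resolve_left hbZ)
    by_cases hz : ∃ z ∈ Z, a < z ∧ z < b
    · obtain ⟨z, hz, h1, h2⟩ := hz
      exact ((m2 a z hz).2 h1).trans ((m2 b z hz).1 h2)
    · push Not at hz
      have hbC : b ∈ qeaC Z a := fun z h => ⟨fun h1 => (h1.trans hab).le, hz z h⟩
      have haC := qea_sub (qea_self Z a)
      rcases hm a haZ with ⟨h1, -⟩ | ⟨h1, -⟩
      · exact absurd (h1 haC hbC hab) (by rw [ha0, hb0]; exact lt_irrefl _)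
      · exact absurd (h1 haC hbC hab) (by rw [ha0, hb0]; exact lt_irrefl _)
  obtain ⟨ψ, hψ⟩ := exists_orderIso_extend _ m hmono
  have hfix : ∀ z ∈ Z, ψ z = z := fun z hz => by
    rw [hψ z (Finset.mem_union_left _ hz), m1 z hz]
  refine ⟨ψ, hfix, fun t => ?_⟩
  by_cases ht : t ∈ Z
  · rw [hfix t ht, hZ t ht]
  have hO : ψ t ∈ qeaO Z t := fun z hz =>
    ⟨fun h => by rw [← hfix z hz]; exact ψ.strictMono h,
      fun h => by rw [← hfix z hz]; exact ψ.strictMono h⟩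
  by_cases h0 : ∃ r ∈ qeaO Z t, p r = 0
  · obtain ⟨r, hr, hr0⟩ := h0
    have hψr : ψ r = m r := hψ r (Finset.mem_union_right _ ((hR r).1 hr0))
    have hq0 : q (ψ r) = 0 := by rw [hψr]; exact m3 r (qea_not ht hr) hr0
    have hrC := qea_sub hr
    have hrC' : ψ r ∈ qeaC Z t := by rw [hψr]; exact qea_sub (qea_trans hr (m2 r))
    have htC := qea_sub (qea_self Z t)
    have htC' := qea_sub hO
    rcases lt_trichotomy t r with h | rfl | h
    · rcases hm t ht with ⟨h1, h2⟩ | ⟨h1, h2⟩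
      · rw [sign_neg (hr0 ▸ h1 htC hrC h), sign_neg (hq0 ▸ h2 htC' hrC' (ψ.strictMono h))]
      · rw [sign_pos (hr0 ▸ h1 htC hrC h), sign_pos (hq0 ▸ h2 htC' hrC' (ψ.strictMono h))]
    · rw [hr0, hq0]
    · rcases hm t ht with ⟨h1, h2⟩ | ⟨h1, h2⟩
      · rw [sign_pos (hr0 ▸ h1 hrC htC h), sign_pos (hq0 ▸ h2 hrC' htC' (ψ.strictMono h))]
      · rw [sign_neg (hr0 ▸ h1 hrC htC h), sign_neg (hq0 ▸ h2 hrC' htC' (ψ.strictMono h))]
  · push Not at h0
    refine qea_key' hq hUq hZ (hm t ht) (fun s hs hs0 => ?_) _ hO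
    have := qea_key' hp hUp (fun z hz => (hZ z hz).symm)
      ((hm s (qea_not ht hs)).imp And.symm And.symm) (fun r hr => h0 r (qea_trans hs hr)) s
      (qea_self Z s)
    rw [hs0, sign_zero] at this
    exact h0 s hs (sign_eq_zero_iff.1 this.symm)

theorem qea_unb (Q : ℝ[X]) (hQ : derivative Q ≠ 0) (φ : ℝ ≃o ℝ) :
    qeaU fun t => Q.eval (φ t) := by
  have hd : 0 < Q.degree := by
    by_contra hc
    rw [eq_C_of_degree_le_zero (not_lt.1 hc), derivative_C] at hQ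
    exact hQ rfl
  intro a
  have h1 := Q.tendsto_abv_atTop abs hd (Filter.tendsto_abs_atTop_atTop.comp φ.tendsto_atTop)
  have h2 := Q.tendsto_abv_atTop abs hd (Filter.tendsto_abs_atBot_atTop.comp φ.tendsto_atBot)
  exact ⟨((Filter.eventually_gt_atTop a).and (h1.eventually_gt_atTop _)).exists,
    ((Filter.eventually_lt_atBot a).and (h2.eventually_gt_atTop _)).exists⟩

theorem qea_mvt (P : ℝ[X]) {a b : ℝ} (hab : a < b) :
    ∃ c ∈ Ioo a b, P.eval b - P.eval a = (derivative P).eval c * (b - a) := by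
  obtain ⟨c, hc, h⟩ := exists_hasDerivAt_eq_slope (fun x => P.eval x)
    (fun x => (derivative P).eval x) hab P.continuous.continuousOn fun x _ => P.hasDerivAt x
  exact ⟨c, hc, by rw [h, div_mul_cancel₀ _ (sub_pos.2 hab).ne']⟩

/-- Sign tables: adding a polynomial whose derivative is in the table. -/
theorem qe_real {I : Type} [Finite I] (u v : I → ℝ[X]) (i0 : I) (P Q : ℝ[X]) (φ : ℝ ≃o ℝ)
    (hu : ∀ i, u i ≠ 0) (hP : derivative P = u i0) (hQ : derivative Q = v i0)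
    (huv : ∀ i t, SignType.sign ((u i).eval t) = SignType.sign ((v i).eval (φ t)))
    (hPQ : ∀ i t, (u i).eval t = 0 → SignType.sign (P.eval t) = SignType.sign (Q.eval (φ t))) :
    ∃ ψ : ℝ ≃o ℝ, (∀ i t, SignType.sign ((u i).eval t) = SignType.sign ((v i).eval (ψ t))) ∧
      ∀ t, SignType.sign (P.eval t) = SignType.sign (Q.eval (ψ t)) := by
  have := Fintype.ofFinite I
  obtain ⟨Z, hZ⟩ : ∃ Z : Finset ℝ, ∀ t, t ∈ Z ↔ ∃ i, (u i).eval t = 0 :=
    ⟨Finset.univ.biUnion fun i => (u i).roots.toFinset, fun t => by simp [hu]⟩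
  have hP0 : derivative P ≠ 0 := hP ▸ hu i0
  have hP1 : P ≠ 0 := fun h => hP0 (by rw [h, derivative_zero])
  have hQ0 : derivative Q ≠ 0 := by
    intro h
    refine hu i0 (Polynomial.funext fun t => ?_)
    have := huv i0 t
    rw [← hQ, h, eval_zero, sign_zero] at this
    rw [sign_eq_zero_iff.1 this, eval_zero]
  have hconst : ∀ i t s, t ∉ Z → s ∈ qeaO Z t →
      SignType.sign ((u i).eval t) = SignType.sign ((u i).eval s) := fun i t s ht hs =>
    qea_sign (u i).continuous (qea_ord Z t)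
      (fun x hx h => qea_not ht hx ((hZ x).2 ⟨i, h⟩)) (qea_self Z t) hs
  have hslope : ∀ t, t ∉ Z → ∀ a ∈ qeaC Z t, ∀ b ∈ qeaC Z t, a < b →
      SignType.sign (P.eval b - P.eval a) = SignType.sign ((u i0).eval t) ∧
      SignType.sign (Q.eval (φ b) - Q.eval (φ a)) = SignType.sign ((u i0).eval t) := by
    intro t ht a ha b hb hab
    have hI : ∀ c, a < c → c < b → c ∈ qeaO Z t := fun c h1 h2 z hz =>
      ⟨fun h => ((ha z hz).1 h).trans_lt h1, fun h => h2.trans_le ((hb z hz).2 h)⟩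
    obtain ⟨c, hc, h1⟩ := qea_mvt P hab
    obtain ⟨e, he, h2⟩ := qea_mvt Q (φ.strictMono hab)
    obtain ⟨e, rfl⟩ := φ.surjective e
    rw [h1, h2, sign_mul, sign_mul, sign_pos (sub_pos.2 hab),
      sign_pos (sub_pos.2 (φ.strictMono hab)), mul_one, mul_one, hP, hQ, ← huv]
    exact ⟨(hconst i0 t c ht (hI c hc.1 hc.2)).symm,
      (hconst i0 t e ht (hI e (φ.lt_iff_lt.1 he.1) (φ.lt_iff_lt.1 he.2))).symm⟩
  obtain ⟨ψ, h1, h2⟩ := qea_core (Z := Z) (R := P.roots.toFinset) (p := fun t => P.eval t)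
    (q := fun t => Q.eval (φ t)) P.continuous (Q.continuous.comp φ.continuous)
    (qea_unb P hP0 (OrderIso.refl ℝ)) (qea_unb Q hQ0 φ) (fun r => by simp [hP1])
    (fun z hz => by
      obtain ⟨i, hi⟩ := (hZ z).1 hz
      exact hPQ i z hi)
    (fun t ht => by
      have hne : (u i0).eval t ≠ 0 := fun h => ht ((hZ t).2 ⟨i0, h⟩)
      rcases lt_or_gt_of_ne hne with h | h
      · exact Or.inr ⟨fun a ha b hb hab => by
            have := (hslope t ht a ha b hb hab).1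
            rwa [sign_neg h, sign_eq_neg_one_iff, sub_neg] at this,
          fun a ha b hb hab => by
            have := (hslope t ht a ha b hb hab).2
            rwa [sign_neg h, sign_eq_neg_one_iff, sub_neg] at this⟩
      · exact Or.inl ⟨fun a ha b hb hab => by
            have := (hslope t ht a ha b hb hab).1
            rwa [sign_pos h, sign_eq_one_iff, sub_pos] at this,
          fun a ha b hb hab => by
            have := (hslope t ht a ha b hb hab).2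
            rwa [sign_pos h, sign_eq_one_iff, sub_pos] at this⟩)
  refine ⟨ψ.trans φ, fun i t => ?_, h2⟩
  rw [OrderIso.trans_apply, ← huv]
  by_cases ht : t ∈ Z
  · rw [h1 t ht]
  · exact hconst i t _ ht fun z hz =>
      ⟨fun h => by rw [← h1 z hz]; exact ψ.strictMono h,
        fun h => by rw [← h1 z hz]; exact ψ.strictMono h⟩

end Pool.Agent.Cyl
end

-- part Pool.Agent.P.MP_8a0bcd_co.QEB
section

/-! Quantifier elimination (Tarski, Seidenberg; proof of Cohen and Hoermander). -/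

set_option autoImplicit false

namespace Pool.Agent.Cyl

open Set
open scoped Classical

open Polynomial

/-- Induction on finite families: a member may be replaced by members of smaller degree. -/
theorem qeb_ind {A : Type} [CommRing A] {Good : Finset A[X] → Prop}
    (step : ∀ T : Finset A[X], (∀ p ∈ T, ∀ N : Finset A[X], (∀ q ∈ N, q.degree < p.degree) →
      Good (T.erase p ∪ N)) → Good T) (T : Finset A[X]) : Good T := by
  have hwf : WellFounded fun S T : Finset A[X] =>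
      Multiset.IsDershowitzMannaLT (S.val.map degree) (T.val.map degree) :=
    InvImage.wf (fun S : Finset A[X] => S.val.map degree) Multiset.wellFounded_isDershowitzMannaLT
  induction T using hwf.induction with
  | _ T ih =>
    refine step T fun p hp N hN => ih _ ?_
    refine ⟨(T.erase p).val.map degree, (N \ T.erase p).val.map degree, {p.degree}, by simp, ?_,
      ?_, ?_⟩
    · rw [← Multiset.map_add]
      congr 1
      rw [← Finset.union_sdiff_self_eq_union, ← Finset.disjUnion_eq_union _ _ Finset.disjoint_sdiff]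
      rfl
    · have h1 : T.val = p ::ₘ (T.erase p).val := by
        rw [Finset.erase_val, Multiset.cons_erase hp]
      rw [h1, Multiset.map_cons, add_comm, Multiset.singleton_add]
    · intro y hy
      obtain ⟨q, hq, rfl⟩ := Multiset.mem_map.1 hy
      exact ⟨p.degree, Multiset.mem_singleton_self _, hN q (Finset.mem_sdiff.1 hq).1⟩

/-- Pseudo-division. -/
theorem qeb_pseudo {A : Type} [CommRing A] [IsDomain A] {q : A[X]} (hq : q ≠ 0) (p : A[X]) :
    ∃ (e : ℕ) (s r : A[X]), C q.leadingCoeff ^ e * p = s * q + r ∧ r.degree < q.degree := by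
  induction p using degree_lt_wf.induction with
  | _ p ih =>
    by_cases h : p.degree < q.degree
    · exact ⟨0, 0, p, by simp, h⟩
    have hle : q.degree ≤ p.degree := not_lt.1 h
    have hp : p ≠ 0 := by
      rintro rfl
      rw [degree_zero, le_bot_iff, degree_eq_bot] at hle
      exact hq hle
    have hnat : q.natDegree ≤ p.natDegree := natDegree_le_natDegree hle
    have hlq : q.leadingCoeff ≠ 0 := leadingCoeff_ne_zero.2 hq
    have hlp : p.leadingCoeff ≠ 0 := leadingCoeff_ne_zero.2 hp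
    have hd1 : (C q.leadingCoeff * p).degree = p.degree := degree_C_mul hlq
    have hd2 : (C p.leadingCoeff * X ^ (p.natDegree - q.natDegree) * q).degree = p.degree := by
      rw [degree_mul, degree_C_mul_X_pow _ hlp, degree_eq_natDegree hq, degree_eq_natDegree hp,
        ← Nat.cast_add, Nat.sub_add_cancel hnat]
    have hlt : (C q.leadingCoeff * p
        - C p.leadingCoeff * X ^ (p.natDegree - q.natDegree) * q).degree < p.degree := by
      rw [← hd1]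
      refine degree_sub_lt_left (hd1.trans hd2.symm) (mul_ne_zero (C_ne_zero.2 hlq) hp) ?_
      rw [leadingCoeff_mul, leadingCoeff_mul, leadingCoeff_C, leadingCoeff_C_mul_X_pow, mul_comm]
    obtain ⟨e, s, r, he, hr⟩ := ih _ hlt
    refine ⟨e + 1, s + C q.leadingCoeff ^ e * (C p.leadingCoeff * X ^ (p.natDegree - q.natDegree)),
      r, ?_, hr⟩
    linear_combination he

/-- Pseudo-division with an even exponent. -/
theorem qeb_even {A : Type} [CommRing A] [IsDomain A] {p : A[X]} (hp : p ≠ 0) (q : A[X]) :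
    ∃ (e : ℕ) (s r : A[X]), (q.degree ≤ p.degree → r.degree < p.degree) ∧
      (q ≠ 0 → C q.leadingCoeff ^ (2 * e) * p = s * q + r) := by
  by_cases hq : q = 0
  · exact ⟨0, 0, 0, fun _ => by rw [degree_zero]; exact bot_lt_iff_ne_bot.2 (degree_ne_bot.2 hp),
      fun h => absurd hq h⟩
  obtain ⟨e, s, r, he, hr⟩ := qeb_pseudo hq p
  refine ⟨e, C q.leadingCoeff ^ e * s, C q.leadingCoeff ^ e * r, fun hle => ?_, fun _ => ?_⟩
  · rw [← C_pow, degree_C_mul (pow_ne_zero _ (leadingCoeff_ne_zero.2 hq))]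
    exact hr.trans_le hle
  · linear_combination C q.leadingCoeff ^ e * he

theorem qeb_root {A : Type} [CommRing A] {p q s r : A[X]} {e : ℕ} (f : A →+* ℝ)
    (h : C q.leadingCoeff ^ (2 * e) * p = s * q + r) (hl : f q.leadingCoeff ≠ 0) {t : ℝ}
    (ht : (q.map f).eval t = 0) :
    SignType.sign ((p.map f).eval t) = SignType.sign ((r.map f).eval t) := by
  have h1 := congrArg (fun z : A[X] => (z.map f).eval t) h
  simp only [Polynomial.map_mul, Polynomial.map_add, Polynomial.map_pow, map_C, eval_mul, eval_add,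
    eval_pow, eval_C, ht, mul_zero, zero_add] at h1
  have h2 : 0 < f q.leadingCoeff ^ (2 * e) := Even.pow_pos (even_two_mul e) hl
  rw [← h1, sign_mul, sign_pos h2, one_mul]

theorem qeb_erase {A : Type} [CommRing A] {q : A[X]} (f : A →+* ℝ) (hl : f q.leadingCoeff = 0) :
    q.map f = q.eraseLead.map f := by
  conv_lhs => rw [← eraseLead_add_monomial_natDegree_leadingCoeff q]
  rw [Polynomial.map_add, Polynomial.map_monomial, hl, monomial_zero_right, add_zero]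

theorem qeb_ne {A : Type} [CommRing A] {q : A[X]} (f : A →+* ℝ) (hl : f q.leadingCoeff ≠ 0) :
    q.map f ≠ 0 := by
  intro h
  apply hl
  have h1 := congrArg (fun z : ℝ[X] => z.coeff q.natDegree) h
  simpa using h1

/-- The sign table of a finite family of polynomials is determined by the signs of finitely many
elements of the coefficient ring. -/
theorem qe_core {A : Type} [CommRing A] [IsDomain A] [CharZero A] (T : Finset A[X]) :
    ∃ T' : Finset A, ∀ f g : A →+* ℝ, (∀ a ∈ T', SignType.sign (f a) = SignType.sign (g a)) →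
      ∃ φ : ℝ ≃o ℝ, ∀ p ∈ T, ∀ t,
        SignType.sign ((p.map f).eval t) = SignType.sign ((p.map g).eval (φ t)) := by
  induction T using qeb_ind with
  | step T ih =>
    -- families with one leading term erased
    have h1 : ∀ q : A[X], ∃ T1 : Finset A, q ∈ T → ∀ f g : A →+* ℝ,
        (∀ a ∈ T1, SignType.sign (f a) = SignType.sign (g a)) →
        f q.leadingCoeff = 0 → g q.leadingCoeff = 0 → ∃ φ : ℝ ≃o ℝ, ∀ p ∈ T, ∀ t,
          SignType.sign ((p.map f).eval t) = SignType.sign ((p.map g).eval (φ t)) := by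
      intro q
      by_cases hqT : q ∈ T
      swap
      · exact ⟨∅, fun h => absurd h hqT⟩
      by_cases hq : q = 0
      · obtain ⟨T1, hT1⟩ := ih q hqT ∅ (by simp)
        refine ⟨T1, fun _ f g hfg _ _ => ?_⟩
        obtain ⟨φ, hφ⟩ := hT1 f g hfg
        refine ⟨φ, fun p hp t => ?_⟩
        by_cases hpq : p = q
        · rw [hpq, hq]
          simp
        · exact hφ p (Finset.mem_union_left _ (Finset.mem_erase.2 ⟨hpq, hp⟩)) t
      · obtain ⟨T1, hT1⟩ := ih q hqT {q.eraseLead} (by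
          intro r hr
          rw [Finset.mem_singleton.1 hr]
          exact degree_eraseLead_lt hq)
        refine ⟨T1, fun _ f g hfg hf hg => ?_⟩
        obtain ⟨φ, hφ⟩ := hT1 f g hfg
        refine ⟨φ, fun p hp t => ?_⟩
        by_cases hpq : p = q
        · rw [hpq, qeb_erase f hf, qeb_erase g hg]
          exact hφ _ (Finset.mem_union_right _ (Finset.mem_singleton_self _)) t
        · exact hφ p (Finset.mem_union_left _ (Finset.mem_erase.2 ⟨hpq, hp⟩)) t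
    choose T1 hT1 using h1
    -- the main family
    have h2 : ∃ T2 : Finset A, ∀ f g : A →+* ℝ,
        (∀ a ∈ T2, SignType.sign (f a) = SignType.sign (g a)) →
        (∀ q ∈ T, SignType.sign (f q.leadingCoeff) = SignType.sign (g q.leadingCoeff)) →
        (∀ q ∈ T, f q.leadingCoeff ≠ 0) → (∀ q ∈ T, g q.leadingCoeff ≠ 0) →
        ∃ φ : ℝ ≃o ℝ, ∀ p ∈ T, ∀ t,
          SignType.sign ((p.map f).eval t) = SignType.sign ((p.map g).eval (φ t)) := by
      by_cases h0 : ∀ q ∈ T, q.natDegree = 0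
      · refine ⟨∅, fun f g _ hl _ _ => ⟨OrderIso.refl ℝ, fun p hp t => ?_⟩⟩
        have hpC : p = C p.leadingCoeff := by
          rw [leadingCoeff, h0 p hp]
          exact eq_C_of_natDegree_eq_zero (h0 p hp)
        rw [hpC]
        simp only [map_C, eval_C]
        exact hl p hp
      · obtain ⟨q0, hq0⟩ := not_forall.1 h0
        obtain ⟨hq0T, hq0d⟩ := Classical.not_imp.1 hq0
        obtain ⟨p, hpT, hpm⟩ := Finset.exists_max_image T degree ⟨q0, hq0T⟩
        have hpd : p.natDegree ≠ 0 := fun h =>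
          hq0d (Nat.eq_zero_of_le_zero (h ▸ natDegree_le_natDegree (hpm q0 hq0T)))
        have hp : p ≠ 0 := by
          rintro rfl
          exact hpd natDegree_zero
        choose e s r hr hid using qeb_even hp
        set U : Finset A[X] := insert (derivative p) (T.erase p) with hU
        have hUd : ∀ q ∈ U, q.degree ≤ p.degree := by
          intro q hq
          rcases Finset.mem_insert.1 hq with rfl | hq
          · exact (degree_derivative_lt hp).le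
          · exact hpm q (Finset.mem_of_mem_erase hq)
        obtain ⟨T2, hT2⟩ := ih p hpT (insert (derivative p) (U.image r)) (by
          intro q hq
          rcases Finset.mem_insert.1 hq with rfl | hq
          · exact degree_derivative_lt hp
          · obtain ⟨q', hq', rfl⟩ := Finset.mem_image.1 hq
            exact hr q' (hUd q' hq'))
        refine ⟨T2, fun f g hfg _ hf hg => ?_⟩
        obtain ⟨φ, hφ⟩ := hT2 f g hfg
        have hUl : ∀ k : A →+* ℝ, (∀ q ∈ T, k q.leadingCoeff ≠ 0) →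
            ∀ q ∈ U, k q.leadingCoeff ≠ 0 := by
          intro k hk q hq
          rcases Finset.mem_insert.1 hq with rfl | hq
          · rw [leadingCoeff_derivative, map_mul, map_natCast]
            exact mul_ne_zero (hk p hpT) (Nat.cast_ne_zero.2 hpd)
          · exact hk q (Finset.mem_of_mem_erase hq)
        have hUφ : ∀ q ∈ U, ∀ t,
            SignType.sign ((q.map f).eval t) = SignType.sign ((q.map g).eval (φ t)) := by
          intro q hq t
          rcases Finset.mem_insert.1 hq with rfl | hq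
          · exact hφ _ (Finset.mem_union_right _ (Finset.mem_insert_self _ _)) t
          · exact hφ q (Finset.mem_union_left _ hq) t
        obtain ⟨ψ, hψ1, hψ2⟩ := qe_real (I := U) (fun i => i.1.map f) (fun i => i.1.map g)
          ⟨derivative p, Finset.mem_insert_self _ _⟩ (p.map f) (p.map g) φ
          (fun i => qeb_ne f (hUl f hf i.1 i.2)) (derivative_map p f) (derivative_map p g)
          (fun i t => hUφ i.1 i.2 t) (by
            rintro ⟨q, hq⟩ t ht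
            have hq0 : q ≠ 0 := by
              rintro rfl
              exact hUl f hf 0 hq (by simp)
            have ht' : (q.map g).eval (φ t) = 0 := by
              have h3 := hUφ q hq t
              have ht0 : (q.map f).eval t = 0 := ht
              rw [ht0, sign_zero] at h3
              exact sign_eq_zero_iff.1 h3.symm
            rw [qeb_root f (hid q hq0) (hUl f hf q hq) ht,
              qeb_root g (hid q hq0) (hUl g hg q hq) ht']
            exact hφ _ (Finset.mem_union_right _ (Finset.mem_insert_of_mem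
              (Finset.mem_image_of_mem r hq))) t)
        refine ⟨ψ, fun q hq t => ?_⟩
        by_cases hqp : q = p
        · rw [hqp]
          exact hψ2 t
        · exact hψ1 ⟨q, Finset.mem_insert_of_mem (Finset.mem_erase.2 ⟨hqp, hq⟩)⟩ t
    obtain ⟨T2, hT2⟩ := h2
    refine ⟨T.image leadingCoeff ∪ (T.biUnion T1 ∪ T2), fun f g hfg => ?_⟩
    have hl : ∀ q ∈ T, SignType.sign (f q.leadingCoeff) = SignType.sign (g q.leadingCoeff) :=
      fun q hq => hfg _ (Finset.mem_union_left _ (Finset.mem_image_of_mem _ hq))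
    have hiff : ∀ q ∈ T, f q.leadingCoeff = 0 ↔ g q.leadingCoeff = 0 := fun q hq => by
      rw [← sign_eq_zero_iff, hl q hq, sign_eq_zero_iff]
    by_cases hz : ∃ q ∈ T, f q.leadingCoeff = 0
    · obtain ⟨q, hq, hq0⟩ := hz
      exact hT1 q hq f g (fun a ha => hfg a (Finset.mem_union_right _ (Finset.mem_union_left _
        (Finset.mem_biUnion.2 ⟨q, hq, ha⟩)))) hq0 ((hiff q hq).1 hq0)
    · have hf : ∀ q ∈ T, f q.leadingCoeff ≠ 0 := fun q hq h => hz ⟨q, hq, h⟩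
      exact hT2 f g (fun a ha => hfg a (Finset.mem_union_right _ (Finset.mem_union_right _ ha))) hl
        hf fun q hq h => hf q hq ((hiff q hq).2 h)

/-- Elimination of one existential quantifier. -/
theorem SA.exists_real {σ : Type} {P : (Option σ → ℝ) → Prop} (h : SA P) :
    SA fun x : σ → ℝ => ∃ t : ℝ, P fun o => o.elim t x := by
  obtain ⟨T, hT⟩ := h
  obtain ⟨T', hT'⟩ := qe_core (T.image (MvPolynomial.optionEquivLeft ℝ σ))
  refine ⟨T', fun x y hxy ⟨t, ht⟩ => ?_⟩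
  obtain ⟨φ, hφ⟩ := hT' (MvPolynomial.eval x) (MvPolynomial.eval y) hxy
  refine ⟨φ t, hT _ _ (fun p hp => ?_) ht⟩
  rw [MvPolynomial.optionEquivLeft_elim_eval, MvPolynomial.optionEquivLeft_elim_eval]
  exact hφ _ (Finset.mem_image_of_mem _ hp) t

end Pool.Agent.Cyl
end

-- part Pool.Agent.P.MP_8a0bcd_co.Clos
section

/-! Closures of sets cut out by boundedly many quadrics have bounded complexity. -/

set_option autoImplicit false

namespace Pool.Agent.Cyl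

open Set
open scoped Classical

/-- Polynomial functions. -/
def ClosPF {σ : Type} (f : (σ → ℝ) → ℝ) : Prop :=
  ∃ p : MvPolynomial σ ℝ, ∀ x, f x = MvPolynomial.eval x p

theorem closPF_var {σ : Type} (v : σ) : ClosPF fun x : σ → ℝ => x v :=
  ⟨MvPolynomial.X v, fun x => by simp⟩

theorem closPF_add {σ : Type} {f g : (σ → ℝ) → ℝ} (hf : ClosPF f) (hg : ClosPF g) :
    ClosPF fun x => f x + g x := by
  obtain ⟨p, hp⟩ := hf
  obtain ⟨q, hq⟩ := hg
  exact ⟨p + q, fun x => by simp [hp, hq]⟩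

theorem closPF_sub {σ : Type} {f g : (σ → ℝ) → ℝ} (hf : ClosPF f) (hg : ClosPF g) :
    ClosPF fun x => f x - g x := by
  obtain ⟨p, hp⟩ := hf
  obtain ⟨q, hq⟩ := hg
  exact ⟨p - q, fun x => by simp [hp, hq]⟩

theorem closPF_mul {σ : Type} {f g : (σ → ℝ) → ℝ} (hf : ClosPF f) (hg : ClosPF g) :
    ClosPF fun x => f x * g x := by
  obtain ⟨p, hp⟩ := hf
  obtain ⟨q, hq⟩ := hg
  exact ⟨p * q, fun x => by simp [hp, hq]⟩

theorem closPF_sum {σ J : Type} [Fintype J] {f : J → (σ → ℝ) → ℝ} (hf : ∀ j, ClosPF (f j)) :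
    ClosPF fun x => ∑ j, f j x := by
  choose p hp using hf
  exact ⟨∑ j, p j, fun x => by simp [hp]⟩

theorem clos_pos {σ : Type} {f : (σ → ℝ) → ℝ} (hf : ClosPF f) : SA fun x => 0 < f x := by
  obtain ⟨p, hp⟩ := hf
  refine ⟨{p}, fun x y h hx => ?_⟩
  have h1 := h p (Finset.mem_singleton_self p)
  rw [← hp, ← hp, sign_pos hx] at h1
  exact sign_eq_one_iff.1 h1.symm

theorem clos_congr {σ : Type} {P Q : (σ → ℝ) → Prop} (h : SA P) (e : ∀ x, P x ↔ Q x) : SA Q := by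
  obtain ⟨T, hT⟩ := h
  exact ⟨T, fun x y h hx => (e y).1 (hT x y h ((e x).2 hx))⟩

theorem clos_not {σ : Type} {P : (σ → ℝ) → Prop} (h : SA P) : SA fun x => ¬ P x := by
  obtain ⟨T, hT⟩ := h
  exact ⟨T, fun x y h hx hy => hx (hT y x (fun p hp => (h p hp).symm) hy)⟩

theorem clos_and {σ : Type} {P Q : (σ → ℝ) → Prop} (h : SA P) (h' : SA Q) :
    SA fun x => P x ∧ Q x := by
  obtain ⟨T, hT⟩ := h
  obtain ⟨T', hT'⟩ := h'
  exact ⟨T ∪ T', fun x y h hx =>
    ⟨hT x y (fun p hp => h p (Finset.mem_union_left _ hp)) hx.1,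
      hT' x y (fun p hp => h p (Finset.mem_union_right _ hp)) hx.2⟩⟩

theorem clos_all {σ J : Type} [Fintype J] {P : J → (σ → ℝ) → Prop} (h : ∀ j, SA (P j)) :
    SA fun x => ∀ j, P j x := by
  choose T hT using h
  exact ⟨Finset.univ.biUnion T, fun x y h hx j => hT j x y
    (fun p hp => h p (Finset.mem_biUnion.2 ⟨j, Finset.mem_univ j, hp⟩)) (hx j)⟩

/-- Coefficient variables. -/
abbrev ClosK (M : ℕ) : Type := Fin M × ((Fin 3 × Fin 3) ⊕ (Fin 3 ⊕ Unit))

/-- The quadric with the coefficients `c`. -/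
def closG {M : ℕ} (c : ClosK M → ℝ) (m : Fin M) (y : E) : ℝ :=
  ∑ i, ∑ j, c (m, Sum.inl (i, j)) * y i * y j + ∑ i, c (m, Sum.inr (Sum.inl i)) * y i +
    c (m, Sum.inr (Sum.inr ()))

/-- The positions of the three bound variables. -/
def closY {σ : Type} : Fin 3 → Option (Option (Option σ)) := ![some (some none), some none, none]

theorem clos_inner (M : ℕ) :
    SA fun w : Option (Option (Option (Option (ClosK M ⊕ Fin 3)))) → ℝ =>
      (∀ i, 0 < w (some (some (some none))) -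
          (w (some (some (some (some (Sum.inr i))))) - w (closY i)) ∧
        0 < w (some (some (some none))) +
          (w (some (some (some (some (Sum.inr i))))) - w (closY i))) ∧
      ∀ m, 0 < closG (fun k => w (some (some (some (some (Sum.inl k)))))) m
        fun i => w (closY i) := by
  refine clos_and (clos_all fun i => clos_and (clos_pos ?_) (clos_pos ?_))
    (clos_all fun m => clos_pos ?_)
  · exact closPF_sub (closPF_var _) (closPF_sub (closPF_var _) (closPF_var _))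
  · exact closPF_add (closPF_var _) (closPF_sub (closPF_var _) (closPF_var _))
  · unfold closG
    refine closPF_add (closPF_add (closPF_sum fun i => closPF_sum fun j => ?_)
      (closPF_sum fun i => ?_)) (closPF_var _)
    · exact closPF_mul (closPF_mul (closPF_var _) (closPF_var _)) (closPF_var _)
    · exact closPF_mul (closPF_var _) (closPF_var _)

theorem clos_mid (M : ℕ) :
    SA fun w : Option (ClosK M ⊕ Fin 3) → ℝ =>
      ∃ y : E, (∀ i, |w (some (Sum.inr i)) - y i| < w none) ∧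
        ∀ m, 0 < closG (fun k => w (some (Sum.inl k))) m y := by
  refine clos_congr (clos_inner M).exists_real.exists_real.exists_real fun w => ?_
  constructor
  · rintro ⟨y0, y1, y2, h1, h2⟩
    have e : ∀ i, (closY i : Option (Option (Option (Option (ClosK M ⊕ Fin 3))))).elim y2
        (fun o => o.elim y1 fun o => o.elim y0 w) = ![y0, y1, y2] i := by
      intro i
      fin_cases i <;> rfl
    refine ⟨![y0, y1, y2], fun i => ?_, fun m => ?_⟩
    · have := h1 i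
      simp only [e, Option.elim_some] at this
      rw [abs_lt]
      constructor <;> linarith [this.1, this.2]
    · have := h2 m
      simpa only [e, Option.elim_some] using this
  · rintro ⟨y, h1, h2⟩
    have e : ∀ i, (closY i : Option (Option (Option (Option (ClosK M ⊕ Fin 3))))).elim (y 2)
        (fun o => o.elim (y 1) fun o => o.elim (y 0) w) = y i := by
      intro i
      fin_cases i <;> rfl
    refine ⟨y 0, y 1, y 2, fun i => ?_, fun m => ?_⟩
    · have := h1 i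
      rw [abs_lt] at this
      simp only [e, Option.elim_some]
      constructor <;> linarith [this.1, this.2]
    · simpa only [e, Option.elim_some] using h2 m

theorem clos_outer (M : ℕ) :
    SA fun z : ClosK M ⊕ Fin 3 → ℝ =>
      (fun i => z (Sum.inr i)) ∈ closure {y : E | ∀ m, 0 < closG (fun k => z (Sum.inl k)) m y} := by
  have h0 : SA fun w : Option (ClosK M ⊕ Fin 3) → ℝ => 0 < w none := clos_pos (closPF_var _)
  refine clos_congr (clos_not (clos_and h0 (clos_not (clos_mid M))).exists_real) fun z => ?_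
  rw [Metric.mem_closure_iff]
  simp only [Option.elim_some, Option.elim_none, not_exists, not_and, not_forall, not_not,
    mem_ofPred_eq]
  constructor
  · intro h e he
    by_contra hc
    obtain ⟨y, hy⟩ := h e he
    refine hc ⟨y, hy.2, ?_⟩
    rw [dist_pi_lt_iff he]
    intro i
    rw [Real.dist_eq]
    exact hy.1 i
  · intro h e he
    obtain ⟨y, hy, hd⟩ := h e he
    rw [dist_pi_lt_iff he] at hd
    refine ⟨y, ?_⟩
    exact ⟨fun i => by simpa only [Real.dist_eq] using hd i, hy⟩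

theorem clos_deg {K : Type} (p : MvPolynomial (K ⊕ Fin 3) ℝ) : ∃ b : ℕ, ∀ c : K → ℝ,
    ∃ q : MvPolynomial (Fin 3) ℝ, q.totalDegree ≤ b ∧
      ∀ x, MvPolynomial.eval x q = MvPolynomial.eval (Sum.elim c x) p := by
  induction p using MvPolynomial.induction_on with
  | C a => exact ⟨0, fun _ => ⟨MvPolynomial.C a, by simp, fun x => by simp⟩⟩
  | add p q hp hq =>
    obtain ⟨b, hb⟩ := hp
    obtain ⟨b', hb'⟩ := hq
    refine ⟨max b b', fun c => ?_⟩
    obtain ⟨u, u1, u2⟩ := hb c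
    obtain ⟨v, v1, v2⟩ := hb' c
    exact ⟨u + v, (MvPolynomial.totalDegree_add u v).trans (max_le_max u1 v1),
      fun x => by simp [u2, v2]⟩
  | mul_X p v hp =>
    obtain ⟨b, hb⟩ := hp
    refine ⟨b + 1, fun c => ?_⟩
    obtain ⟨u, u1, u2⟩ := hb c
    rcases v with k | i
    · refine ⟨u * MvPolynomial.C (c k), (MvPolynomial.totalDegree_mul _ _).trans ?_,
        fun x => by simp [u2]⟩
      rw [MvPolynomial.totalDegree_C]
      omega
    · refine ⟨u * MvPolynomial.X i, (MvPolynomial.totalDegree_mul _ _).trans ?_,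
        fun x => by simp [u2]⟩
      rw [MvPolynomial.totalDegree_X]
      omega

theorem clos_cx {K : Type} {P : (K ⊕ Fin 3 → ℝ) → Prop} (h : SA P) :
    ∃ s b : ℕ, ∀ c : K → ℝ, Cx s b {x | P (Sum.elim c x)} := by
  obtain ⟨T, hT⟩ := h
  choose b hb using fun p : MvPolynomial (K ⊕ Fin 3) ℝ => clos_deg p
  refine ⟨T.card, T.sup b, fun c => ?_⟩
  choose q q1 q2 using fun p => hb p c
  refine ⟨fun i => q (T.equivFin.symm i),
    {φ | ∃ x, P (Sum.elim c x) ∧
      φ = fun i => SignType.sign (MvPolynomial.eval x (q (T.equivFin.symm i)))},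
    fun i => (q1 _).trans (Finset.le_sup (T.equivFin.symm i).2), ?_⟩
  ext x
  simp only [mem_ofPred_eq]
  refine ⟨fun hx => ⟨x, hx, rfl⟩, ?_⟩
  rintro ⟨y, hy, e⟩
  refine hT _ _ (fun p hp => ?_) hy
  have := congrFun e (T.equivFin ⟨p, hp⟩)
  simp only [Equiv.symm_apply_apply, q2] at this
  exact this.symm

theorem closure_cx (M : ℕ) : ∃ s b : ℕ, ∀ T : Finset (E → ℝ), T.card ≤ M → (∀ g ∈ T, Quad g) →
    Cx s b (closure {x | ∀ g ∈ T, 0 < g x}) := by
  obtain ⟨s, b, h⟩ := clos_cx (clos_outer M)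
  refine ⟨s, b, fun T hT hQ => ?_⟩
  have h1 : Quad fun _ => 1 := ⟨0, 0, 1, fun x => by simp⟩
  let g : Fin M → E → ℝ := fun m =>
    if hm : (m : ℕ) < T.card then (T.equivFin.symm ⟨m, hm⟩ : E → ℝ) else fun _ => 1
  have hg : ∀ m, Quad (g m) := by
    intro m
    by_cases hm : (m : ℕ) < T.card
    · simp only [g, dif_pos hm]
      exact hQ _ (T.equivFin.symm ⟨m, hm⟩).2
    · simp only [g, dif_neg hm]
      exact h1
  choose q l c0 hq using hg
  let c : ClosK M → ℝ := fun k =>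
    Sum.elim (fun ij => q k.1 ij.1 ij.2) (Sum.elim (l k.1) fun _ => c0 k.1) k.2
  have hc : ∀ m y, closG c m y = g m y := fun m y => (hq m y).symm
  have e : {x : E | ∀ g ∈ T, 0 < g x} = {y : E | ∀ m, 0 < closG c m y} := by
    ext y
    simp only [mem_ofPred_eq, hc]
    constructor
    · intro h m
      by_cases hm : (m : ℕ) < T.card
      · simp only [g, dif_pos hm]
        exact h _ (T.equivFin.symm ⟨m, hm⟩).2
      · simp only [g, dif_neg hm]
        exact one_pos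
    · intro h f hf
      have hm := (T.equivFin ⟨f, hf⟩).2
      have := h ⟨T.equivFin ⟨f, hf⟩, hm.trans_le hT⟩
      simpa only [g, dif_pos hm, Fin.eta, Equiv.symm_apply_apply] using this
  rw [e]
  exact h c

end Pool.Agent.Cyl
end

-- part Pool.Agent.P.MP_8a0bcd_co.Fin
section

/-! From a polyhedral partition to a decomposition. -/

set_option autoImplicit false

namespace Pool.Agent.Cyl

open Set
open scoped Classical

theorem Cx.mono {s s' b b' : ℕ} {S : Set E} (h : Cx s b S) (hs : s ≤ s') (hb : b ≤ b') :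
    Cx s' b' S := by
  obtain ⟨p, Φ, hp, rfl⟩ := h
  refine ⟨fun i => if h : i.1 < s then p ⟨i.1, h⟩ else 0,
    {v | (fun i : Fin s => v (Fin.castLE hs i)) ∈ Φ}, fun i => ?_, ?_⟩
  · by_cases h : i.1 < s
    · simp only [dif_pos h]
      exact (hp _).trans hb
    · simp [dif_neg h]
  · ext x
    simp

theorem quad_const (c : ℝ) : Quad fun _ => c := by
  exact ⟨0, 0, c, fun x => by simp⟩

theorem fin_lin (l : Fn) : ∃ u : Fin 3 → ℝ, ∀ x, l x = ∑ i, u i * x i :=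
  ⟨fun i => l fun j => if i = j then 1 else 0, fun x => by
    rw [LinearMap.pi_apply_eq_sum_univ l x]
    exact Finset.sum_congr rfl fun i _ => by rw [smul_eq_mul, mul_comm]⟩

theorem quad_half (l : Fn) (c : ℝ) : Quad fun x => l x - c := by
  obtain ⟨u, hu⟩ := fin_lin l
  exact ⟨0, u, -c, fun x => by simp [hu, sub_eq_add_neg]⟩

theorem quad_disc (α β : Fn) (a : E) : Quad fun x => α (x - a) ^ 2 + β (x - a) ^ 2 - 1 := by
  obtain ⟨u, hu⟩ := fin_lin α
  obtain ⟨v, hv⟩ := fin_lin β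
  refine ⟨fun i j => u i * u j + v i * v j, fun i => -2 * α a * u i - 2 * β a * v i,
    α a ^ 2 + β a ^ 2 - 1, fun x => ?_⟩
  simp only [map_sub]
  rw [hu x, hv x]
  simp only [Fin.sum_univ_three]
  ring

/-- If on every class the open set `X` is cut out by few quadrics, the closures of the traces of
the classes on `X` form a decomposition. -/
theorem decomp_of_lab (m c : ℕ) : ∃ s₀ b₀ : ℕ, ∀ s, s₀ ≤ s → ∀ b, b₀ ≤ b →
    ∀ (X : Set E) (L : Lab), IsOpen X → L.PolyB m →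
      (∀ x ∈ L.G, ∃ T : Finset (E → ℝ), T.card ≤ c ∧ (∀ g ∈ T, Quad g) ∧
        ∀ y ∈ L.cls x, (y ∈ X ↔ ∀ g ∈ T, 0 < g y)) →
      Decomp s b (L.cl univ).card X := by
  obtain ⟨s₀, b₀, H⟩ := closure_cx (m + c)
  refine ⟨s₀, b₀, fun s hs b hb X L hX hm hc => ?_⟩
  let e := (L.cl univ).equivFin
  have rep : ∀ j, ∃ x ∈ L.G, L.cls x = (e.symm j).1 := fun j => by
    obtain ⟨x, -, h⟩ := Lab.mem_cl.1 (e.symm j).2
    exact ⟨x, h⟩
  have op : ∀ j, IsOpen ((e.symm j).1 ∩ X) := fun j => by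
    obtain ⟨x, h1, h2⟩ := rep j
    exact (h2 ▸ L.isOpen h1).inter hX
  refine ⟨fun j => closure ((e.symm j).1 ∩ X), fun j => ?_, fun j j' hne => ?_,
    fun j => closure_mono inter_subset_right, ?_⟩
  · obtain ⟨x, h1, h2⟩ := rep j
    obtain ⟨T, hT, hq, hy⟩ := hc x h1
    obtain ⟨P, hP, hcl⟩ := hm x h1
    have := H ((P.image fun h => fun y => h.1 y - h.2) ∪ T)
      ((Finset.card_union_le _ _).trans (add_le_add (Finset.card_image_le.trans hP) hT)) (by
        intro g hg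
        rcases Finset.mem_union.1 hg with hg | hg
        · obtain ⟨h, -, rfl⟩ := Finset.mem_image.1 hg
          exact quad_half _ _
        · exact hq g hg)
    refine Cx.mono ?_ hs hb
    have heq : (e.symm j).1 ∩ X =
        {y | ∀ g ∈ (P.image fun h => fun y => h.1 y - h.2) ∪ T, 0 < g y} := by
      rw [← h2]
      ext y
      have h3 : y ∈ L.cls x ↔ ∀ g ∈ (P.image fun h => fun y => h.1 y - h.2), 0 < g y := by
        rw [hcl]
        simp only [mem_ofPred_eq, Finset.forall_mem_image, sub_pos]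
      simp only [mem_inter_iff, mem_ofPred_eq, Finset.mem_union, or_imp, forall_and]
      rw [← h3]
      exact and_congr_right fun h => hy y h
    simp only [heq]
    exact this
  · obtain ⟨x, h1, h2⟩ := rep j
    obtain ⟨x', h1', h2'⟩ := rep j'
    have hd : Disjoint ((e.symm j).1 ∩ X) ((e.symm j').1 ∩ X) := by
      refine Disjoint.mono inter_subset_left inter_subset_left ?_
      rw [← h2, ← h2']
      refine L.disjoint h1 h1' fun h => hne (e.symm.injective (Subtype.ext ?_))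
      rw [← h2, ← h2', h]
    have h3 := (hd.closure_left (op j')).mono_left interior_subset
    exact (h3.closure_right isOpen_interior).mono_right interior_subset
  · rw [← closure_iUnion_of_finite]
    refine Subset.antisymm (closure_mono (iUnion_subset fun j => inter_subset_right)) ?_
    refine closure_minimal ?_ isClosed_closure
    have hd : Dense L.G := by simpa using L.thin.dense
    refine (hd.open_subset_closure_inter hX).trans (closure_mono fun y hy => ?_)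
    refine mem_iUnion.2 ⟨e ⟨L.cls y, Lab.cls_mem_cl (mem_univ _) hy.2⟩, ?_, hy.1⟩
    rw [Equiv.symm_apply_apply]
    exact L.mem y hy.2

theorem fin_cyl_sub {a u v : E} {r : ℝ} (h : u ∈ Submodule.span ℝ {v}) :
    cyl a u r ⊆ cyl a v r := by
  obtain ⟨s, rfl⟩ := Submodule.mem_span_singleton.1 h
  rintro x ⟨t, ht⟩
  refine ⟨t * s, ?_⟩
  simpa only [Pi.smul_apply, smul_eq_mul, mul_assoc] using ht

/-- Parallel directions are replaced by one representative. -/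
theorem norm_dirs {c n : ℕ} (F : Family c n) : ∃ (m : ℕ) (dir : Fin m → E) (f : Fin n → Fin m),
    m ≤ c ∧ (∀ i, dir i ≠ 0) ∧ (∀ i j, i ≠ j → ∀ t : ℝ, dir i ≠ t • dir j) ∧
      ∀ k, cyl (F.a k) (F.d k) F.r = cyl (F.a k) (dir (f k)) F.r := by
  let D : Finset (Submodule ℝ E) := (Finset.univ.image F.d).image fun v => Submodule.span ℝ {v}
  have mem : ∀ k, Submodule.span ℝ {F.d k} ∈ D := fun k =>
    Finset.mem_image_of_mem _ (Finset.mem_image_of_mem _ (Finset.mem_univ k))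
  let e := D.equivFin
  have rep : ∀ i, ∃ k, Submodule.span ℝ {F.d k} = (e.symm i).1 := fun i => by
    obtain ⟨v, hv, h⟩ := Finset.mem_image.1 (e.symm i).2
    obtain ⟨k, -, rfl⟩ := Finset.mem_image.1 hv
    exact ⟨k, h⟩
  choose g hg using rep
  refine ⟨D.card, fun i => F.d (g i), fun k => e ⟨_, mem k⟩, ?_, fun i => F.d_ne _,
    fun i j hne t ht => ?_, fun k => ?_⟩
  · refine Finset.card_image_le.trans (le_trans (le_of_eq ?_) F.few)
    rw [← Set.ncard_coe_finset, Finset.coe_image, Finset.coe_univ, image_univ]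
  · have ht0 : t ≠ 0 := by
      rintro rfl
      exact F.d_ne _ (by simpa using ht)
    refine hne (e.symm.injective (Subtype.ext ?_))
    have ht' : F.d (g i) = t • F.d (g j) := ht
    rw [← hg, ← hg, ht', Submodule.span_singleton_smul_eq (IsUnit.mk0 t ht0)]
  · have h := hg (e ⟨_, mem k⟩)
    rw [Equiv.symm_apply_apply] at h
    have h' : Submodule.span ℝ {F.d (g (e ⟨_, mem k⟩))} = Submodule.span ℝ {F.d k} := h
    refine Subset.antisymm (fin_cyl_sub ?_) (fin_cyl_sub ?_)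
    · rw [h']; exact Submodule.mem_span_singleton_self _
    · rw [← h']; exact Submodule.mem_span_singleton_self _

end Pool.Agent.Cyl
end

-- part Pool.Agent.P.MP_8a0bcd_co.Env
section

/-! Envelopes of unit circles. -/

set_option autoImplicit false

namespace Pool.Agent.Cyl

open Set
open scoped Classical

theorem env_conc {a b c d : ℝ} (ha : |a| ≤ 1) (hd : |d| ≤ 1) (h1 : a ≤ b) (h2 : b ≤ d)
    (hs : a + d = b + c) :
    √(1 - a ^ 2) + √(1 - d ^ 2) ≤ √(1 - b ^ 2) + √(1 - c ^ 2) := by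
  obtain ⟨a1, a2⟩ := abs_le.1 ha
  obtain ⟨d1, d2⟩ := abs_le.1 hd
  have hc : c = a + d - b := by linarith
  have hp : a * d ≤ b * c := by rw [hc]; nlinarith [mul_nonneg (sub_nonneg.2 h1) (sub_nonneg.2 h2)]
  have A0 : 0 ≤ 1 - a ^ 2 := by nlinarith
  have D0 : 0 ≤ 1 - d ^ 2 := by nlinarith
  have B0 : 0 ≤ 1 - b ^ 2 := by nlinarith
  have C0 : 0 ≤ 1 - c ^ 2 := by rw [hc]; nlinarith
  have hsum : (1 - a ^ 2) + (1 - d ^ 2) ≤ (1 - b ^ 2) + (1 - c ^ 2) := by
    have : (a + d) ^ 2 = (b + c) ^ 2 := by rw [hs]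
    nlinarith
  have hprod : (1 - a ^ 2) * (1 - d ^ 2) ≤ (1 - b ^ 2) * (1 - c ^ 2) := by
    have e1 : (1 - a ^ 2) * (1 - d ^ 2) = (1 - (a + d) + a * d) * (1 + (a + d) + a * d) := by ring
    have e2 : (1 - b ^ 2) * (1 - c ^ 2) = (1 - (b + c) + b * c) * (1 + (b + c) + b * c) := by ring
    have p1 : 0 ≤ 1 - (a + d) + a * d := by nlinarith [mul_nonneg (sub_nonneg.2 a2) (sub_nonneg.2 d2)]
    have p2 : 0 ≤ 1 + (a + d) + a * d := by
      nlinarith [mul_nonneg (show 0 ≤ a + 1 by linarith) (show 0 ≤ d + 1 by linarith)]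
    rw [e1, e2, ← hs]
    exact mul_le_mul (by linarith) (by linarith) p2 (by linarith)
  have hq : √(1 - a ^ 2) * √(1 - d ^ 2) ≤ √(1 - b ^ 2) * √(1 - c ^ 2) := by
    rw [← Real.sqrt_mul A0, ← Real.sqrt_mul B0]
    exact Real.sqrt_le_sqrt hprod
  refine abs_le_of_sq_le_sq' ?_ (by positivity) |>.2
  have s1 := Real.sq_sqrt A0
  have s2 := Real.sq_sqrt B0
  have s3 := Real.sq_sqrt C0
  have s4 := Real.sq_sqrt D0
  nlinarith

theorem env_core {κ : Type} (J : Finset κ) (p c : κ → ℝ) :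
    ∃ Θ : Finset ℝ, Θ.card ≤ 2 * J.card ∧ ∀ t, (∀ k ∈ J, |t - p k| ≤ 1) → t ∉ Θ →
      ∃ J' ⊆ J, J'.card ≤ 1 ∧ ∀ s, (∀ k ∈ J, |s - p k| ≤ 1) →
        (∀ θ ∈ Θ, (θ < t → θ < s) ∧ (t < θ → s < θ)) →
        ∀ k ∈ J, ∃ k' ∈ J', c k + √(1 - (s - p k) ^ 2) ≤ c k' + √(1 - (s - p k') ^ 2) := by
  set f : κ → ℝ → ℝ := fun k t => c k + √(1 - (t - p k) ^ 2) with hf
  set T : κ → Set ℝ := fun k => {t | (∀ j ∈ J, |t - p j| ≤ 1) ∧ ∀ j ∈ J, f j t ≤ f k t} with hT
  refine ⟨J.image (fun k => sInf (T k)) ∪ J.image (fun k => sSup (T k)), ?_, ?_⟩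
  · refine (Finset.card_union_le _ _).trans ?_
    have := Finset.card_image_le (s := J) (f := fun k => sInf (T k))
    have := Finset.card_image_le (s := J) (f := fun k => sSup (T k))
    omega
  intro t ht hΘ
  rcases J.eq_empty_or_nonempty with hJ | hJ
  · exact ⟨∅, Finset.empty_subset _, by simp, fun s _ _ k hk => by simp [hJ] at hk⟩
  obtain ⟨k, hk, hmax⟩ := J.exists_max_image (fun j => f j t) hJ
  have htT : t ∈ T k := ⟨ht, hmax⟩
  have hb : BddBelow (T k) := ⟨p k - 1, fun u hu => by linarith [(abs_le.1 (hu.1 k hk)).1]⟩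
  have ha : BddAbove (T k) := ⟨p k + 1, fun u hu => by linarith [(abs_le.1 (hu.1 k hk)).2]⟩
  have m1 : sInf (T k) ∈ J.image (fun k => sInf (T k)) ∪ J.image (fun k => sSup (T k)) :=
    Finset.mem_union_left _ (Finset.mem_image_of_mem _ hk)
  have m2 : sSup (T k) ∈ J.image (fun k => sInf (T k)) ∪ J.image (fun k => sSup (T k)) :=
    Finset.mem_union_right _ (Finset.mem_image_of_mem _ hk)
  have l1 : sInf (T k) < t := (csInf_le hb htT).lt_of_ne fun e => hΘ (e ▸ m1)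
  have l2 : t < sSup (T k) := (le_csSup ha htT).lt_of_ne fun e => hΘ (e ▸ m2)
  refine ⟨{k}, by simpa using hk, by simp, fun s hs hsl j hj => ⟨k, by simp, ?_⟩⟩
  obtain ⟨u, hu, hus⟩ := exists_lt_of_csInf_lt ⟨t, htT⟩ ((hsl _ m1).1 l1)
  obtain ⟨v, hv, hsv⟩ := exists_lt_of_lt_csSup ⟨t, htT⟩ ((hsl _ m2).2 l2)
  rcases le_total (p j) (p k) with h | h
  · have h1 : c j + √(1 - (u - p j) ^ 2) ≤ c k + √(1 - (u - p k) ^ 2) := hu.2 j hj
    have h2 := env_conc (a := u - p k) (b := s - p k) (c := u - p j) (d := s - p j)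
      (hu.1 k hk) (hs j hj) (by linarith) (by linarith) (by ring)
    linarith
  · have h1 : c j + √(1 - (v - p j) ^ 2) ≤ c k + √(1 - (v - p k) ^ 2) := hv.2 j hj
    have h2 := env_conc (a := s - p j) (b := s - p k) (c := v - p j) (d := v - p k)
      (hs j hj) (hv.1 k hk) (by linarith) (by linarith) (by ring)
    linarith

theorem env_one {κ : Type} (τ σ : Fn) (J : Finset κ) (a : κ → E) (R : Set E)
    (h : ∀ k ∈ J, (∀ y ∈ R, |τ (y - a k)| ≤ 1) ∧ ∀ y ∈ R, 0 ≤ σ (y - a k)) :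
    ∃ Θ : Finset ℝ, Θ.card ≤ 2 * J.card ∧ ∀ x ∈ R, τ x ∉ Θ → ∃ J' ⊆ J, J'.card ≤ 1 ∧
      ∀ y ∈ R, y ∈ slab τ Θ x → ∀ k ∈ J, y ∈ disc τ σ (a k) → ∃ k' ∈ J', y ∈ disc τ σ (a k') := by
  obtain ⟨Θ, hc, H⟩ := env_core J (fun k => τ (a k)) (fun k => σ (a k))
  refine ⟨Θ, hc, fun x hx hΘ => ?_⟩
  have hI : ∀ y ∈ R, ∀ k ∈ J, |τ y - τ (a k)| ≤ 1 := fun y hy k hk => by
    simpa only [map_sub] using (h k hk).1 y hy
  obtain ⟨J', hJ, h1, H'⟩ := H (τ x) (hI x hx) hΘ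
  refine ⟨J', hJ, h1, fun y hy hs k hk hd => ?_⟩
  obtain ⟨k', hk', hle⟩ := H' (τ y) (hI y hy) hs k hk
  refine ⟨k', hk', ?_⟩
  have d1 : (τ y - τ (a k)) ^ 2 + (σ y - σ (a k)) ^ 2 ≤ 1 := by
    simpa only [disc, mem_ofPred_eq, map_sub] using hd
  have d2 : σ y - σ (a k) ≤ √(1 - (τ y - τ (a k)) ^ 2) := Real.le_sqrt_of_sq_le (by linarith)
  have p1 : 0 ≤ σ y - σ (a k') := by simpa only [map_sub] using (h k' (hJ hk')).2 y hy
  have d3 : σ y - σ (a k') ≤ √(1 - (τ y - τ (a k')) ^ 2) := by linarith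
  have n0 : 0 ≤ 1 - (τ y - τ (a k')) ^ 2 := by
    have := abs_le.1 (hI y hy k' (hJ hk'))
    nlinarith
  have d4 := (Real.le_sqrt p1 n0).1 d3
  show τ (y - a k') ^ 2 + σ (y - a k') ^ 2 ≤ 1
  rw [map_sub, map_sub]
  linarith

theorem env_two {κ : Type} (τ σ : Fn) (J : Finset κ) (a : κ → E) (R : Set E)
    (h : ∀ k ∈ J, (∀ y ∈ R, |τ (y - a k)| ≤ 1) ∧
      ((∀ y ∈ R, 0 ≤ σ (y - a k)) ∨ ∀ y ∈ R, σ (y - a k) ≤ 0)) :
    ∃ Θ : Finset ℝ, Θ.card ≤ 2 * J.card ∧ ∀ x ∈ R, τ x ∉ Θ → ∃ J' ⊆ J, J'.card ≤ 2 ∧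
      ∀ y ∈ R, y ∈ slab τ Θ x → ∀ k ∈ J, y ∈ disc τ σ (a k) → ∃ k' ∈ J', y ∈ disc τ σ (a k') := by
  set P : κ → Prop := fun k => ∀ y ∈ R, 0 ≤ σ (y - a k) with hP
  obtain ⟨Θ1, c1, H1⟩ := env_one τ σ (J.filter P) a R fun k hk =>
    ⟨(h k (Finset.mem_filter.1 hk).1).1, (Finset.mem_filter.1 hk).2⟩
  obtain ⟨Θ2, c2, H2⟩ := env_one τ (-σ) (J.filter fun k => ¬ P k) a R fun k hk =>
    ⟨(h k (Finset.mem_filter.1 hk).1).1, fun y hy => by
      have := ((h k (Finset.mem_filter.1 hk).1).2.resolve_left (Finset.mem_filter.1 hk).2) y hy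
      simpa using this⟩
  have hd : ∀ b : E, disc τ (-σ) b = disc τ σ b := fun b => by
    ext y
    simp only [disc, mem_ofPred_eq, LinearMap.neg_apply, neg_sq]
  refine ⟨Θ1 ∪ Θ2, ?_, fun x hx hΘ => ?_⟩
  · have := Finset.card_union_le Θ1 Θ2
    have := Finset.card_filter_add_card_filter_not (s := J) P
    omega
  obtain ⟨J1, s1, k1, G1⟩ := H1 x hx fun e => hΘ (Finset.mem_union_left _ e)
  obtain ⟨J2, s2, k2, G2⟩ := H2 x hx fun e => hΘ (Finset.mem_union_right _ e)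
  refine ⟨J1 ∪ J2, Finset.union_subset (s1.trans (Finset.filter_subset _ _))
    (s2.trans (Finset.filter_subset _ _)), ?_, fun y hy hs k hk hy' => ?_⟩
  · have := Finset.card_union_le J1 J2
    omega
  by_cases hk' : P k
  · obtain ⟨k', m, e⟩ := G1 y hy (fun θ hθ => hs θ (Finset.mem_union_left _ hθ)) k
      (Finset.mem_filter.2 ⟨hk, hk'⟩) hy'
    exact ⟨k', Finset.mem_union_left _ m, e⟩
  · obtain ⟨k', m, e⟩ := G2 y hy (fun θ hθ => hs θ (Finset.mem_union_right _ hθ)) k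
      (Finset.mem_filter.2 ⟨hk, hk'⟩) (hd _ ▸ hy')
    exact ⟨k', Finset.mem_union_right _ m, hd _ ▸ e⟩

end Pool.Agent.Cyl
end

-- part Pool.Agent.P.MP_8a0bcd_co.Grid2
section

/-! The grid partition of the plane. -/

set_option autoImplicit false

namespace Pool.Agent.Cyl

open Set
open scoped Classical

/-- The multiples of `δ` within distance two of `c`. -/
noncomputable def grid2_grid (δ c : ℝ) : Finset ℝ :=
  (Finset.Icc ⌈(c - 2) / δ⌉ ⌊(c + 2) / δ⌋).image fun m : ℤ => δ * m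

theorem grid2_mem {δ c θ : ℝ} (hδ : 0 < δ) :
    θ ∈ grid2_grid δ c ↔ (∃ m : ℤ, θ = δ * m) ∧ |θ - c| ≤ 2 := by
  simp only [grid2_grid, Finset.mem_image, Finset.mem_Icc, Int.ceil_le, Int.le_floor,
    div_le_iff₀ hδ, le_div_iff₀ hδ, abs_le]
  constructor
  · rintro ⟨m, ⟨h1, h2⟩, rfl⟩
    exact ⟨⟨m, rfl⟩, by linarith, by linarith⟩
  · rintro ⟨⟨m, rfl⟩, h1, h2⟩
    exact ⟨m, ⟨by linarith, by linarith⟩, rfl⟩

theorem grid2_card {δ : ℝ} (c : ℝ) : (grid2_grid δ c).card ≤ ⌈4 / δ⌉₊ + 1 := by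
  refine Finset.card_image_le.trans ?_
  rw [Int.card_Icc, Int.toNat_le]
  have h1 := Int.le_ceil ((c - 2) / δ)
  have h2 := Int.floor_le ((c + 2) / δ)
  have h3 := Nat.le_ceil (4 / δ)
  have h4 : (c + 2) / δ = (c - 2) / δ + 4 / δ := by ring
  have : ((⌊(c + 2) / δ⌋ + 1 - ⌈(c - 2) / δ⌉ : ℤ) : ℝ) ≤ ((⌈4 / δ⌉₊ + 1 : ℕ) : ℤ) := by
    push_cast; linarith
  exact_mod_cast this

theorem grid2_fact {δ c : ℝ} (hδ : 0 < δ) (hδ1 : δ ≤ 1) {l : Fn} {Θ : Finset ℝ} {y0 : E}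
    (hΘ : grid2_grid δ c ⊆ Θ) (h0 : l y0 ∉ Θ) (h1 : |l y0 - c| ≤ 1) :
    (∀ y ∈ slab l Θ y0, |l y - c| ≤ 3) ∧
      ∀ y ∈ slab l Θ y0, ∀ y' ∈ slab l Θ y0, |l (y - y')| ≤ δ := by
  have a1 : δ * ⌊l y0 / δ⌋ ≤ l y0 := by
    rw [mul_comm, ← le_div_iff₀ hδ]; exact Int.floor_le _
  have a2 : l y0 < δ * (⌊l y0 / δ⌋ + 1 : ℤ) := by
    rw [mul_comm, ← div_lt_iff₀ hδ]; push_cast; exact Int.lt_floor_add_one _
  generalize ⌊l y0 / δ⌋ = m at a1 a2
  have a3 : δ * (m + 1 : ℤ) = δ * m + δ := by push_cast; ring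
  rw [abs_le] at h1
  have m1 : δ * m ∈ Θ := hΘ ((grid2_mem hδ).2 ⟨⟨m, rfl⟩, abs_le.2 ⟨by linarith, by linarith⟩⟩)
  have m2 : δ * (m + 1 : ℤ) ∈ Θ :=
    hΘ ((grid2_mem hδ).2 ⟨⟨m + 1, rfl⟩, abs_le.2 ⟨by linarith, by linarith⟩⟩)
  have a4 : δ * m < l y0 := a1.lt_of_ne fun e => h0 (e ▸ m1)
  have key : ∀ y ∈ slab l Θ y0, δ * m < l y ∧ l y < δ * m + δ := fun y hy =>
    ⟨(hy _ m1).1 a4, a3 ▸ (hy _ m2).2 a2⟩
  refine ⟨fun y hy => ?_, fun y hy y' hy' => ?_⟩
  · have := key y hy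
    exact abs_le.2 ⟨by linarith, by linarith⟩
  · have := key y hy
    have := key y' hy'
    rw [map_sub]
    exact abs_le.2 ⟨by linarith, by linarith⟩

theorem grid2_lab {δ : ℝ} (hδ : 0 < δ) {l : Fn} {Θ : Finset ℝ}
    (hΘ : ∀ θ ∈ Θ, ∃ m : ℤ, θ = δ * m) {x y : E} (h : ⌊l x / δ⌋ = ⌊l y / δ⌋) :
    lab l Θ x = lab l Θ y := by
  refine Finset.filter_congr fun θ hθ => ?_
  obtain ⟨m, rfl⟩ := hΘ θ hθ
  rw [mul_comm, ← le_div_iff₀ hδ, ← le_div_iff₀ hδ, ← Int.le_floor, ← Int.le_floor, h]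

theorem grid2_floor {δ l s t : ℝ} (hδ : 0 < δ) (h : |s - t| ≤ l) :
    ⌊s / δ⌋ ∈ Finset.Icc (⌊t / δ⌋ - (⌈l / δ⌉₊ : ℕ)) (⌊t / δ⌋ + (⌈l / δ⌉₊ : ℕ)) := by
  have h3 := Nat.le_ceil (l / δ)
  rw [abs_le] at h
  have h1 : s / δ ≤ t / δ + l / δ := by rw [← add_div]; gcongr; linarith
  have h2 : t / δ - l / δ ≤ s / δ := by rw [← sub_div]; gcongr; linarith
  rw [Finset.mem_Icc, ← Int.floor_sub_natCast, ← Int.floor_add_natCast]
  exact ⟨Int.floor_mono (by linarith), Int.floor_mono (by linarith)⟩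

theorem grid2_disc {α β : Fn} {a y : E} (h : y ∈ disc α β a) :
    |α y - α a| ≤ 1 ∧ |β y - β a| ≤ 1 := by
  have h' : α (y - a) ^ 2 + β (y - a) ^ 2 ≤ 1 := h
  rw [map_sub, map_sub] at h'
  constructor <;> rw [← sq_le_one_iff_abs_le_one] <;> nlinarith [sq_nonneg (α y - α a), sq_nonneg (β y - β a)]

theorem exists_col (δ l : ℝ) (hδ : 0 < δ) (hδ1 : δ ≤ 1) : ∃ C : ℕ, ∀ (κ : Type) (α β : Fn)
    (K : Finset κ) (a : κ → E), Onto α β → ∃ P : Col α β K a l 4 C, ∀ x ∈ P.L.G,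
      (Small α β δ (P.L.cls x) ∧ ∃ k ∈ K, P.L.cls x ⊆ tube α β (a k) 3) ∨
        ∀ y ∈ P.L.cls x, ∀ k ∈ K, y ∉ disc α β (a k) := by
  refine ⟨⌈4 / δ⌉₊ + 1 + (2 * ⌈l / δ⌉₊ + 1) ^ 2, fun κ α β K a hO => ?_⟩
  obtain ⟨z, hz1, hz2⟩ := hO 1 1
  have hα : α ≠ 0 := fun e => by simp [e] at hz1
  have hβ : β ≠ 0 := fun e => by simp [e] at hz2
  let Θ : Finset ℝ := K.biUnion fun k => grid2_grid δ (α (a k))
  let L0 : Lab := Lab.triv.refine (J := Unit) (fun _ _ => α) (fun _ _ => Θ) fun _ _ _ => hα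
  let Θ' : Set E → Finset ℝ := fun R =>
    (K.filter fun k => ∃ y ∈ R, |α y - α (a k)| ≤ 1).biUnion fun k => grid2_grid δ (β (a k))
  let L : Lab := L0.refine (J := Unit) (fun _ _ => β) (fun R _ => Θ' R) fun _ _ _ => hβ
  have g0 : ∀ x, x ∈ L0.G ↔ α x ∉ Θ := fun x => by
    simp [L0, Lab.mem_refine, Lab.triv]
  have c0 : ∀ x, L0.cls x = slab α Θ x := fun x => by
    simp [L0, Lab.refine_cls, Lab.triv, iInter_const]
  have g1 : ∀ x, x ∈ L.G ↔ x ∈ L0.G ∧ β x ∉ Θ' (L0.cls x) := fun x => by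
    simp [L, Lab.mem_refine]
  have c1 : ∀ x, L.cls x = L0.cls x ∩ slab β (Θ' (L0.cls x)) x := fun x => by
    simp [L, Lab.refine_cls, iInter_const]
  have sub0 : ∀ k ∈ K, grid2_grid δ (α (a k)) ⊆ Θ := fun k hk =>
    Finset.subset_biUnion_of_mem (fun k => grid2_grid δ (α (a k))) hk
  have z0 : ∀ θ ∈ Θ, ∃ m : ℤ, θ = δ * m := fun θ hθ =>
    let ⟨_, _, h⟩ := Finset.mem_biUnion.1 hθ
    ((grid2_mem hδ).1 h).1
  have z1 : ∀ R, ∀ θ ∈ Θ' R, ∃ m : ℤ, θ = δ * m := fun R θ hθ =>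
    let ⟨_, _, h⟩ := Finset.mem_biUnion.1 hθ
    ((grid2_mem hδ).1 h).1
  refine ⟨⟨L, Θ, ?_, ?_, ?_, fun x hx => (g0 x).1 ((g1 x).1 hx).1, ?_, ?_⟩, ?_⟩
  · exact Lab.refine_poly _ _ _ _ (Lab.refine_poly _ _ _ _ Lab.triv_poly)
  · refine (Finset.card_biUnion_le_card_mul _ _ _ fun k _ => grid2_card _).trans ?_
    rw [mul_comm]
    exact Nat.mul_le_mul_right _ (Nat.le_add_right _ _)
  · intro θ hθ
    obtain ⟨k, hk, h⟩ := Finset.mem_biUnion.1 hθ
    exact ⟨k, hk, ((grid2_mem hδ).1 h).2.trans (by norm_num)⟩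
  · intro x hx
    by_cases h0 : α x ∈ Θ
    · exact Or.inl h0
    right
    have hx0 := (g0 x).2 h0
    have h1 : β x ∈ Θ' (L0.cls x) := by
      by_contra h
      exact hx ((g1 x).2 ⟨hx0, h⟩)
    obtain ⟨k, hk, h⟩ := Finset.mem_biUnion.1 h1
    obtain ⟨hk, y, hy, hy1⟩ := Finset.mem_filter.1 hk
    have hy0 := L0.sub x hx0 hy
    have hxy : x ∈ slab α Θ y := by rw [← c0, L0.eq x hx0 y hy]; exact L0.mem x hx0
    refine ⟨k, hk, ?_, ?_⟩ <;> rw [map_sub]
    · exact (grid2_fact hδ hδ1 (sub0 k hk) ((g0 y).1 hy0) hy1).1 x hxy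
    · exact ((grid2_mem hδ).1 h).2.trans (by norm_num)
  · intro S hS
    rcases S.eq_empty_or_nonempty with rfl | ⟨x0, hx0⟩
    · have : L.cl ∅ = ∅ := by ext R; simp [Lab.mem_cl]
      simp [this]
    refine (L.card_cl_le S (fun x => (⌊α x / δ⌋, ⌊β x / δ⌋))
      (Finset.Icc (⌊α x0 / δ⌋ - (⌈l / δ⌉₊ : ℕ)) (⌊α x0 / δ⌋ + (⌈l / δ⌉₊ : ℕ)) ×ˢ
        Finset.Icc (⌊β x0 / δ⌋ - (⌈l / δ⌉₊ : ℕ)) (⌊β x0 / δ⌋ + (⌈l / δ⌉₊ : ℕ)))
      (fun x hx _ => ?_) fun x _ hx y _ hy e => ?_).trans ?_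
    · have := hS x hx x0 hx0
      rw [map_sub, map_sub] at this
      exact Finset.mem_product.2 ⟨grid2_floor hδ this.1, grid2_floor hδ this.2⟩
    · obtain ⟨e1, e2⟩ := Prod.mk.inj e
      refine Lab.refine_eq _ _ _ _ hy hx ?_ fun _ => grid2_lab hδ (z1 _) e2
      exact Lab.refine_eq _ _ _ _ ((g1 y).1 hy).1 ((g1 x).1 hx).1 rfl fun _ => grid2_lab hδ z0 e1
    · have e : ∀ t : ℤ, (t + (⌈l / δ⌉₊ : ℕ) + 1 - (t - (⌈l / δ⌉₊ : ℕ))).toNat = 2 * ⌈l / δ⌉₊ + 1 := by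
        intro t; omega
      rw [Finset.card_product, Int.card_Icc, Int.card_Icc, e, e, sq]
      exact Nat.le_add_left _ _
  · intro x hx
    by_cases h : ∀ y ∈ L.cls x, ∀ k ∈ K, y ∉ disc α β (a k)
    · exact Or.inr h
    left
    push Not at h
    obtain ⟨y, hy, k, hk, hd⟩ := h
    have hyG := (g1 y).1 (L.sub x hx hy)
    have e : L.cls x = slab α Θ y ∩ slab β (Θ' (L0.cls y)) y := by
      rw [← L.eq x hx y hy, c1, ← c0]
    obtain ⟨d1, d2⟩ := grid2_disc hd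
    have f1 := grid2_fact hδ hδ1 (sub0 k hk) ((g0 y).1 hyG.1) d1
    have f2 := grid2_fact hδ hδ1 (Θ := Θ' (L0.cls y)) (Finset.subset_biUnion_of_mem
      (fun k => grid2_grid δ (β (a k))) (Finset.mem_filter.2 ⟨hk, y, L0.mem y hyG.1, d1⟩)) hyG.2 d2
    change Small α β δ (L.cls x) ∧ ∃ k ∈ K, L.cls x ⊆ _
    rw [e]
    refine ⟨fun u hu v hv => ⟨f1.2 u hu.1 v hv.1, f2.2 u hu.2 v hv.2⟩, k, hk, fun u hu => ⟨?_, ?_⟩⟩ <;>
      rw [map_sub]
    exacts [f1.1 u hu.1, f2.1 u hu.2]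

end Pool.Agent.Cyl
end

-- part Pool.Agent.P.MP_8a0bcd_co.Cut
section

/-! Cutting a small square until all relevant circles are almost parallel. -/

set_option autoImplicit false

namespace Pool.Agent.Cyl

open Set
open scoped Classical

theorem cut_graph (Z : Set (ℝ × ℝ)) (h : ∀ p ∈ Z, ∀ q ∈ Z, |p.2 - q.2| ≤ |p.1 - q.1| / 2) :
    ∃ φ : ℝ → ℝ, LipschitzWith (1 / 2) φ ∧ ∀ p ∈ Z, φ p.1 = p.2 := by
  have h1 : ∀ s ∈ Prod.fst '' Z, ∃ t, (s, t) ∈ Z := by
    rintro _ ⟨p, hp, rfl⟩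
    exact ⟨p.2, hp⟩
  choose! f hf using h1
  have h2 : LipschitzOnWith (1 / 2) f (Prod.fst '' Z) := by
    refine LipschitzOnWith.of_dist_le_mul fun s hs s' hs' => ?_
    have := h _ (hf s hs) _ (hf s' hs')
    simp only [Real.dist_eq]
    push_cast
    linarith
  obtain ⟨φ, a, b⟩ := h2.extend_real
  refine ⟨φ, a, fun p hp => ?_⟩
  have hp' : p.1 ∈ Prod.fst '' Z := mem_image_of_mem _ hp
  have := h _ (hf _ hp') _ hp
  simp only [sub_self, abs_zero, zero_div, abs_nonpos_iff, sub_eq_zero] at this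
  rw [← b hp', this]

/-- An almost horizontal set and an almost vertical set are separated by two diagonals. -/
theorem sep (Z Z' : Set (ℝ × ℝ)) (h : ∀ p ∈ Z, ∀ q ∈ Z, |p.2 - q.2| ≤ |p.1 - q.1| / 2)
    (h' : ∀ p ∈ Z', ∀ q ∈ Z', |p.1 - q.1| ≤ |p.2 - q.2| / 2) :
    ∃ o : ℝ × ℝ, (∀ p ∈ Z, |p.2 - o.2| ≤ |p.1 - o.1|) ∧ ∀ p ∈ Z', |p.1 - o.1| ≤ |p.2 - o.2| := by
  obtain ⟨φ, hφ, hφ'⟩ := cut_graph Z h
  obtain ⟨ψ, hψ, hψ'⟩ := cut_graph (Prod.swap '' Z') (by
    rintro _ ⟨p, hp, rfl⟩ _ ⟨q, hq, rfl⟩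
    exact h' p hp q hq)
  have hc : ContractingWith (1 / 2 * (1 / 2)) (ψ ∘ φ) := ⟨by norm_num, hψ.comp hφ⟩
  have hfix : ψ (φ hc.fixedPoint) = hc.fixedPoint := hc.fixedPoint_isFixedPt
  refine ⟨(hc.fixedPoint, φ hc.fixedPoint), fun p hp => ?_, fun p hp => ?_⟩
  · have := hφ.dist_le_mul p.1 hc.fixedPoint
    rw [hφ' p hp, Real.dist_eq, Real.dist_eq] at this
    push_cast at this
    linarith [abs_nonneg (p.1 - hc.fixedPoint)]
  · have := hψ.dist_le_mul p.2 (φ hc.fixedPoint)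
    have e : ψ p.2 = p.1 := hψ' _ (mem_image_of_mem _ hp)
    rw [hfix, e, Real.dist_eq, Real.dist_eq] at this
    push_cast at this
    linarith [abs_nonneg (p.2 - φ hc.fixedPoint)]

theorem cut_sign {R : Set E} (hR : Convex ℝ R) (l : Fn) {t : ℝ} (h : ∀ y ∈ R, l y ≠ t) {y y' : E}
    (hy : y ∈ R) (hy' : y' ∈ R) : 0 < (l y - t) * (l y' - t) := by
  have hc := (hR.linear_image l).ordConnected
  have key : ∀ u ∈ R, ∀ v ∈ R, l u < t → ¬ t < l v := fun u hu v hv a b => by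
    obtain ⟨w, hw, e⟩ := hc.out (mem_image_of_mem _ hu) (mem_image_of_mem _ hv) ⟨a.le, b.le⟩
    exact h w hw e
  rcases (h y hy).lt_or_gt with a | a <;> rcases (h y' hy').lt_or_gt with b | b
  · exact mul_pos_of_neg_of_neg (by linarith) (by linarith)
  · exact absurd b (key y hy y' hy' a)
  · exact absurd a (key y' hy' y hy b)
  · exact mul_pos (by linarith) (by linarith)

theorem cut_cramer {n₁ n₂ m₁ m₂ x y δ : ℝ} (h1 : |n₁| ≤ 2) (h2 : |n₂| ≤ 2)
    (h3 : |m₁| ≤ 2) (h4 : |m₂| ≤ 2) (hd : 24 * δ ≤ |n₁ * m₂ - n₂ * m₁|)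
    (h : |n₁ * x + n₂ * y| ≤ 2 * δ * (|x| + |y|)) :
    |n₁ * x + n₂ * y| ≤ |m₁ * x + m₂ * y| / 2 := by
  obtain ⟨B, hB⟩ : ∃ B, B = n₁ * x + n₂ * y := ⟨_, rfl⟩
  obtain ⟨A, hA⟩ : ∃ A, A = m₁ * x + m₂ * y := ⟨_, rfl⟩
  have e1 : (n₁ * m₂ - n₂ * m₁) * x = m₂ * B - n₂ * A := by rw [hA, hB]; ring
  have e2 : (n₁ * m₂ - n₂ * m₁) * y = n₁ * A - m₁ * B := by rw [hA, hB]; ring
  rw [← hB] at h ⊢
  rw [← hA]
  have a1 : 24 * δ * |x| ≤ 2 * |B| + 2 * |A| := by
    refine (mul_le_mul_of_nonneg_right hd (abs_nonneg x)).trans ?_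
    rw [← abs_mul, e1]
    refine (abs_sub _ _).trans ?_
    rw [abs_mul, abs_mul]
    exact add_le_add (mul_le_mul_of_nonneg_right h4 (abs_nonneg _))
      (mul_le_mul_of_nonneg_right h2 (abs_nonneg _))
  have a2 : 24 * δ * |y| ≤ 2 * |A| + 2 * |B| := by
    refine (mul_le_mul_of_nonneg_right hd (abs_nonneg y)).trans ?_
    rw [← abs_mul, e2]
    refine (abs_sub _ _).trans ?_
    rw [abs_mul, abs_mul]
    exact add_le_add (mul_le_mul_of_nonneg_right h1 (abs_nonneg _))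
      (mul_le_mul_of_nonneg_right h3 (abs_nonneg _))
  linarith

theorem cut_onto_ne {α β : Fn} (h : Onto α β) : α ≠ 0 := by
  obtain ⟨z, hz, -⟩ := h 1 0
  intro e
  rw [e] at hz
  exact zero_ne_one hz

/-- Two almost straight sets with different normals are separated by two cuts. -/
theorem cut_pair {α β : Fn} (ho : Onto α β) {δ : ℝ} (hδ : 0 < δ) (Z Z' : Set E) (n₁ n₂ m₁ m₂ : ℝ)
    (h : ∀ y ∈ Z, ∀ y' ∈ Z,
      |n₁ * α (y - y') + n₂ * β (y - y')| ≤ 2 * δ * (|α (y - y')| + |β (y - y')|))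
    (h' : ∀ y ∈ Z', ∀ y' ∈ Z',
      |m₁ * α (y - y') + m₂ * β (y - y')| ≤ 2 * δ * (|α (y - y')| + |β (y - y')|)) :
    ∃ (l : Bool → Fn) (t : Bool → ℝ), (∀ j, l j ≠ 0) ∧ ∀ R : Set E, Convex ℝ R →
      (∀ j, ∀ y ∈ R, l j y ≠ t j) → (Z ∩ R).Nonempty → (Z' ∩ R).Nonempty → |n₁| ≤ 2 → |n₂| ≤ 2 →
        |m₁| ≤ 2 → |m₂| ≤ 2 → |n₁ * m₂ - n₂ * m₁| < 24 * δ := by
  by_cases hc : |n₁| ≤ 2 ∧ |n₂| ≤ 2 ∧ |m₁| ≤ 2 ∧ |m₂| ≤ 2 ∧ 24 * δ ≤ |n₁ * m₂ - n₂ * m₁|
  swap
  · refine ⟨fun _ => α, fun _ => 0, fun _ => cut_onto_ne ho, fun R _ _ _ _ h1 h2 h3 h4 => ?_⟩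
    exact not_le.1 fun h5 => hc ⟨h1, h2, h3, h4, h5⟩
  obtain ⟨h1, h2, h3, h4, h5⟩ := hc
  obtain ⟨A, hA⟩ : ∃ A : Fn, ∀ y, A y = m₁ * α y + m₂ * β y :=
    ⟨m₁ • α + m₂ • β, fun y => by simp⟩
  obtain ⟨B, hB⟩ : ∃ B : Fn, ∀ y, B y = n₁ * α y + n₂ * β y :=
    ⟨n₁ • α + n₂ • β, fun y => by simp⟩
  obtain ⟨o, ho1, ho2⟩ := sep ((fun y => (A y, B y)) '' Z) ((fun y => (A y, B y)) '' Z') (by
    rintro _ ⟨y, hy, rfl⟩ _ ⟨y', hy', rfl⟩
    simp only [← map_sub]
    rw [hA, hB]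
    exact cut_cramer h1 h2 h3 h4 h5 (h y hy y' hy')) (by
    rintro _ ⟨y, hy, rfl⟩ _ ⟨y', hy', rfl⟩
    simp only [← map_sub]
    rw [hA, hB]
    refine cut_cramer h3 h4 h1 h2 ?_ (h' y hy y' hy')
    rwa [abs_sub_comm, mul_comm m₂, mul_comm m₁])
  obtain ⟨z, hz1, hz2⟩ := ho m₂ (-m₁)
  have hAz : A z = 0 := by rw [hA, hz1, hz2]; ring
  have hBz : B z ≠ 0 := by
    rw [hB, hz1, hz2]
    intro e
    rw [show n₁ * m₂ - n₂ * m₁ = 0 by linarith, abs_zero] at h5
    linarith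
  refine ⟨fun b => if b then A - B else A + B, fun b => if b then o.1 - o.2 else o.1 + o.2, ?_, ?_⟩
  · intro b e
    have := congrArg (fun l : Fn => l z) e
    cases b
    · simp [hAz, hBz] at this
    · simp [hAz, hBz] at this
  · rintro R hR hl ⟨y, hy, hyR⟩ ⟨y', hy', hyR'⟩ - - - -
    exfalso
    have a1 := cut_sign hR _ (hl true) hyR hyR'
    have a2 := cut_sign hR _ (hl false) hyR hyR'
    simp only [if_true, LinearMap.sub_apply, LinearMap.add_apply, Bool.false_eq_true,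
      if_false] at a1 a2
    have b1 := sq_le_sq.2 (ho1 _ (mem_image_of_mem _ hy))
    have b2 := sq_le_sq.2 (ho2 _ (mem_image_of_mem _ hy'))
    simp only at b1 b2
    have c := mul_pos a1 a2
    have d := mul_nonneg (sub_nonneg.2 b1) (sub_nonneg.2 b2)
    nlinarith

theorem cut_one {p₁ p₂ q₁ q₂ n₁ n₂ δ : ℝ} (a1 : |p₁ - n₁| ≤ 2 * δ) (a2 : |p₂ - n₂| ≤ 2 * δ)
    (b1 : |q₁ - n₁| ≤ 2 * δ) (b2 : |q₂ - n₂| ≤ 2 * δ) (h : p₁ ^ 2 + p₂ ^ 2 ≤ q₁ ^ 2 + q₂ ^ 2) :
    n₁ * (p₁ - q₁) + n₂ * (p₂ - q₂) ≤ 2 * δ * (|p₁ - q₁| + |p₂ - q₂|) := by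
  have key : ∀ p q n : ℝ, |p - n| ≤ 2 * δ → |q - n| ≤ 2 * δ →
      -((p - q) * ((p - n) + (q - n))) ≤ |p - q| * (4 * δ) := fun p q n a b => by
    refine (neg_le_abs _).trans ?_
    rw [abs_mul]
    exact mul_le_mul_of_nonneg_left ((abs_add_le _ _).trans (by linarith)) (abs_nonneg _)
  have c1 := key _ _ _ a1 b1
  have c2 := key _ _ _ a2 b2
  nlinarith

theorem cut_dir {u₁ u₂ v₁ v₂ ν : ℝ} (hu : u₁ ^ 2 + u₂ ^ 2 = 1) (hv : v₁ ^ 2 + v₂ ^ 2 = 1)
    (hD : |v₁ * u₂ - v₂ * u₁| ≤ ν) :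
    ∃ s : ℝ, (s = 1 ∨ s = -1) ∧ |v₁ - s * u₁| ≤ 2 * ν ∧ |v₂ - s * u₂| ≤ 2 * ν := by
  obtain ⟨c, hc⟩ : ∃ c, c = u₁ * v₁ + u₂ * v₂ := ⟨_, rfl⟩
  obtain ⟨D, hD'⟩ : ∃ D, D = v₁ * u₂ - v₂ * u₁ := ⟨_, rfl⟩
  have e : c ^ 2 + D ^ 2 = 1 := by
    rw [hc, hD']
    linear_combination (v₁ ^ 2 + v₂ ^ 2) * hu + hv
  have e1 : v₁ = c * u₁ + D * u₂ := by rw [hc, hD']; linear_combination (-v₁) * hu
  have e2 : v₂ = c * u₂ - D * u₁ := by rw [hc, hD']; linear_combination (-v₂) * hu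
  rw [← hD'] at hD
  have u1 : |u₁| ≤ 1 := abs_le_one_iff_mul_self_le_one.2 (by nlinarith)
  have u2 : |u₂| ≤ 1 := abs_le_one_iff_mul_self_le_one.2 (by nlinarith)
  have c1 : |c| ≤ 1 := abs_le_one_iff_mul_self_le_one.2 (by nlinarith)
  have d1 : |D| ≤ 1 := abs_le_one_iff_mul_self_le_one.2 (by nlinarith)
  have hcD : 1 - |c| ≤ |D| := by
    rw [← sq_abs c, ← sq_abs D] at e
    nlinarith [abs_nonneg c, abs_nonneg D]
  obtain ⟨s, hs, hs'⟩ : ∃ s : ℝ, (s = 1 ∨ s = -1) ∧ |c - s| ≤ |D| := by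
    rcases le_total 0 c with h | h
    · rw [abs_of_nonneg h] at c1 hcD
      exact ⟨1, Or.inl rfl, by rw [abs_of_nonpos (by linarith)]; linarith⟩
    · rw [abs_of_nonpos h] at c1 hcD
      exact ⟨-1, Or.inr rfl, by rw [abs_of_nonneg (by linarith)]; linarith⟩
  have key : ∀ x y : ℝ, |x| ≤ 1 → |y| ≤ 1 → |(c - s) * x + D * y| ≤ 2 * ν := fun x y a b => by
    refine (abs_add_le _ _).trans ?_
    rw [abs_mul, abs_mul]
    have := mul_le_of_le_one_right (abs_nonneg (c - s)) a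
    have := mul_le_of_le_one_right (abs_nonneg D) b
    linarith
  refine ⟨s, hs, ?_, ?_⟩
  · rw [show v₁ - s * u₁ = (c - s) * u₁ + D * u₂ by linarith]
    exact key _ _ u1 u2
  · rw [show v₂ - s * u₂ = (c - s) * u₂ + D * -u₁ by linarith]
    exact key _ _ u2 (by rwa [abs_neg])

theorem cut_det {u₁ u₂ v₁ v₂ n₁ n₂ m₁ m₂ δ : ℝ} (u1 : |u₁| ≤ 1) (u2 : |u₂| ≤ 1) (h1 : |n₁| ≤ 2)
    (h2 : |n₂| ≤ 2) (a1 : |v₁ - n₁| ≤ 2 * δ) (a2 : |v₂ - n₂| ≤ 2 * δ) (b1 : |u₁ - m₁| ≤ 2 * δ)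
    (b2 : |u₂ - m₂| ≤ 2 * δ) (h : |n₁ * m₂ - n₂ * m₁| < 24 * δ) :
    |v₁ * u₂ - v₂ * u₁| ≤ 36 * δ := by
  have key : ∀ x y a b : ℝ, |x| ≤ a → |y| ≤ b → |x * y| ≤ a * b := fun x y a b p q => by
    rw [abs_mul]
    exact mul_le_mul p q (abs_nonneg _) ((abs_nonneg _).trans p)
  have c1 := abs_le.1 (key _ _ _ _ a1 u2)
  have c2 := abs_le.1 (key _ _ _ _ h1 b2)
  have c3 := abs_le.1 (key _ _ _ _ a2 u1)
  have c4 := abs_le.1 (key _ _ _ _ h2 b1)
  have c5 := abs_lt.1 h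
  rw [abs_le]
  constructor <;> nlinarith

theorem cut_floor {δ : ℝ} (hδ : 0 < δ) {s t : ℝ} (h : |s| ≤ δ) :
    |s + t - δ * ⌊t / δ⌋| ≤ 2 * δ := by
  have a := Int.floor_le (t / δ)
  have b := Int.lt_floor_add_one (t / δ)
  rw [le_div_iff₀ hδ] at a
  rw [div_lt_iff₀ hδ] at b
  have c := abs_le.1 h
  rw [abs_le]
  constructor <;> nlinarith

theorem cut_box {δ : ℝ} (hδ : 0 < δ) {g : ℤ} (h : |δ * g| ≤ 2) :
    g ∈ Finset.Icc (-⌈2 / δ⌉) ⌈2 / δ⌉ := by
  rw [abs_mul, abs_of_pos hδ, mul_comm, ← le_div_iff₀ hδ] at h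
  have h1 := h.trans (Int.le_ceil _)
  rw [← Int.cast_abs, Int.cast_le] at h1
  exact Finset.mem_Icc.2 (abs_le.1 h1)

theorem exists_cut (ε : ℝ) (hε : 0 < ε) : ∃ (δ : ℝ) (N : ℕ), 0 < δ ∧ δ ≤ 1 ∧
    ∀ (κ : Type) (α β : Fn) (K : Finset κ) (a : κ → E) (Q : Set E), Onto α β → Convex ℝ Q →
      Small α β δ Q → ∃ (l : Fin N → Fn) (t : Fin N → ℝ), (∀ j, l j ≠ 0) ∧
        ∀ R ⊆ Q, Convex ℝ R → (∀ j, ∀ y ∈ R, l j y ≠ t j) →
          ∃ J ⊆ K, ∃ z, α z ^ 2 + β z ^ 2 = 1 ∧ Nice α β K a ε R J z := by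
  obtain ⟨δ, hδ, hδ1, hδε⟩ : ∃ δ : ℝ, 0 < δ ∧ δ ≤ 1 / 2 ∧ δ ≤ ε / 100 :=
    ⟨min (1 / 2) (ε / 100), by positivity, min_le_left _ _, min_le_right _ _⟩
  obtain ⟨B, hB⟩ : ∃ B : Finset (ℤ × ℤ), ∀ g : ℤ × ℤ, |δ * g.1| ≤ 2 → |δ * g.2| ≤ 2 → g ∈ B :=
    ⟨_ ×ˢ _, fun g a b => Finset.mem_product.2 ⟨cut_box hδ a, cut_box hδ b⟩⟩
  refine ⟨δ, Fintype.card (B × B × Bool), hδ, by linarith, fun κ α β K a Q ho _ hQ => ?_⟩
  obtain ⟨z₀, hz₀, hz₀'⟩ := ho 1 0
  have hz : α z₀ ^ 2 + β z₀ ^ 2 = 1 := by rw [hz₀, hz₀']; norm_num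
  rcases Q.eq_empty_or_nonempty with rfl | ⟨x₀, hx₀⟩
  · refine ⟨fun _ => α, fun _ => 0, fun _ => cut_onto_ne ho, fun R hR _ _ =>
      ⟨∅, Finset.empty_subset _, z₀, hz, fun k hk => absurd hk (Finset.notMem_empty k),
        Or.inl fun y hy => (hR hy).elim⟩⟩
  obtain ⟨g, hg⟩ : ∃ g : κ → ℤ × ℤ, ∀ k, ∀ y ∈ Q,
      |α (y - a k) - δ * (g k).1| ≤ 2 * δ ∧ |β (y - a k) - δ * (g k).2| ≤ 2 * δ := by
    refine ⟨fun k => (⌊α (x₀ - a k) / δ⌋, ⌊β (x₀ - a k) / δ⌋), fun k y hy => ?_⟩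
    obtain ⟨h1, h2⟩ := hQ y hy x₀ hx₀
    rw [show y - a k = (y - x₀) + (x₀ - a k) by abel, map_add, map_add]
    exact ⟨cut_floor hδ h1, cut_floor hδ h2⟩
  obtain ⟨Z, hZ⟩ : ∃ Z : ℤ × ℤ → Set E, ∀ G y, y ∈ Z G ↔ y ∈ Q ∧
      (∃ k ∈ K, g k = G ∧ α (y - a k) ^ 2 + β (y - a k) ^ 2 = 1) ∧
      ∀ k ∈ K, g k = G → 1 ≤ α (y - a k) ^ 2 + β (y - a k) ^ 2 :=
    ⟨fun G => {y | y ∈ Q ∧ (∃ k ∈ K, g k = G ∧ α (y - a k) ^ 2 + β (y - a k) ^ 2 = 1) ∧
      ∀ k ∈ K, g k = G → 1 ≤ α (y - a k) ^ 2 + β (y - a k) ^ 2}, fun _ _ => Iff.rfl⟩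
  have flat₀ : ∀ G, ∀ y ∈ Z G, ∀ y' ∈ Z G, δ * G.1 * α (y - y') + δ * G.2 * β (y - y') ≤
      2 * δ * (|α (y - y')| + |β (y - y')|) := by
    intro G y hy y' hy'
    obtain ⟨h1, ⟨k, hk, rfl, h2⟩, -⟩ := (hZ G y).1 hy
    obtain ⟨h3, -, h4⟩ := (hZ _ y').1 hy'
    have := cut_one (hg k y h1).1 (hg k y h1).2 (hg k y' h3).1 (hg k y' h3).2
      (h2.le.trans (h4 k hk rfl))
    simpa only [← map_sub, sub_sub_sub_cancel_right] using this
  have flat : ∀ G, ∀ y ∈ Z G, ∀ y' ∈ Z G, |δ * G.1 * α (y - y') + δ * G.2 * β (y - y')| ≤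
      2 * δ * (|α (y - y')| + |β (y - y')|) := by
    intro G y hy y' hy'
    have h1 := flat₀ G y' hy' y hy
    rw [← neg_sub y y', map_neg, map_neg, abs_neg, abs_neg] at h1
    exact abs_le.2 ⟨by linarith, flat₀ G y hy y' hy'⟩
  choose l t hl hlt using fun G G' : ℤ × ℤ =>
    cut_pair ho hδ (Z G) (Z G') _ _ _ _ (flat G) (flat G')
  obtain ⟨e⟩ : Nonempty (Fin (Fintype.card (B × B × Bool)) ≃ B × B × Bool) :=
    ⟨(Fintype.equivFin _).symm⟩
  refine ⟨fun j => l (e j).1 (e j).2.1 (e j).2.2, fun j => t (e j).1 (e j).2.1 (e j).2.2,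
    fun j => hl _ _ _, fun R hRQ hR hcut => ?_⟩
  have unit : ∀ G, ∀ y ∈ Z G, |δ * G.1| ≤ 2 ∧ |δ * G.2| ≤ 2 := by
    intro G y hy
    obtain ⟨h1, ⟨k, -, rfl, h2⟩, -⟩ := (hZ G y).1 hy
    have u1 : |α (y - a k)| ≤ 1 := abs_le_one_iff_mul_self_le_one.2 (by nlinarith)
    have u2 : |β (y - a k)| ≤ 1 := abs_le_one_iff_mul_self_le_one.2 (by nlinarith)
    obtain ⟨c1, c2⟩ := hg k y h1
    rw [abs_le] at u1 u2 c1 c2
    exact ⟨abs_le.2 ⟨by linarith, by linarith⟩, abs_le.2 ⟨by linarith, by linarith⟩⟩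
  have par : ∀ G G', (Z G ∩ R).Nonempty → (Z G' ∩ R).Nonempty →
      |δ * G.1 * (δ * G'.2) - δ * G.2 * (δ * G'.1)| < 24 * δ := by
    intro G G' h h'
    obtain ⟨a1, a2⟩ := unit G _ h.some_mem.1
    obtain ⟨b1, b2⟩ := unit G' _ h'.some_mem.1
    refine hlt G G' R hR (fun b => ?_) h h' a1 a2 b1 b2
    have := hcut (e.symm (⟨G, hB G a1 a2⟩, ⟨G', hB G' b1 b2⟩, b))
    simpa only [Equiv.apply_symm_apply] using this
  have decide' : (∀ y ∈ R, ∃ k ∈ K, y ∈ disc α β (a k)) ∨ ∀ y ∈ R, ∀ k ∈ K, y ∈ disc α β (a k) →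
      ∃ k' ∈ K.filter fun k => (Z (g k) ∩ R).Nonempty, y ∈ disc α β (a k') := by
    refine or_iff_not_imp_left.2 fun hn y hy k hk hyk => ⟨k, Finset.mem_filter.2 ⟨hk, ?_⟩, hyk⟩
    push Not at hn
    obtain ⟨y₁, hy₁, hn⟩ := hn
    have hk0 : k ∈ K.filter fun k' => g k' = g k := Finset.mem_filter.2 ⟨hk, rfl⟩
    have hne : (K.filter fun k' => g k' = g k).Nonempty := ⟨k, hk0⟩
    have hc : Continuous fun x : E => (K.filter fun k' => g k' = g k).inf' hne
        fun k' => α (x - a k') ^ 2 + β (x - a k') ^ 2 := by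
      refine Continuous.finset_inf'_apply hne fun k' _ => ?_
      have := Fn.cont α
      have := Fn.cont β
      fun_prop
    obtain ⟨x, hx, hx1⟩ := hR.isPreconnected.intermediate_value hy hy₁ hc.continuousOn
      (show (1 : ℝ) ∈ _ from ⟨(Finset.inf'_le _ hk0).trans hyk,
        Finset.le_inf' _ _ fun k' hk' => (not_le.1 (hn k' (Finset.mem_filter.1 hk').1)).le⟩)
    refine ⟨x, (hZ _ x).2 ⟨hRQ hx, ?_, fun k' hk' h => ?_⟩, hx⟩
    · obtain ⟨k', hk', h⟩ := Finset.exists_mem_eq_inf' hne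
        fun k' => α (x - a k') ^ 2 + β (x - a k') ^ 2
      exact ⟨k', (Finset.mem_filter.1 hk').1, (Finset.mem_filter.1 hk').2, h.symm.trans hx1⟩
    · exact hx1.symm.le.trans (Finset.inf'_le _ (Finset.mem_filter.2 ⟨hk', h⟩))
  refine ⟨K.filter fun k => (Z (g k) ∩ R).Nonempty, Finset.filter_subset _ _, ?_⟩
  by_cases hJ : ∃ G, (Z G ∩ R).Nonempty
  swap
  · exact ⟨z₀, hz, fun k hk => absurd ⟨_, (Finset.mem_filter.1 hk).2⟩ hJ, decide'⟩
  obtain ⟨G₀, y₀, hy₀, hy₀R⟩ := hJ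
  obtain ⟨-, ⟨k₀, -, rfl, hu⟩, -⟩ := (hZ _ y₀).1 hy₀
  refine ⟨y₀ - a k₀, hu, fun k hk => ?_, decide'⟩
  obtain ⟨y₁, hy₁, hy₁R⟩ := (Finset.mem_filter.1 hk).2
  obtain ⟨-, ⟨k₁, -, hk₁, hv⟩, -⟩ := (hZ _ y₁).1 hy₁
  obtain ⟨a1, a2⟩ := hg k₁ y₁ (hRQ hy₁R)
  rw [hk₁] at a1 a2
  obtain ⟨s, hs, s1, s2⟩ := cut_dir hu hv (cut_det
    (abs_le_one_iff_mul_self_le_one.2 (by nlinarith))
    (abs_le_one_iff_mul_self_le_one.2 (by nlinarith)) (unit _ _ hy₁).1 (unit _ _ hy₁).2 a1 a2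
    (hg k₀ y₀ (hRQ hy₀R)).1 (hg k₀ y₀ (hRQ hy₀R)).2 (par _ _ ⟨y₁, hy₁, hy₁R⟩ ⟨y₀, hy₀, hy₀R⟩))
  refine ⟨s, hs, fun y hy => ?_⟩
  obtain ⟨b1, b2⟩ := hg k y (hRQ hy)
  rw [map_sub α (y - a k), map_sub β (y - a k), map_smul, map_smul, smul_eq_mul, smul_eq_mul]
  rw [abs_le] at a1 a2 b1 b2 s1 s2
  exact ⟨abs_le.2 ⟨by linarith, by linarith⟩, abs_le.2 ⟨by linarith, by linarith⟩⟩

end Pool.Agent.Cyl
end

-- part Pool.Agent.P.MP_8a0bcd_co.Plane
section

/-! The partition adapted to one family of parallel cylinders. -/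

set_option autoImplicit false

namespace Pool.Agent.Cyl

open Set
open scoped Classical

theorem exists_pl (ε l : ℝ) (hε : 0 < ε) : ∃ m C : ℕ, ∀ (κ : Type) (α β : Fn)
    (K : Finset κ) (a : κ → E), Onto α β → Nonempty (Pl α β K a ε l m C) := by
  obtain ⟨δ, N, hδ, hδ1, hcut⟩ := exists_cut ε hε
  obtain ⟨C, hcol⟩ := exists_col δ l hδ hδ1
  refine ⟨4 + Fintype.card (Fin N) * 2, C * 2 ^ N, fun κ α β K a hon => ?_⟩
  obtain ⟨P, hP⟩ := hcol κ α β K a hon
  obtain ⟨z₀, hz₀, hz₁⟩ := hon 1 0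
  have hα : α ≠ 0 := fun h => by simp [h] at hz₀
  -- cuts in every set
  have key : ∀ Q : Set E, ∃ (l : Fin N → Fn) (Θ : Fin N → Finset ℝ), (∀ j, l j ≠ 0) ∧
      (∀ j, (Θ j).card ≤ 1) ∧ (∀ j, (Θ j).Nonempty → ∃ k ∈ K, Q ⊆ tube α β (a k) 3) ∧
      (Convex ℝ Q → Small α β δ Q → (∃ k ∈ K, Q ⊆ tube α β (a k) 3) →
        ∀ R ⊆ Q, Convex ℝ R → (∀ j, ∀ y ∈ R, l j y ∉ Θ j) →
          ∃ J ⊆ K, ∃ z, α z ^ 2 + β z ^ 2 = 1 ∧ Nice α β K a ε R J z) := by
    intro Q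
    by_cases h : Convex ℝ Q ∧ Small α β δ Q ∧ ∃ k ∈ K, Q ⊆ tube α β (a k) 3
    · obtain ⟨l, t, h1, h2⟩ := hcut κ α β K a Q hon h.1 h.2.1
      refine ⟨l, fun j => {t j}, h1, fun j => by simp, fun _ _ => h.2.2,
        fun _ _ _ R hR hc hy => h2 R hR hc fun j y b e => hy j y b ?_⟩
      exact Finset.mem_singleton.2 e
    · exact ⟨fun _ => α, fun _ => ∅, fun _ => hα, fun _ => by simp, fun _ b => by simp at b,
        fun h1 h2 h3 => absurd ⟨h1, h2, h3⟩ h⟩
  choose l' Θ' k1 k2 k3 k4 using key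
  let L : Lab := P.L.refine l' Θ' fun R j _ => k1 R j
  have pick : ∀ R : Set E, ∃ J ⊆ K, ∃ z, α z ^ 2 + β z ^ 2 = 1 ∧
      (R ∈ L.cl univ → Nice α β K a ε R J z) := by
    intro R
    by_cases hR : R ∈ L.cl univ
    swap
    · exact ⟨∅, Finset.empty_subset _, z₀, by simp [hz₀, hz₁], fun h => absurd h hR⟩
    obtain ⟨x, -, hx, rfl⟩ := Lab.mem_cl.1 hR
    have hsub : L.cls x ⊆ P.L.cls x := inter_subset_left
    rcases hP x hx.1 with h | h
    · obtain ⟨J, h1, z, h2, h3⟩ := k4 _ (P.L.convex hx.1) h.1 h.2 (L.cls x) hsub (L.convex hx)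
        fun j y hy => by
          have := (L.sub x hx hy).2 j
          rwa [P.L.eq x hx.1 y (hsub hy)] at this
      exact ⟨J, h1, z, h2, fun _ => h3⟩
    · exact ⟨∅, Finset.empty_subset _, z₀, by simp [hz₀, hz₁], fun _ =>
        ⟨by simp, Or.inr fun y hy k hk hd => absurd hd (h y (hsub hy) k hk)⟩⟩
  choose J j1 z j2 j3 using pick
  refine ⟨{ L := L
            Θ := P.Θ
            poly := Lab.refine_poly _ _ _ _ P.poly
            card := P.card.trans (Nat.mul_le_mul_right _ (Nat.le_mul_of_pos_right _ (by positivity)))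
            near := P.near
            off := fun x hx => P.off x hx.1
            bad := fun x hx => ?_
            loc := fun S hS => ?_
            J := J
            z := z
            sub := j1
            unit := j2
            nice := fun x hx => j3 _ (Lab.cls_mem_cl (mem_univ x) hx) }⟩
  · by_cases h : x ∈ P.L.G
    · obtain ⟨j, hj⟩ : ∃ j, l' (P.L.cls x) j x ∈ Θ' (P.L.cls x) j := by
        by_contra c
        exact hx ⟨h, fun j d => c ⟨j, d⟩⟩
      obtain ⟨k, h1, h2⟩ := k3 _ j ⟨_, hj⟩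
      exact Or.inr ⟨k, h1, h2 (P.L.mem x h)⟩
    · exact P.bad x h
  · refine (Lab.refine_card_sum _ _ _ _ S).trans ?_
    refine (Finset.sum_le_card_nsmul _ _ (2 ^ N) fun R hR => ?_).trans
      (Nat.mul_le_mul_right _ (P.loc S hS))
    refine (Lab.refine_card _ _ _ _ (P.L.cl_mono (subset_univ S) hR)
      (Fintype.piFinset fun j => (Θ' R j).powerset) fun x _ => Fintype.mem_piFinset.2 fun j =>
        Finset.mem_powerset.2 (Finset.filter_subset _ _)).trans ?_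
    rw [Fintype.card_piFinset]
    refine (Finset.prod_le_pow_card _ _ 2 fun j _ => ?_).trans (by simp)
    rw [Finset.card_powerset]
    exact (Nat.pow_le_pow_right two_pos (k2 R j)).trans (by simp)


end Pool.Agent.Cyl
end

-- part Pool.Agent.P.MP_8a0bcd_co.Mom
section

/-! Points of the moment curve avoid great circles. -/

set_option autoImplicit false

namespace Pool.Agent.Cyl

open Set
open scoped Classical

/-- The point `(1, j, j ^ 2)`. -/
def mom (j : ℕ) : E := ![1, (j : ℝ), (j : ℝ) ^ 2]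

theorem mom_div {x y η : ℝ} (hx : 1 ≤ |x|) (h : |x * y| ≤ η) : |y| ≤ η := by
  rw [abs_mul] at h
  nlinarith [abs_nonneg y]

theorem mom_three {u0 u1 u2 a b c K η : ℝ} (hK : 1 ≤ K) (hη : η * K ^ 2 = 1 / 100)
    (a0 : 0 ≤ a) (aK : a ≤ K) (b0 : 0 ≤ b) (bK : b ≤ K)
    (ab : 1 ≤ |a - b|) (ac : 1 ≤ |a - c|) (bc : 1 ≤ |b - c|)
    (qa : |u0 + u1 * a + u2 * a ^ 2| ≤ η) (qb : |u0 + u1 * b + u2 * b ^ 2| ≤ η)
    (qc : |u0 + u1 * c + u2 * c ^ 2| ≤ η) : u0 * u0 + u1 * u1 + u2 * u2 < 1 := by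
  have hη0 : 0 ≤ η := (abs_nonneg _).trans qa
  have d1 : |u1 + u2 * (a + b)| ≤ 2 * η := by
    refine mom_div ab ?_
    rw [show (a - b) * (u1 + u2 * (a + b)) =
      (u0 + u1 * a + u2 * a ^ 2) - (u0 + u1 * b + u2 * b ^ 2) by ring]
    exact (abs_sub _ _).trans (by linarith)
  have d2 : |u1 + u2 * (a + c)| ≤ 2 * η := by
    refine mom_div ac ?_
    rw [show (a - c) * (u1 + u2 * (a + c)) =
      (u0 + u1 * a + u2 * a ^ 2) - (u0 + u1 * c + u2 * c ^ 2) by ring]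
    exact (abs_sub _ _).trans (by linarith)
  have e2 : |u2| ≤ 4 * η := by
    refine mom_div bc ?_
    rw [show (b - c) * u2 = (u1 + u2 * (a + b)) - (u1 + u2 * (a + c)) by ring]
    exact (abs_sub _ _).trans (by linarith)
  have hηK : η ≤ η * K := le_mul_of_one_le_right hη0 hK
  have hηK2 : η * K ≤ η * K ^ 2 := by
    rw [sq, ← mul_assoc]
    exact le_mul_of_one_le_right (by positivity) hK
  have e1 : |u1| ≤ 10 * (η * K) := by
    have h1 : |u2 * (a + b)| ≤ 4 * η * (2 * K) := by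
      rw [abs_mul]
      exact mul_le_mul e2 (by rw [abs_of_nonneg (by linarith)]; linarith) (abs_nonneg _)
        (by positivity)
    have h2 := abs_sub (u1 + u2 * (a + b)) (u2 * (a + b))
    rw [add_sub_cancel_right] at h2
    linarith
  have e0 : |u0| ≤ 15 * (η * K ^ 2) := by
    have h1 : |u1 * a| ≤ 10 * (η * K) * K := by
      rw [abs_mul]
      exact mul_le_mul e1 (by rwa [abs_of_nonneg a0]) (abs_nonneg _) (by positivity)
    have h2 : |u2 * a ^ 2| ≤ 4 * η * K ^ 2 := by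
      rw [abs_mul]
      exact mul_le_mul e2 (by rw [abs_of_nonneg (by positivity)]; gcongr) (abs_nonneg _)
        (by positivity)
    have h3 := abs_sub (u0 + u1 * a + u2 * a ^ 2) (u2 * a ^ 2)
    have h4 := abs_sub (u0 + u1 * a) (u1 * a)
    rw [add_sub_cancel_right] at h3 h4
    nlinarith
  have f0 : |u0| ≤ 1 / 2 := by linarith
  have f1 : |u1| ≤ 1 / 2 := by linarith
  have f2 : |u2| ≤ 1 / 2 := by linarith
  rw [← abs_mul_abs_self u0, ← abs_mul_abs_self u1, ← abs_mul_abs_self u2]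
  nlinarith [abs_nonneg u0, abs_nonneg u1, abs_nonneg u2]

theorem mom_sep {i j : ℕ} (h : i ≠ j) : (1 : ℝ) ≤ |(i : ℝ) - j| := by
  have : (1 : ℤ) ≤ |(i : ℤ) - j| := Int.one_le_abs (by omega)
  exact_mod_cast this

theorem mom_dot (u : E) (j : ℕ) : u ⬝ᵥ mom j = u 0 + u 1 * j + u 2 * (j : ℝ) ^ 2 := by
  simp [mom, dotProduct, Fin.sum_univ_three]

theorem exists_mom (M : ℕ) : ∃ θ : ℝ, 0 < θ ∧ ∀ (I : Type) [Fintype I] (u : I → E),
    Fintype.card I ≤ M → (∀ i, u i ⬝ᵥ u i = 1) →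
      ∃ j : Fin (2 * M + 1), ∀ i, θ ^ 2 * (mom j ⬝ᵥ mom j) ≤ (u i ⬝ᵥ mom j) ^ 2 := by
  set K : ℝ := 2 * M + 1 with hKdef
  have hK : 1 ≤ K := by
    have : (0 : ℝ) ≤ M := Nat.cast_nonneg M
    linarith
  have hK0 : 0 < K := by linarith
  set η : ℝ := 1 / (100 * K ^ 2) with hηdef
  have hη : η * K ^ 2 = 1 / 100 := by rw [hηdef]; field_simp
  have hη0 : 0 < η := by positivity
  have hj : ∀ j : Fin (2 * M + 1), ((j : ℕ) : ℝ) ≤ K := fun j => by
    have : ((j : ℕ) : ℝ) ≤ ((2 * M + 1 : ℕ) : ℝ) := by exact_mod_cast j.2.le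
    rw [hKdef]
    push_cast at this
    exact this
  refine ⟨η / (2 * K ^ 2), by positivity, fun I _ u hI hu => ?_⟩
  let bad : I → Finset (Fin (2 * M + 1)) := fun i =>
    Finset.univ.filter fun j => |u i ⬝ᵥ mom j| ≤ η
  have hbad : ∀ i, (bad i).card ≤ 2 := by
    intro i
    by_contra hc
    obtain ⟨a, ha, b, hb, c, hc, ab, ac, bc⟩ := Finset.two_lt_card.1 (not_le.1 hc)
    simp only [bad, Finset.mem_filter, Finset.mem_univ, true_and, mom_dot] at ha hb hc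
    have := mom_three hK hη (Nat.cast_nonneg _) (hj a) (Nat.cast_nonneg _) (hj b)
      (mom_sep (Fin.val_ne_of_ne ab)) (mom_sep (Fin.val_ne_of_ne ac))
      (mom_sep (Fin.val_ne_of_ne bc)) ha hb hc
    have h1 := hu i
    simp only [dotProduct, Fin.sum_univ_three] at h1
    linarith
  have hcard : (Finset.univ.biUnion bad).card < (Finset.univ : Finset (Fin (2 * M + 1))).card := by
    have := Finset.card_biUnion_le_card_mul Finset.univ bad 2 fun i _ => hbad i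
    rw [Finset.card_univ] at this
    rw [Finset.card_univ, Fintype.card_fin]
    omega
  obtain ⟨j, -, hjb⟩ := Finset.exists_mem_notMem_of_card_lt_card hcard
  refine ⟨j, fun i => ?_⟩
  have h1 : η < |u i ⬝ᵥ mom j| := by
    by_contra hc
    exact hjb (Finset.mem_biUnion.2 ⟨i, Finset.mem_univ _,
      Finset.mem_filter.2 ⟨Finset.mem_univ _, not_lt.1 hc⟩⟩)
  have h2 : mom j ⬝ᵥ mom j ≤ 4 * K ^ 4 := by
    rw [mom_dot]
    have a0 : (0 : ℝ) ≤ (j : ℕ) := Nat.cast_nonneg _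
    have a1 : ((j : ℕ) : ℝ) ^ 2 ≤ K ^ 2 := by have := hj j; gcongr
    have a2 : ((j : ℕ) : ℝ) ^ 4 ≤ K ^ 4 := by have := hj j; gcongr
    have a3 : K ^ 2 ≤ K ^ 4 := pow_le_pow_right₀ hK (by norm_num)
    have a4 : 1 ≤ K ^ 4 := one_le_pow₀ hK
    simp only [mom, Matrix.cons_val_zero, Matrix.cons_val_one, Matrix.cons_val]
    nlinarith
  have h3 : η ^ 2 ≤ (u i ⬝ᵥ mom j) ^ 2 := by
    rw [← sq_abs (u i ⬝ᵥ mom j)]
    gcongr
  calc (η / (2 * K ^ 2)) ^ 2 * (mom j ⬝ᵥ mom j) ≤ (η / (2 * K ^ 2)) ^ 2 * (4 * K ^ 4) := by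
        gcongr
    _ = η ^ 2 := by field_simp; ring
    _ ≤ _ := h3

end Pool.Agent.Cyl
end
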