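import Pool.Agent.K.MP_8a0bcd_co.C0
import Pool.Agent.Lib.SignPatterns.Warren

-- part Pool.Agent.P.MP_8a0bcd_co.Frame
section

/-! Construction of the frames. -/

set_option autoImplicit false

namespace Pool.Agent.Cyl

open Set
open scoped Classical

theorem frame_dot (a b : E) : a ⬝ᵥ b = a 0 * b 0 + a 1 * b 1 + a 2 * b 2 := by
  simp [dotProduct, Fin.sum_univ_three]

/-- The cross product. -/
def frameX (a b : E) : E :=
  ![a 1 * b 2 - a 2 * b 1, a 2 * b 0 - a 0 * b 2, a 0 * b 1 - a 1 * b 0]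

theorem frameX_dot (a b z : E) : frameX a b ⬝ᵥ z = (a 1 * b 2 - a 2 * b 1) * z 0 +
    (a 2 * b 0 - a 0 * b 2) * z 1 + (a 0 * b 1 - a 1 * b 0) * z 2 := by
  rw [frame_dot]; simp [frameX]

/-- The functional `z ↦ v ⬝ᵥ z`. -/
def frameL (v : E) : Fn where
  toFun z := v ⬝ᵥ z
  map_add' := dotProduct_add v
  map_smul' c z := dotProduct_smul c v z

theorem frameL_apply (v z : E) : frameL v z = v ⬝ᵥ z := rfl

theorem frame_nonneg (v : E) : 0 ≤ v ⬝ᵥ v := by
  rw [frame_dot]; nlinarith [sq_nonneg (v 0), sq_nonneg (v 1), sq_nonneg (v 2)]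

theorem frame_pos {v : E} (h : v ≠ 0) : 0 < v ⬝ᵥ v := by
  rcases (frame_nonneg v).lt_or_eq with h1 | h1
  · exact h1
  · exact absurd (dotProduct_self_eq_zero.1 h1.symm) h

theorem frame_norm {v : E} (h : 0 < v ⬝ᵥ v) : ∃ s : ℝ, 0 < s ∧ s ^ 2 * (v ⬝ᵥ v) = 1 := by
  refine ⟨(√(v ⬝ᵥ v))⁻¹, inv_pos.2 (Real.sqrt_pos.2 h), ?_⟩
  rw [inv_pow, Real.sq_sqrt h.le, inv_mul_cancel₀ h.ne']

theorem frame_smul (s : ℝ) (v : E) : (s • v) ⬝ᵥ (s • v) = s ^ 2 * (v ⬝ᵥ v) := by
  simp only [frame_dot, Pi.smul_apply, smul_eq_mul]; ring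

theorem frame_lagrange (a b : E) :
    frameX a b ⬝ᵥ frameX a b = (a ⬝ᵥ a) * (b ⬝ᵥ b) - (a ⬝ᵥ b) ^ 2 := by
  rw [frameX_dot]; simp only [frame_dot, frameX]; simp; ring

theorem frame_cs (a b : E) : (a ⬝ᵥ b) ^ 2 ≤ (a ⬝ᵥ a) * (b ⬝ᵥ b) := by
  have := frame_nonneg (frameX a b)
  rw [frame_lagrange] at this
  linarith

theorem frame_gram (e w z : E) :
    (e ⬝ᵥ e) * (frameX e w ⬝ᵥ z) ^ 2 + ((e ⬝ᵥ e) * (w ⬝ᵥ z) - (e ⬝ᵥ w) * (e ⬝ᵥ z)) ^ 2 =
      ((e ⬝ᵥ e) * (w ⬝ᵥ w) - (e ⬝ᵥ w) ^ 2) * ((e ⬝ᵥ e) * (z ⬝ᵥ z) - (e ⬝ᵥ z) ^ 2) := by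
  rw [frameX_dot]; simp only [frame_dot]; ring

theorem frame_bessel {e m : E} (he : e ⬝ᵥ e = 1) (hm : m ⬝ᵥ m = 1) (h : e ⬝ᵥ m = 0) (z : E) :
    (m ⬝ᵥ z) ^ 2 ≤ z ⬝ᵥ z - (e ⬝ᵥ z) ^ 2 := by
  have h1 := frame_gram e m z
  rw [he, hm, h] at h1
  nlinarith [sq_nonneg (frameX e m ⬝ᵥ z)]

theorem frame_perp (e : E) : ∃ m : E, m ⬝ᵥ m = 1 ∧ e ⬝ᵥ m = 0 := by
  by_cases h : (![-e 1, e 0, 0] : E) = 0
  · refine ⟨![1, 0, 0], by simp, ?_⟩
    have := congrFun h 1
    simp at this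
    rw [frame_dot]
    simp [this]
  · obtain ⟨s, -, hs⟩ := frame_norm (frame_pos h)
    refine ⟨s • ![-e 1, e 0, 0], by rw [frame_smul, hs], ?_⟩
    rw [frame_dot]
    simp
    ring

theorem frame_par {w z : E} (hw : 0 < w ⬝ᵥ w) (h : frameX z w = 0) : ∃ t : ℝ, z = t • w := by
  have h0 := congrFun h 0
  have h1 := congrFun h 1
  have h2 := congrFun h 2
  simp only [frameX, Matrix.cons_val_zero, Matrix.cons_val_one, Matrix.cons_val, Pi.zero_apply]
    at h0 h1 h2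
  refine ⟨(z ⬝ᵥ w) / (w ⬝ᵥ w), ?_⟩
  have key : ∀ i, z i * (w ⬝ᵥ w) = (z ⬝ᵥ w) * w i := by
    intro i
    simp only [frame_dot]
    fin_cases i
    · simp only [Fin.zero_eta]; linear_combination w 1 * h2 - w 2 * h1
    · simp only [Fin.mk_one]; linear_combination w 2 * h0 - w 0 * h2
    · simp only [Fin.reduceFinMk]; linear_combination w 0 * h1 - w 1 * h0
  funext i
  simp only [Pi.smul_apply, smul_eq_mul]
  field_simp
  linear_combination key i

theorem frame_two {a b w z : E} (hw : 0 < w ⬝ᵥ w) (hD : frameX a b ⬝ᵥ w ≠ 0)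
    (ha : frameX a w ⬝ᵥ z = 0) (hb : frameX b w ⬝ᵥ z = 0) : ∃ t : ℝ, z = t • w := by
  refine frame_par hw ?_
  rw [frameX_dot] at hD ha hb
  funext i
  refine mul_left_cancel₀ hD ?_
  fin_cases i
  · simp only [frameX, Fin.zero_eta, Matrix.cons_val_zero, Pi.zero_apply]
    linear_combination (a 1 * w 2 - a 2 * w 1) * hb - (b 1 * w 2 - b 2 * w 1) * ha
  · simp only [frameX, Fin.mk_one, Matrix.cons_val_one, Matrix.cons_val_zero, Pi.zero_apply]
    linear_combination (a 2 * w 0 - a 0 * w 2) * hb - (b 2 * w 0 - b 0 * w 2) * ha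
  · simp only [frameX, Fin.reduceFinMk, Matrix.cons_val, Pi.zero_apply]
    linear_combination (a 0 * w 1 - a 1 * w 0) * hb - (b 0 * w 1 - b 1 * w 0) * ha

/-- The length of the projection of `w` along `e`. -/
noncomputable def frameR (e w : E) : ℝ := √(w ⬝ᵥ w - (e ⬝ᵥ w) ^ 2)

/-- The unit vector orthogonal to `e` and `w`. -/
noncomputable def frameN (e w : E) : E := (frameR e w)⁻¹ • frameX e w

/-- The unit vector along the projection of `w`. -/
noncomputable def frameM (e w : E) : E := (frameR e w)⁻¹ • (w - (e ⬝ᵥ w) • e)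

theorem frameN_dot (e w z : E) : frameN e w ⬝ᵥ z = (frameR e w)⁻¹ * (frameX e w ⬝ᵥ z) := by
  rw [frameN, smul_dotProduct, smul_eq_mul]

theorem frameM_dot (e w z : E) :
    frameM e w ⬝ᵥ z = (frameR e w)⁻¹ * (w ⬝ᵥ z - (e ⬝ᵥ w) * (e ⬝ᵥ z)) := by
  rw [frameM, smul_dotProduct, smul_eq_mul, sub_dotProduct, smul_dotProduct, smul_eq_mul]

theorem frameR_pos {e w : E} (h : 0 < w ⬝ᵥ w - (e ⬝ᵥ w) ^ 2) : 0 < frameR e w :=
  Real.sqrt_pos.2 h

theorem frameR_sq {e w : E} (h : 0 < w ⬝ᵥ w - (e ⬝ᵥ w) ^ 2) :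
    frameR e w ^ 2 = w ⬝ᵥ w - (e ⬝ᵥ w) ^ 2 := Real.sq_sqrt h.le

theorem frame_form {e w : E} (he : e ⬝ᵥ e = 1) (h : 0 < w ⬝ᵥ w - (e ⬝ᵥ w) ^ 2) (z : E) :
    (frameN e w ⬝ᵥ z) ^ 2 + (frameM e w ⬝ᵥ z) ^ 2 = z ⬝ᵥ z - (e ⬝ᵥ z) ^ 2 := by
  have h1 := frame_gram e w z
  have h2 := frameR_sq h
  have h3 := (frameR_pos h).ne'
  rw [he] at h1
  rw [frameN_dot, frameM_dot]
  field_simp
  rw [h2]
  linear_combination h1

theorem frameN_e (e w : E) : frameN e w ⬝ᵥ e = 0 := by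
  rw [frameN_dot, frameX_dot]; ring

theorem frameN_w (e w : E) : frameN e w ⬝ᵥ w = 0 := by
  rw [frameN_dot, frameX_dot]; ring

theorem frameM_e {e : E} (he : e ⬝ᵥ e = 1) (w : E) : frameM e w ⬝ᵥ e = 0 := by
  rw [frameM_dot, he, dotProduct_comm w e]; ring

theorem frameN_N {e w : E} (he : e ⬝ᵥ e = 1) (h : 0 < w ⬝ᵥ w - (e ⬝ᵥ w) ^ 2) :
    frameN e w ⬝ᵥ frameN e w = 1 := by
  have h2 := frameR_sq h
  have h3 := (frameR_pos h).ne'
  rw [frameN, frame_smul, frame_lagrange, he, one_mul, ← h2]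
  field_simp

theorem frameM_N (e w : E) : frameM e w ⬝ᵥ frameN e w = 0 := by
  rw [frameM_dot, dotProduct_comm w (frameN e w), dotProduct_comm e (frameN e w), frameN_e,
    frameN_w]
  ring

theorem frameM_M {e w : E} (he : e ⬝ᵥ e = 1) (h : 0 < w ⬝ᵥ w - (e ⬝ᵥ w) ^ 2) :
    frameM e w ⬝ᵥ frameM e w = 1 := by
  have h2 := frameR_sq h
  have h3 := (frameR_pos h).ne'
  rw [frameM_dot, dotProduct_comm w (frameM e w), dotProduct_comm e (frameM e w), frameM_e he,
    frameM_dot]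
  field_simp
  rw [h2]
  ring

/-- A unit vector sees the projection along `e` only up to its length. -/
theorem frame_proj {e w : E} (he : e ⬝ᵥ e = 1) (h : 0 < w ⬝ᵥ w - (e ⬝ᵥ w) ^ 2) {v : E}
    (hv : v ⬝ᵥ v = 1) (z : E) :
    |v ⬝ᵥ z - (v ⬝ᵥ e) * (e ⬝ᵥ z)| ≤ |frameN e w ⬝ᵥ z| + |frameM e w ⬝ᵥ z| := by
  have h1 := frame_cs v (z - (e ⬝ᵥ z) • e)
  have h2 : (z - (e ⬝ᵥ z) • e) ⬝ᵥ (z - (e ⬝ᵥ z) • e) = z ⬝ᵥ z - (e ⬝ᵥ z) ^ 2 := by
    simp only [sub_dotProduct, dotProduct_sub, smul_dotProduct, dotProduct_smul, smul_eq_mul, he,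
      dotProduct_comm z e]
    ring
  have h3 : v ⬝ᵥ (z - (e ⬝ᵥ z) • e) = v ⬝ᵥ z - (v ⬝ᵥ e) * (e ⬝ᵥ z) := by
    simp only [dotProduct_sub, dotProduct_smul, smul_eq_mul]
    ring
  rw [h2, h3, hv, one_mul, ← frame_form he h z] at h1
  refine abs_le_of_sq_le_sq' ?_ (by positivity) |> abs_le.2
  have := mul_nonneg (abs_nonneg (frameN e w ⬝ᵥ z)) (abs_nonneg (frameM e w ⬝ᵥ z))
  nlinarith [sq_abs (frameN e w ⬝ᵥ z), sq_abs (frameM e w ⬝ᵥ z)]

theorem frame_cyl {d : E} {s r : ℝ} (hs : s ^ 2 * (d ⬝ᵥ d) = 1) (a x : E) :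
    x ∈ cyl a d r ↔ (x - a) ⬝ᵥ (x - a) - ((s • d) ⬝ᵥ (x - a)) ^ 2 ≤ r ^ 2 := by
  have key : ∀ t : ℝ, ∑ i, (x i - (a i + t * d i)) ^ 2 =
      (x - a) ⬝ᵥ (x - a) - 2 * t * (d ⬝ᵥ (x - a)) + t ^ 2 * (d ⬝ᵥ d) := by
    intro t
    simp only [Fin.sum_univ_three, frame_dot, Pi.sub_apply]
    ring
  simp only [cyl, mem_ofPred_eq, key, smul_dotProduct, smul_eq_mul]
  generalize (x - a) ⬝ᵥ (x - a) = A
  generalize d ⬝ᵥ (x - a) = B
  have hd := frame_nonneg d
  generalize d ⬝ᵥ d = D at hs hd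
  constructor
  · rintro ⟨t, ht⟩
    have h1 : D * (t - s ^ 2 * B) ^ 2 = t ^ 2 * D - 2 * t * B + (s * B) ^ 2 := by
      linear_combination (-2 * t * B + s ^ 2 * B ^ 2) * hs
    nlinarith [mul_nonneg hd (sq_nonneg (t - s ^ 2 * B))]
  · intro h
    refine ⟨s ^ 2 * B, ?_⟩
    have h1 : (s ^ 2 * B) ^ 2 * D = (s * B) ^ 2 := by
      linear_combination (s ^ 2 * B ^ 2) * hs
    nlinarith

/-- The requirements on an auxiliary direction. -/
def frameOk {m : ℕ} (e : Fin m → E) (θ : ℝ) (w : E) : Prop :=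
  (∀ i, θ ^ 2 * (w ⬝ᵥ w) ≤ w ⬝ᵥ w - (e i ⬝ᵥ w) ^ 2) ∧
    ∀ i j, i ≠ j → θ ^ 2 * (w ⬝ᵥ w) * (1 - (e i ⬝ᵥ e j) ^ 2) ≤ (frameX (e i) (e j) ⬝ᵥ w) ^ 2

theorem frame_mom_pos (j : ℕ) : 0 < mom j ⬝ᵥ mom j := by
  refine frame_pos fun h => ?_
  have := congrFun h 0
  simp [mom] at this

theorem frame_choose (c : ℕ) : ∃ (N : ℕ) (θ : ℝ), 0 < θ ∧ θ ≤ 1 ∧
    ∀ (m : ℕ) (e : Fin m → E), m ≤ c → (∀ i, e i ⬝ᵥ e i = 1) →
      (∀ i j, i ≠ j → 0 < 1 - (e i ⬝ᵥ e j) ^ 2) → ∀ u : Fin m → E, (∀ i, u i ⬝ᵥ u i = 1) →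
        ∃ j : Fin N, frameOk e θ (mom j) ∧
          ∀ i, θ ^ 2 * (mom j ⬝ᵥ mom j) ≤ (u i ⬝ᵥ mom j) ^ 2 := by
  obtain ⟨θ, hθ, H⟩ := exists_mom (c + c * c)
  refine ⟨2 * (c + c * c) + 1, min θ 1, lt_min hθ one_pos, min_le_right _ _, ?_⟩
  intro m e hm he hne u hu
  have hv : ∀ p : Fin m × Fin m, ∃ v : E, v ⬝ᵥ v = 1 ∧ (p.1 = p.2 → e p.1 ⬝ᵥ v = 0) ∧
      (p.1 ≠ p.2 → ∀ w, (1 - (e p.1 ⬝ᵥ e p.2) ^ 2) * (v ⬝ᵥ w) ^ 2 =
        (frameX (e p.1) (e p.2) ⬝ᵥ w) ^ 2) := by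
    rintro ⟨i, j⟩
    by_cases hij : i = j
    · obtain ⟨v, h1, h2⟩ := frame_perp (e i)
      exact ⟨v, h1, fun _ => h2, fun h => absurd hij h⟩
    · have h1 : frameX (e i) (e j) ⬝ᵥ frameX (e i) (e j) = 1 - (e i ⬝ᵥ e j) ^ 2 := by
        rw [frame_lagrange, he, he, one_mul]
      obtain ⟨s, -, hs⟩ := frame_norm (h1 ▸ hne i j hij : 0 < frameX (e i) (e j) ⬝ᵥ _)
      refine ⟨s • frameX (e i) (e j), by rw [frame_smul, hs], fun h => absurd h hij,
        fun _ w => ?_⟩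
      rw [h1] at hs
      rw [smul_dotProduct, smul_eq_mul]
      linear_combination (frameX (e i) (e j) ⬝ᵥ w) ^ 2 * hs
  choose v v1 v2 v3 using hv
  obtain ⟨j, hj⟩ := H (Fin m ⊕ Fin m × Fin m) (Sum.elim u v)
    (by simpa using add_le_add hm (Nat.mul_le_mul hm hm)) (by rintro (i | p) <;> simp [hu, v1])
  have hle : min θ 1 ^ 2 * (mom j ⬝ᵥ mom j) ≤ θ ^ 2 * (mom j ⬝ᵥ mom j) :=
    mul_le_mul_of_nonneg_right
      (pow_le_pow_left₀ (lt_min hθ one_pos).le (min_le_left _ _) 2) (frame_nonneg _)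
  refine ⟨j, ⟨fun i => ?_, fun i i' h => ?_⟩, fun i => hle.trans (hj (Sum.inl i))⟩
  · exact (hle.trans (hj (Sum.inr (i, i)))).trans
      (frame_bessel (he i) (v1 (i, i)) (v2 (i, i) rfl) _)
  · have h1 := hle.trans (hj (Sum.inr (i, i')))
    rw [← v3 (i, i') h, mul_comm]
    exact mul_le_mul_of_nonneg_left h1 (hne i i' h).le

theorem frame_slope {a b w : E} {θ : ℝ} (hθ : 0 < θ) (ha : a ⬝ᵥ a = 1) (hb : b ⬝ᵥ b = 1)
    (hw : 0 < w ⬝ᵥ w - (b ⬝ᵥ w) ^ 2)
    (h : θ ^ 2 * (w ⬝ᵥ w) * (1 - (a ⬝ᵥ b) ^ 2) ≤ (frameX a b ⬝ᵥ w) ^ 2) :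
    θ * |frameM b w ⬝ᵥ a| ≤ |frameN b w ⬝ᵥ a| := by
  have h1 := frame_form hb hw a
  have h2 := frameR_sq hw
  have h3 := frameR_pos hw
  have h4 : (frameN b w ⬝ᵥ a) ^ 2 * frameR b w ^ 2 = (frameX a b ⬝ᵥ w) ^ 2 := by
    rw [frameN_dot]
    field_simp
    rw [frameX_dot, frameX_dot]
    ring
  rw [ha, dotProduct_comm b a] at h1
  have h5 : (frameM b w ⬝ᵥ a) ^ 2 ≤ 1 - (a ⬝ᵥ b) ^ 2 := by
    nlinarith [sq_nonneg (frameN b w ⬝ᵥ a)]
  have h6 : frameR b w ^ 2 ≤ w ⬝ᵥ w := by nlinarith [sq_nonneg (b ⬝ᵥ w)]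
  have h7 : (θ * (frameM b w ⬝ᵥ a)) ^ 2 * frameR b w ^ 2 ≤
      (frameN b w ⬝ᵥ a) ^ 2 * frameR b w ^ 2 := by
    rw [h4]
    refine le_trans ?_ h
    have := mul_le_mul h6 h5 (sq_nonneg _) (frame_nonneg w)
    nlinarith [mul_le_mul_of_nonneg_left this (sq_nonneg θ)]
  have h8 := le_of_mul_le_mul_right h7 (pow_pos h3 2)
  have h9 := sq_le_sq.1 h8
  rwa [abs_mul, abs_of_pos hθ] at h9

/-- The frames attached to unit directions `e` and admissible auxiliary directions `w`. -/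
noncomputable def frameGeo {m : ℕ} {W : Type} (e : Fin m → E) (w : W → E) {θ r : ℝ} (hθ : 0 < θ)
    (hr : 0 < r) (he : ∀ i, e i ⬝ᵥ e i = 1) (hne : ∀ i j, i ≠ j → 0 < 1 - (e i ⬝ᵥ e j) ^ 2)
    (hw : ∀ k, 0 < w k ⬝ᵥ w k) (ok : ∀ k, frameOk e θ (w k))
    (pk : ∀ u : Fin m → E, (∀ i, u i ⬝ᵥ u i = 1) →
      ∃ k, ∀ i, θ ^ 2 * (w k ⬝ᵥ w k) ≤ (u i ⬝ᵥ w k) ^ 2) : Geo (Fin m) W (θ⁻¹ + 1) θ :=
  have hρ : ∀ k i, 0 < w k ⬝ᵥ w k - (e i ⬝ᵥ w k) ^ 2 := fun k i =>
    (mul_pos (pow_pos hθ 2) (hw k)).trans_le ((ok k).1 i)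
  have hD : ∀ k i j, i ≠ j → frameX (e i) (e j) ⬝ᵥ w k ≠ 0 := fun k i j h h0 => by
    have h1 := (ok k).2 i j h
    have h2 := mul_pos (mul_pos (pow_pos hθ 2) (hw k)) (hne i j h)
    rw [h0] at h1
    linarith
  have hz : ∀ k i z, r⁻¹ * (frameN (e i) (w k) ⬝ᵥ z) = 0 → frameX (e i) (w k) ⬝ᵥ z = 0 :=
    fun k i z h => by
      rw [frameN_dot] at h
      simpa [hr.ne', (frameR_pos (hρ k i)).ne'] using h
  have hpr : ∀ k i v z, v ⬝ᵥ v = 1 → |r⁻¹ * (v ⬝ᵥ z) - r⁻¹ * (v ⬝ᵥ e i) * (e i ⬝ᵥ z)| ≤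
      |r⁻¹ * (frameN (e i) (w k) ⬝ᵥ z)| + |r⁻¹ * (frameM (e i) (w k) ⬝ᵥ z)| :=
    fun k i v z hv => by
      rw [mul_assoc, ← mul_sub, abs_mul, abs_mul, abs_mul, ← mul_add]
      exact mul_le_mul_of_nonneg_left (frame_proj (he i) (hρ k i) hv z) (abs_nonneg _)
  { τ := fun k i => r⁻¹ • frameL (frameN (e i) (w k))
    σ := fun k i => r⁻¹ • frameL (frameM (e i) (w k))
    Q := fun i z => (z ⬝ᵥ z - (e i ⬝ᵥ z) ^ 2) / r ^ 2
    form := fun k i z => by
      simp only [LinearMap.smul_apply, frameL_apply, smul_eq_mul]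
      rw [← frame_form (he i) (hρ k i) z]
      field_simp
    onto := fun k i s t => by
      refine ⟨(r * s) • frameN (e i) (w k) + (r * t) • frameM (e i) (w k), ?_, ?_⟩
      · simp only [LinearMap.smul_apply, frameL_apply, smul_eq_mul, dotProduct_add,
          dotProduct_smul, frameN_N (he i) (hρ k i),
          dotProduct_comm (frameN (e i) (w k)) (frameM (e i) (w k)), frameM_N]
        field_simp
        ring
      · simp only [LinearMap.smul_apply, frameL_apply, smul_eq_mul, dotProduct_add,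
          dotProduct_smul, frameM_M (he i) (hρ k i), frameM_N]
        field_simp
        ring
    ker := fun k i j z hij h1 h2 l => by
      simp only [LinearMap.smul_apply, frameL_apply, smul_eq_mul] at h1 h2 ⊢
      obtain ⟨t, rfl⟩ := frame_two (hw k) (hD k i j hij) (hz k i z h1) (hz k j z h2)
      rw [dotProduct_smul, frameN_w]
      simp
    line := fun k i j z hij h1 h2 l => by
      simp only [LinearMap.smul_apply, frameL_apply, smul_eq_mul] at h1 h2 ⊢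
      obtain ⟨t, rfl⟩ := frame_two (hw k) (hD k i j hij) (hz k i z h1) (hz k j z h2)
      rw [← mul_div_assoc]
      refine div_le_div_of_nonneg_right ?_ (sq_nonneg r)
      rw [frame_smul, dotProduct_smul, dotProduct_smul, smul_eq_mul, smul_eq_mul]
      have a1 := (ok k).1 i
      have a2 : 1 ≤ (θ⁻¹ + 1) ^ 2 * θ ^ 2 := by
        have : (θ⁻¹ + 1) * θ = 1 + θ := by field_simp
        rw [← mul_pow, this]
        nlinarith
      have a3 := mul_le_mul_of_nonneg_left a1 (sq_nonneg (θ⁻¹ + 1))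
      have a4 := mul_le_mul_of_nonneg_right a2 (hw k).le
      have a5 : w k ⬝ᵥ w k ≤ (θ⁻¹ + 1) ^ 2 * (w k ⬝ᵥ w k - (e i ⬝ᵥ w k) ^ 2) := by nlinarith
      nlinarith [mul_le_mul_of_nonneg_left a5 (sq_nonneg t), sq_nonneg (t * (e l ⬝ᵥ w k))]
    slope := fun k i j z hij => by
      simp only [LinearMap.smul_apply, frameL_apply, smul_eq_mul]
      have a1 := hpr k i _ z (frameN_N (he j) (hρ k j))
      have a2 := hpr k i _ z (frameM_M (he j) (hρ k j))
      have a3 := frame_slope hθ (he i) (he j) (hρ k j) ((ok k).2 i j hij)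
      have a4 : θ * |r⁻¹ * (frameM (e j) (w k) ⬝ᵥ e i) * (e i ⬝ᵥ z)| ≤
          |r⁻¹ * (frameN (e j) (w k) ⬝ᵥ e i) * (e i ⬝ᵥ z)| := by
        simp only [abs_mul]
        have := mul_le_mul_of_nonneg_left a3 (mul_nonneg (abs_nonneg r⁻¹) (abs_nonneg (e i ⬝ᵥ z)))
        nlinarith
      generalize |r⁻¹ * (frameN (e i) (w k) ⬝ᵥ z)| = A at a1 a2 ⊢
      generalize |r⁻¹ * (frameM (e i) (w k) ⬝ᵥ z)| = B at a1 a2 ⊢
      generalize r⁻¹ * (frameN (e j) (w k) ⬝ᵥ z) = p at a1 ⊢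
      generalize r⁻¹ * (frameM (e j) (w k) ⬝ᵥ z) = q at a2 ⊢
      generalize r⁻¹ * (frameN (e j) (w k) ⬝ᵥ e i) * (e i ⬝ᵥ z) = p' at a1 a4
      generalize r⁻¹ * (frameM (e j) (w k) ⬝ᵥ e i) * (e i ⬝ᵥ z) = q' at a2 a4
      have b1 : |q| ≤ |q'| + (A + B) := by linarith [abs_sub_abs_le_abs_sub q q']
      have b2 : |p'| ≤ |p| + (A + B) := by
        linarith [abs_sub_abs_le_abs_sub p' p, abs_sub_comm p p']
      have b3 : |q'| ≤ θ⁻¹ * (|p| + A + B) := by
        rw [le_inv_mul_iff₀ hθ]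
        linarith
      nlinarith [abs_nonneg p]
    axis := fun k i => by
      refine ⟨frameL (e i), fun j hij => ⟨r⁻¹ * (frameN (e j) (w k) ⬝ᵥ e i), fun h => ?_,
        fun z => hpr k i _ z (frameN_N (he j) (hρ k j))⟩⟩
      have h1 := hz k j _ h
      apply hD k i j hij
      rw [frameX_dot] at h1 ⊢
      linear_combination h1
    pick := fun z hq => by
      have hq' : ∀ i, z i ⬝ᵥ z i - (e i ⬝ᵥ z i) ^ 2 = r ^ 2 := fun i => by
        have := hq i
        field_simp at this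
        exact this
      obtain ⟨k, hk⟩ := pk (fun i => r⁻¹ • (z i - (e i ⬝ᵥ z i) • e i)) fun i => by
        rw [frame_smul]
        simp only [sub_dotProduct, dotProduct_sub, smul_dotProduct, dotProduct_smul, smul_eq_mul,
          he i, dotProduct_comm (z i) (e i)]
        field_simp
        linear_combination hq' i
      refine ⟨k, fun i => ?_⟩
      have a1 := hk i
      have a2 := frameR_sq (hρ k i)
      have a3 := frameR_pos (hρ k i)
      simp only [LinearMap.smul_apply, frameL_apply, smul_eq_mul, frameM_dot]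
      simp only [smul_dotProduct, sub_dotProduct, smul_eq_mul, dotProduct_comm (z i) (w k)] at a1
      refine le_trans (le_abs_self θ) (sq_le_sq.1 ?_)
      refine le_of_mul_le_mul_right ?_ (pow_pos a3 2)
      have a4 : (r⁻¹ * ((frameR (e i) (w k))⁻¹ *
          (w k ⬝ᵥ z i - (e i ⬝ᵥ w k) * (e i ⬝ᵥ z i)))) ^ 2 * frameR (e i) (w k) ^ 2 =
          (r⁻¹ * (w k ⬝ᵥ z i - (e i ⬝ᵥ z i) * (e i ⬝ᵥ w k))) ^ 2 := by
        field_simp
      rw [a4, a2]
      nlinarith [mul_nonneg (sq_nonneg θ) (sq_nonneg (e i ⬝ᵥ w k))] }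

theorem frameGeo_Q {m : ℕ} {W : Type} (e : Fin m → E) (w : W → E) {θ r : ℝ} (hθ : 0 < θ)
    (hr : 0 < r) (he : ∀ i, e i ⬝ᵥ e i = 1) (hne : ∀ i j, i ≠ j → 0 < 1 - (e i ⬝ᵥ e j) ^ 2)
    (hw : ∀ k, 0 < w k ⬝ᵥ w k) (ok : ∀ k, frameOk e θ (w k))
    (pk : ∀ u : Fin m → E, (∀ i, u i ⬝ᵥ u i = 1) →
      ∃ k, ∀ i, θ ^ 2 * (w k ⬝ᵥ w k) ≤ (u i ⬝ᵥ w k) ^ 2) (i : Fin m) (z : E) :
    (frameGeo e w hθ hr he hne hw ok pk).Q i z = (z ⬝ᵥ z - (e i ⬝ᵥ z) ^ 2) / r ^ 2 := rfl

theorem exists_geo (c : ℕ) : ∃ (N : ℕ) (l θ : ℝ), 0 ≤ l ∧ 0 < θ ∧ θ ≤ 1 ∧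
    ∀ (m : ℕ) (dir : Fin m → E) (r : ℝ), m ≤ c → 0 < r → (∀ i, dir i ≠ 0) →
      (∀ i j, i ≠ j → ∀ t : ℝ, dir i ≠ t • dir j) →
      ∃ (W : Finset (Fin N)) (G : Geo (Fin m) W l θ), W.Nonempty ∧
        ∀ i a x, x ∈ cyl a (dir i) r ↔ G.Q i (x - a) ≤ 1 := by
  obtain ⟨N, θ, hθ, hθ1, H⟩ := frame_choose c
  refine ⟨N, θ⁻¹ + 1, θ, by positivity, hθ, hθ1, fun m dir r hm hr hd hp => ?_⟩
  choose s s0 hs using fun i => frame_norm (frame_pos (hd i))
  have he : ∀ i, (s i • dir i) ⬝ᵥ (s i • dir i) = 1 := fun i => by rw [frame_smul, hs]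
  have hne : ∀ i j, i ≠ j → 0 < 1 - ((s i • dir i) ⬝ᵥ (s j • dir j)) ^ 2 := by
    intro i j hij
    have h1 := frame_lagrange (s i • dir i) (s j • dir j)
    rw [he, he, one_mul] at h1
    rw [← h1]
    refine frame_pos fun h => ?_
    obtain ⟨t, ht⟩ := frame_par (by rw [he]; exact one_pos) h
    refine hp i j hij ((s i)⁻¹ * (t * s j)) ?_
    rw [mul_smul, mul_smul, ← ht, smul_smul, inv_mul_cancel₀ (s0 i).ne', one_smul]
  have hc : ∀ i a x, x ∈ cyl a (dir i) r ↔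
      (x - a) ⬝ᵥ (x - a) - ((s i • dir i) ⬝ᵥ (x - a)) ^ 2 ≤ r ^ 2 := fun i => frame_cyl (hs i)
  obtain ⟨e, hee⟩ : ∃ e : Fin m → E, ∀ i, s i • dir i = e i := ⟨_, fun _ => rfl⟩
  simp only [hee] at he hne hc
  have H' := H m e hm he hne
  obtain ⟨W, hW⟩ : ∃ W : Finset (Fin N), ∀ j, j ∈ W ↔ frameOk e θ (mom j) :=
    ⟨Finset.univ.filter fun j => frameOk e θ (mom j), fun j => by simp⟩
  have pk : ∀ u : Fin m → E, (∀ i, u i ⬝ᵥ u i = 1) → ∃ k : W, ∀ i,
      θ ^ 2 * (mom k.1 ⬝ᵥ mom k.1) ≤ (u i ⬝ᵥ mom k.1) ^ 2 := fun u hu => by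
    obtain ⟨j, h1, h2⟩ := H' u hu
    exact ⟨⟨j, (hW j).2 h1⟩, h2⟩
  refine ⟨W, frameGeo e (fun k : W => mom k.1) hθ hr he hne (fun k => frame_mom_pos _)
    (fun k => (hW k.1).1 k.2) pk, ?_, fun i a x => ?_⟩
  · obtain ⟨j, h1, -⟩ := H' _ he
    exact ⟨j, (hW j).2 h1⟩
  · rw [hc, frameGeo_Q, div_le_one (pow_pos hr 2)]

end Pool.Agent.Cyl
end

-- part Pool.Agent.P.MP_8a0bcd_co.Tube
section

/-! Classes of the common refinement along one tube. -/

set_option autoImplicit false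

namespace Pool.Agent.Cyl

open Set
open scoped Classical

theorem tube_convex (α β : Fn) (o : E) (ρ : ℝ) : Convex ℝ (tube α β o ρ) := by
  have key : ∀ f : Fn, Convex ℝ {y : E | |f (y - o)| ≤ ρ} := by
    intro f
    have : {y : E | |f (y - o)| ≤ ρ} = f ⁻¹' Icc (f o - ρ) (f o + ρ) := by
      ext y
      simp only [mem_ofPred_eq, map_sub, abs_le, mem_preimage, mem_Icc]
      constructor
      · rintro ⟨h1, h2⟩
        constructor <;> linarith
      · rintro ⟨h1, h2⟩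
        constructor <;> linarith
    rw [this]
    exact (convex_Icc _ _).linear_preimage f
  exact (key α).inter (key β)

theorem tube_lab_mono (Γ : Finset ℝ) {s t : ℝ} (h : s ≤ t) :
    Γ.filter (· ≤ s) ⊆ Γ.filter (· ≤ t) :=
  Finset.monotone_filter_right _ fun _ _ a => a.trans h

theorem tube_lab_convex (γ : Fn) (Γ : Finset ℝ) (n : ℕ) :
    Convex ℝ {x : E | (lab γ Γ x).card = n} := by
  have h : OrdConnected {t : ℝ | (Γ.filter (· ≤ t)).card = n} := by
    refine ⟨fun s hs t ht u hu => ?_⟩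
    have a := Finset.card_le_card (tube_lab_mono Γ hu.1)
    have b := Finset.card_le_card (tube_lab_mono Γ hu.2)
    simp only [mem_ofPred_eq] at hs ht ⊢
    omega
  exact h.convex.linear_preimage γ

theorem tube_lab_iff {γ : Fn} {Γ : Finset ℝ} {x y : E}
    (h : (lab γ Γ x).card = (lab γ Γ y).card) {t : ℝ} (ht : t ∈ Γ) : t ≤ γ x ↔ t ≤ γ y := by
  have e : lab γ Γ x = lab γ Γ y := by
    rcases le_total (γ x) (γ y) with c | c
    · exact Finset.eq_of_subset_of_card_le (tube_lab_mono Γ c) h.ge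
    · exact (Finset.eq_of_subset_of_card_le (tube_lab_mono Γ c) h.le).symm
  have := Finset.ext_iff.1 e t
  simpa [lab, ht] using this

theorem tube_card {ι W κ : Type} [Fintype ι] {l θ : ℝ} (hl : 0 ≤ l) (G : Geo ι W l θ) (w : W)
    (K : ι → Finset κ) (a : κ → E) {m C : ℕ}
    (P : ∀ i, Col (G.τ w i) (G.σ w i) (K i) a (100 * (l + 1)) m C) (i : ι) (o : E) :
    ((Lab.prod fun j => (P j).L).cl (tube (G.τ w i) (G.σ w i) o 4)).card ≤
      (2 * ∑ j, (K j).card + 1) * (C + 1) ^ Fintype.card ι := by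
  obtain ⟨γ, hγ⟩ := G.axis w i
  choose! q hq0 hq using hγ
  -- the centre and the half width of the window of the disc `k` of the family `j`
  set c : ι → κ → ℝ := fun j k => γ o + G.τ w j (a k - o) / q j with hc
  set ρ : ι → ℝ := fun j => 12 / |q j| with hρ
  set Γ : Finset ℝ := Finset.univ.biUnion fun j => (K j).biUnion fun k =>
    {c j k - ρ j, c j k + ρ j} with hΓ
  have hΓc : Γ.card ≤ 2 * ∑ j, (K j).card := by
    rw [Finset.mul_sum]
    refine Finset.card_biUnion_le.trans (Finset.sum_le_sum fun j _ => ?_)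
    rw [mul_comm]
    exact Finset.card_biUnion_le_card_mul _ _ _ fun k _ => Finset.card_le_two
  have hΓm : ∀ j, ∀ k ∈ K j, c j k - ρ j ∈ Γ ∧ c j k + ρ j ∈ Γ := fun j k hk =>
    ⟨Finset.mem_biUnion.2 ⟨j, Finset.mem_univ _, Finset.mem_biUnion.2 ⟨k, hk, by simp⟩⟩,
      Finset.mem_biUnion.2 ⟨j, Finset.mem_univ _, Finset.mem_biUnion.2 ⟨k, hk, by simp⟩⟩⟩
  set T := tube (G.τ w i) (G.σ w i) o 4 with hT
  set S : ℕ → Set E := fun n => T ∩ {x : E | (lab γ Γ x).card = n} with hS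
  have hTs : ∀ x ∈ T, ∀ y ∈ T, |G.τ w i (x - y)| ≤ 8 ∧ |G.σ w i (x - y)| ≤ 8 := by
    intro x hx y hy
    obtain ⟨h1, h2⟩ := hx
    obtain ⟨h3, h4⟩ := hy
    simp only [map_sub, abs_le] at h1 h2 h3 h4 ⊢
    refine ⟨⟨?_, ?_⟩, ?_, ?_⟩ <;> linarith [h1.1, h1.2, h2.1, h2.2, h3.1, h3.2, h4.1, h4.2]
  have hTq : ∀ j, i ≠ j → ∀ k, ∀ x ∈ T,
      |G.τ w j (x - a k) - q j * (γ x - c j k)| ≤ 8 := by
    intro j hj k x hx
    have h1 := hq j hj (x - o)
    have h0 := hq0 j hj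
    have e : G.τ w j (x - a k) - q j * (γ x - c j k) = G.τ w j (x - o) - q j * γ (x - o) := by
      simp only [hc, map_sub]
      field_simp
      ring
    rw [e]
    linarith [hx.1, hx.2]
  have hone : ∀ n j, ((P j).L.cl (S n)).card ≤ C + 1 := by
    intro n j
    by_cases hj : i = j
    · subst hj
      refine ((P i).loc _ fun x hx y hy => ?_).trans (Nat.le_succ _)
      obtain ⟨h1, h2⟩ := hTs x hx.1 y hy.1
      constructor <;> nlinarith
    have h0 : 0 < |q j| := abs_pos.2 (hq0 j hj)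
    have hρq : |q j| * ρ j = 12 := by
      simp only [hρ]
      field_simp
    by_cases hA : ∃ k ∈ K j, ∃ x0 ∈ S n, |γ x0 - c j k| < ρ j
    · obtain ⟨k, hk, x0, hx0, hlt⟩ := hA
      rw [abs_lt] at hlt
      have hall : ∀ x ∈ S n, |G.τ w j (x - a k)| ≤ 20 := by
        intro x hx
        have e : (lab γ Γ x).card = (lab γ Γ x0).card := hx.2.trans hx0.2.symm
        have a1 := (tube_lab_iff e (hΓm j k hk).1).2 (by linarith [hlt.1])
        have a2 : ¬ c j k + ρ j ≤ γ x := fun h =>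
          absurd ((tube_lab_iff e (hΓm j k hk).2).1 h) (by linarith [hlt.2])
        have a3 : |γ x - c j k| ≤ ρ j := abs_le.2 ⟨by linarith, by linarith [not_le.1 a2]⟩
        have a4 : |q j * (γ x - c j k)| ≤ 12 := by
          rw [abs_mul, ← hρq]
          exact mul_le_mul_of_nonneg_left a3 h0.le
        have a5 := hTq j hj k x hx.1
        rw [abs_le] at a4 a5 ⊢
        constructor <;> linarith [a4.1, a4.2, a5.1, a5.2]
      refine ((P j).loc _ fun x hx y hy => ?_).trans (Nat.le_succ _)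
      have b1 : |G.τ w j (x - y)| ≤ 40 := by
        have h1 := hall x hx
        have h2 := hall y hy
        simp only [map_sub, abs_le] at h1 h2 ⊢
        constructor <;> linarith [h1.1, h1.2, h2.1, h2.2]
      obtain ⟨b2, b3⟩ := hTs x hx.1 y hy.1
      have b4 := G.slope w i j (x - y) hj
      have b5 : l * (|G.τ w j (x - y)| + |G.τ w i (x - y)| + |G.σ w i (x - y)|) ≤ l * 56 :=
        mul_le_mul_of_nonneg_left (by linarith) hl
      constructor <;> nlinarith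
    · have hfar : ∀ x ∈ S n, ∀ k ∈ K j, ¬ |G.τ w j (x - a k)| ≤ 3 := by
        intro x hx k hk h3
        have a3 : ρ j ≤ |γ x - c j k| := not_lt.1 fun h => hA ⟨k, hk, x, hx, h⟩
        have a4 : 12 ≤ |q j * (γ x - c j k)| := by
          rw [abs_mul, ← hρq]
          exact mul_le_mul_of_nonneg_left a3 h0.le
        have a5 := hTq j hj k x hx.1
        have a6 := abs_sub_abs_le_abs_sub (q j * (γ x - c j k)) (G.τ w j (x - a k))
        rw [abs_sub_comm] at a6
        linarith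
      have hsub : S n ⊆ (P j).L.G := by
        intro x hx
        by_contra hb
        rcases (P j).bad x hb with h | ⟨k, hk, h⟩
        · obtain ⟨k, hk, h'⟩ := (P j).near _ h
          exact hfar x hx k hk (by rwa [map_sub])
        · exact hfar x hx k hk h.1
      have hconv : Convex ℝ (S n) := (tube_convex _ _ _ _).inter (tube_lab_convex γ Γ n)
      refine le_trans (Finset.card_le_one.2 fun R hR R' hR' => ?_) (Nat.le_add_left 1 C)
      obtain ⟨x, hx, -, rfl⟩ := Lab.mem_cl.1 hR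
      obtain ⟨y, hy, -, rfl⟩ := Lab.mem_cl.1 hR'
      exact (P j).L.conn hconv.isPreconnected hsub hy hx
  have hcov := Lab.card_cl_le_sum (Lab.prod fun j => (P j).L) T (Finset.range (Γ.card + 1)) S
    fun x hx _ => ⟨(lab γ Γ x).card,
      Finset.mem_range.2 (Nat.lt_succ_of_le (Finset.card_filter_le _ _)), hx, rfl⟩
  refine hcov.trans ((Finset.sum_le_card_nsmul _ _ ((C + 1) ^ Fintype.card ι) fun n _ => ?_).trans ?_)
  · refine (Lab.prod_card _ _).trans ?_
    rw [← Finset.card_univ, ← Finset.prod_const]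
    exact Finset.prod_le_prod' fun j _ => hone n j
  · rw [Finset.card_range, smul_eq_mul]
    exact Nat.mul_le_mul_right _ (Nat.succ_le_succ hΓc)

end Pool.Agent.Cyl
end

-- part Pool.Agent.P.MP_8a0bcd_co.Arr
section

/-! Arrangements of planes parallel to one line. -/

set_option autoImplicit false

namespace Pool.Agent.Cyl

open Set
open scoped Classical

/-- The labels of `x` at the indices of `S`. -/
noncomputable def arrTup {ι : Type} (τ : ι → Fn) (A : ι → Finset ℝ) (S : Finset ι) (x : E) :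
    ι → Finset ℝ := fun i => if i ∈ S then lab (τ i) (A i) x else ∅

/-- The label tuples realised on `R`. -/
noncomputable def arrT {ι : Type} [Fintype ι] (τ : ι → Fn) (A : ι → Finset ℝ) (S : Finset ι)
    (R : Set E) : Finset (ι → Finset ℝ) :=
  (Fintype.piFinset fun i => (A i).powerset).filter fun B => ∃ x ∈ R, arrTup τ A S x = B

theorem arr_mem {ι : Type} [Fintype ι] {τ : ι → Fn} {A : ι → Finset ℝ} {S : Finset ι}
    {R : Set E} {B : ι → Finset ℝ} : B ∈ arrT τ A S R ↔ ∃ x ∈ R, arrTup τ A S x = B := by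
  unfold arrT
  rw [Finset.mem_filter]
  refine ⟨fun h => h.2, fun h => ⟨?_, h⟩⟩
  obtain ⟨x, -, rfl⟩ := h
  rw [Fintype.mem_piFinset]
  intro i
  rw [Finset.mem_powerset]
  unfold arrTup
  split_ifs
  · exact Finset.filter_subset _ _
  · exact Finset.empty_subset _

theorem arr_lab_mono {l : Fn} {Θ : Finset ℝ} {x y : E} (h : l x ≤ l y) :
    lab l Θ x ⊆ lab l Θ y := by
  intro a ha
  unfold lab at ha ⊢
  rw [Finset.mem_filter] at ha ⊢
  exact ⟨ha.1, ha.2.trans h⟩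

theorem arr_lab_seg {l : Fn} {Θ : Finset ℝ} {x y : E} (h : lab l Θ x = lab l Θ y) {s t : ℝ}
    (hs : 0 ≤ s) (ht : 0 ≤ t) (hst : s + t = 1) : lab l Θ (s • x + t • y) = lab l Θ y := by
  have e : l (s • x + t • y) = s * l x + t * l y := by simp
  have hs' : s = 1 - t := by linarith
  rcases le_total (l x) (l y) with hxy | hxy
  · apply Finset.Subset.antisymm
    · exact arr_lab_mono (by rw [e, hs']; nlinarith [mul_nonneg hs (sub_nonneg.2 hxy)])
    · rw [← h]
      exact arr_lab_mono (by rw [e, hs']; nlinarith)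
  · apply Finset.Subset.antisymm
    · rw [← h]
      exact arr_lab_mono (by rw [e, hs']; nlinarith)
    · exact arr_lab_mono (by rw [e, hs']; nlinarith [mul_nonneg hs (sub_nonneg.2 hxy)])

theorem arr_upd {ι : Type} (τ : ι → Fn) (A : ι → Finset ℝ) {S : Finset ι} {j : ι} (hj : j ∉ S)
    (x : E) : Function.update (arrTup τ A (insert j S) x) j ∅ = arrTup τ A S x := by
  funext i
  by_cases h : i = j
  · subst h
    simp [arrTup, hj]
  · simp [arrTup, h]

theorem arr_upd' {ι : Type} (τ : ι → Fn) (A : ι → Finset ℝ) (S : Finset ι) (j : ι)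
    (x : E) : Function.update (arrTup τ A S x) j (lab (τ j) (A j) x) =
      arrTup τ A (insert j S) x := by
  funext i
  by_cases h : i = j
  · subst h
    simp [arrTup]
  · simp [arrTup, h]

theorem arr_at {ι : Type} (τ : ι → Fn) (A : ι → Finset ℝ) (S : Finset ι) (j : ι) (x : E) :
    arrTup τ A (insert j S) x j = lab (τ j) (A j) x := by
  simp [arrTup]

theorem arr_step {ι : Type} [Fintype ι] (τ : ι → Fn) (A : ι → Finset ℝ) {S : Finset ι} {j : ι}
    (hj : j ∉ S) {R : Set E} (hR : Convex ℝ R) :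
    (arrT τ A (insert j S) R).card ≤ (arrT τ A S R).card +
      ∑ a ∈ A j, (arrT τ A S (R ∩ {x | τ j x = a})).card := by
  set T := arrT τ A (insert j S) R with hT
  let P : (ι → Finset ℝ) → Prop := fun B =>
    ∃ B' ∈ T, Function.update B' j ∅ = Function.update B j ∅ ∧ B' j ⊂ B j
  rw [← Finset.card_filter_add_card_filter_not (s := T) P, add_comm]
  refine add_le_add ?_ ?_
  · refine Finset.card_le_card_of_injOn (fun B => Function.update B j ∅) ?_ ?_
    · intro B hB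
      obtain ⟨x, hx, rfl⟩ := arr_mem.1 (Finset.mem_filter.1 (Finset.mem_coe.1 hB)).1
      exact Finset.mem_coe.2 (arr_mem.2 ⟨x, hx, (arr_upd τ A hj x).symm⟩)
    · have key : ∀ B ∈ T, ∀ B' ∈ T, ¬ P B' → Function.update B j ∅ = Function.update B' j ∅ →
          B j ⊆ B' j → B = B' := by
        intro B hB B' _ hP e hsub
        have hjj : B j = B' j := by
          by_contra hne
          exact hP ⟨B, hB, e, Finset.ssubset_iff_subset_ne.2 ⟨hsub, hne⟩⟩
        funext i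
        by_cases h : i = j
        · rw [h, hjj]
        · have := congrFun e i
          rwa [Function.update_of_ne h, Function.update_of_ne h] at this
      intro B hB B' hB' e
      obtain ⟨hB1, hB2⟩ := Finset.mem_filter.1 (Finset.mem_coe.1 hB)
      obtain ⟨hB1', hB2'⟩ := Finset.mem_filter.1 (Finset.mem_coe.1 hB')
      obtain ⟨x, -, ex⟩ := arr_mem.1 hB1
      obtain ⟨y, -, ey⟩ := arr_mem.1 hB1'
      rcases le_total (τ j x) (τ j y) with h | h
      · refine key B hB1 B' hB1' hB2' e ?_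
        rw [← ex, ← ey, arr_at, arr_at]
        exact arr_lab_mono h
      · refine (key B' hB1' B hB1 hB2 e.symm ?_).symm
        rw [← ex, ← ey, arr_at, arr_at]
        exact arr_lab_mono h
  · refine le_trans (Finset.card_le_card (t := (A j).biUnion fun a =>
      (arrT τ A S (R ∩ {x | τ j x = a})).image
        fun C => Function.update C j ((A j).filter (· ≤ a))) ?_) ?_
    · intro B hB
      obtain ⟨hB1, B', hB', e, hlt⟩ := Finset.mem_filter.1 hB
      obtain ⟨x, hx, rfl⟩ := arr_mem.1 hB1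
      obtain ⟨y, hy, rfl⟩ := arr_mem.1 hB'
      rw [arr_upd τ A hj, arr_upd τ A hj] at e
      rw [arr_at, arr_at] at hlt
      obtain ⟨b, hb, hb'⟩ := Finset.exists_of_ssubset hlt
      obtain ⟨a, ha, hmax⟩ := Finset.exists_max_image (lab (τ j) (A j) x) id ⟨b, hb⟩
      have ha' := Finset.mem_filter.1 ha
      have hb1 := Finset.mem_filter.1 hb
      have hyb : τ j y < b := by
        by_contra hcon
        exact hb' (Finset.mem_filter.2 ⟨hb1.1, not_lt.1 hcon⟩)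
      have hba : b ≤ a := hmax b hb
      have hax : a ≤ τ j x := ha'.2
      have hpos : 0 < τ j x - τ j y := by linarith
      set t := (a - τ j y) / (τ j x - τ j y) with ht
      have ht0 : 0 ≤ t := div_nonneg (by linarith) hpos.le
      have ht1 : t ≤ 1 := (div_le_one hpos).2 (by linarith)
      have htm : t * (τ j x - τ j y) = a - τ j y := div_mul_cancel₀ _ hpos.ne'
      have hz : τ j ((1 - t) • y + t • x) = a := by
        rw [map_add, map_smul, map_smul, smul_eq_mul, smul_eq_mul]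
        linarith
      have hzS : arrTup τ A S ((1 - t) • y + t • x) = arrTup τ A S x := by
        funext i
        have ei := congrFun e i
        unfold arrTup at ei ⊢
        by_cases hi : i ∈ S
        · rw [if_pos hi, if_pos hi] at ei ⊢
          exact arr_lab_seg ei (by linarith) ht0 (by ring)
        · rw [if_neg hi, if_neg hi]
      refine Finset.mem_biUnion.2 ⟨a, ha'.1, Finset.mem_image.2 ⟨arrTup τ A S x,
        arr_mem.2 ⟨_, ⟨hR hy hx (by linarith) ht0 (by ring), hz⟩, hzS⟩, ?_⟩⟩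
      rw [← arr_upd']
      have : (A j).filter (· ≤ a) = lab (τ j) (A j) x := by
        ext c
        constructor
        · intro hc
          have hc' := Finset.mem_filter.1 hc
          exact Finset.mem_filter.2 ⟨hc'.1, hc'.2.trans hax⟩
        · intro hc
          exact Finset.mem_filter.2 ⟨(Finset.mem_filter.1 hc).1, hmax c hc⟩
      rw [this]
    · exact Finset.card_biUnion_le.trans (Finset.sum_le_sum fun a _ => Finset.card_image_le)

theorem arr_empty {ι : Type} [Fintype ι] (τ : ι → Fn) (A : ι → Finset ℝ) (R : Set E) :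
    (arrT τ A ∅ R).card ≤ 1 := by
  refine Finset.card_le_one.2 fun B hB B' hB' => ?_
  obtain ⟨x, -, rfl⟩ := arr_mem.1 hB
  obtain ⟨y, -, rfl⟩ := arr_mem.1 hB'
  funext i
  simp [arrTup]

theorem arr_const {ι : Type} [Fintype ι] (τ : ι → Fn) (A : ι → Finset ℝ) (S : Finset ι)
    {R : Set E} (h : ∀ x ∈ R, ∀ y ∈ R, ∀ k, τ k x = τ k y) :
    (arrT τ A S R).card ≤ if R.Nonempty then 1 else 0 := by
  split_ifs with hne
  · refine Finset.card_le_one.2 fun B hB B' hB' => ?_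
    obtain ⟨x, hx, rfl⟩ := arr_mem.1 hB
    obtain ⟨y, hy, rfl⟩ := arr_mem.1 hB'
    funext i
    unfold arrTup lab
    rw [h x hx y hy i]
  · rw [Nat.le_zero, Finset.card_eq_zero, Finset.eq_empty_iff_forall_notMem]
    intro B hB
    obtain ⟨x, hx, -⟩ := arr_mem.1 hB
    exact hne ⟨x, hx⟩

theorem arr_conv {R : Set E} (hR : Convex ℝ R) (l : Fn) (a : ℝ) :
    Convex ℝ (R ∩ {x | l x = a}) :=
  hR.inter (convex_hyperplane l.isLinear a)

theorem arr_line {ι : Type} [Fintype ι] (τ : ι → Fn) (A : ι → Finset ℝ)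
    (H : ∀ i j z, i ≠ j → τ i z = 0 → τ j z = 0 → ∀ k, τ k z = 0) {R : Set E}
    (hR : Convex ℝ R) (j : ι) (a : ℝ) (S : Finset ι) (hj : j ∉ S) :
    (arrT τ A S (R ∩ {x | τ j x = a})).card ≤
      1 + ∑ i ∈ S, ((A i).filter fun a' => ∃ x ∈ R, τ j x = a ∧ τ i x = a').card := by
  induction S using Finset.induction_on with
  | empty => simpa using arr_empty τ A _
  | insert i S hi ih =>
    have hij : j ≠ i := fun h => hj (h ▸ Finset.mem_insert_self _ _)
    have h1 := arr_step τ A hi (arr_conv hR (τ j) a)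
    have h2 := ih fun h => hj (Finset.mem_insert_of_mem h)
    have h3 : ∑ a' ∈ A i, (arrT τ A S (R ∩ {x | τ j x = a} ∩ {x | τ i x = a'})).card ≤
        ((A i).filter fun a' => ∃ x ∈ R, τ j x = a ∧ τ i x = a').card := by
      rw [Finset.card_filter]
      refine Finset.sum_le_sum fun a' _ => ?_
      refine (arr_const τ A S ?_).trans ?_
      · rintro x ⟨⟨-, hx1⟩, hx2⟩ y ⟨⟨-, hy1⟩, hy2⟩ k
        have := H j i (x - y) hij (by rw [map_sub, hx1, hy1, sub_self])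
          (by rw [map_sub, hx2, hy2, sub_self]) k
        rwa [map_sub, sub_eq_zero] at this
      · split_ifs with p q
        · exact le_rfl
        · obtain ⟨x, ⟨hx, hx1⟩, hx2⟩ := p
          exact absurd ⟨x, hx, hx1, hx2⟩ q
        · exact Nat.zero_le _
        · exact le_rfl
    rw [Finset.sum_insert hi]
    omega

theorem arr_all {ι : Type} [Fintype ι] (τ : ι → Fn) (A : ι → Finset ℝ)
    (H : ∀ i j z, i ≠ j → τ i z = 0 → τ j z = 0 → ∀ k, τ k z = 0) {R : Set E}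
    (hR : Convex ℝ R) (S : Finset ι) :
    (arrT τ A S R).card ≤ 1 + ∑ i ∈ S, (A i).card + ∑ i ∈ S, ∑ j ∈ S.erase i,
        ((A i ×ˢ A j).filter fun p => ∃ x ∈ R, τ i x = p.1 ∧ τ j x = p.2).card := by
  induction S using Finset.induction_on with
  | empty => simpa using arr_empty τ A _
  | insert j S hj ih =>
    have h1 := arr_step τ A hj hR
    have h2 : ∑ a ∈ A j, (arrT τ A S (R ∩ {x | τ j x = a})).card ≤ (A j).card + ∑ i ∈ S,
        ((A j ×ˢ A i).filter fun p => ∃ x ∈ R, τ j x = p.1 ∧ τ i x = p.2).card := by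
      refine (Finset.sum_le_sum fun a _ => arr_line τ A H hR j a S hj).trans (le_of_eq ?_)
      rw [Finset.sum_add_distrib, Finset.sum_comm, ← Finset.card_eq_sum_ones]
      refine congrArg _ (Finset.sum_congr rfl fun i _ => ?_)
      rw [Finset.card_filter, Finset.sum_product]
      exact Finset.sum_congr rfl fun a _ => Finset.card_filter _ _
    have h3 : ∑ i ∈ S, ∑ k ∈ S.erase i,
        ((A i ×ˢ A k).filter fun p => ∃ x ∈ R, τ i x = p.1 ∧ τ k x = p.2).card ≤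
        ∑ i ∈ S, ∑ k ∈ (insert j S).erase i,
        ((A i ×ˢ A k).filter fun p => ∃ x ∈ R, τ i x = p.1 ∧ τ k x = p.2).card :=
      Finset.sum_le_sum fun i _ => Finset.sum_le_sum_of_subset
        (Finset.erase_subset_erase _ (Finset.subset_insert _ _))
    rw [Finset.sum_insert hj, Finset.sum_insert hj, Finset.erase_insert hj]
    omega

theorem arr_card {ι : Type} [Fintype ι] (τ : ι → Fn) (A : ι → Finset ℝ)
    (H : ∀ i j z, i ≠ j → τ i z = 0 → τ j z = 0 → ∀ k, τ k z = 0) (R : Set E)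
    (hR : Convex ℝ R) :
    ∃ B : Finset (ι → Finset ℝ), (∀ x ∈ R, (fun i => lab (τ i) (A i) x) ∈ B) ∧
      B.card ≤ 1 + ∑ i, (A i).card + ∑ i, ∑ j ∈ Finset.univ.erase i,
        ((A i ×ˢ A j).filter fun p => ∃ x ∈ R, τ i x = p.1 ∧ τ j x = p.2).card := by
  refine ⟨arrT τ A Finset.univ R, fun x hx => arr_mem.2 ⟨x, hx, ?_⟩, arr_all τ A H hR _⟩
  funext i
  simp [arrTup]

end Pool.Agent.Cyl
end

-- part Pool.Agent.P.MP_8a0bcd_co.Total
section

/-! All classes of the common refinement. -/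

set_option autoImplicit false

namespace Pool.Agent.Cyl

open Set
open scoped Classical

theorem total_card {ι W κ : Type} [Fintype ι] {l θ l' : ℝ} (G : Geo ι W l θ) (w : W)
    (K : ι → Finset κ) (a : κ → E) {m C : ℕ}
    (P : ∀ i, Col (G.τ w i) (G.σ w i) (K i) a l' m C) (B : ℕ)
    (hB : ∀ i o, ((Lab.prod fun j => (P j).L).cl (tube (G.τ w i) (G.σ w i) o 4)).card ≤ B) :
    ((Lab.prod fun j => (P j).L).cl univ).card ≤
      (∑ j, (K j).card) * B + (C * ∑ j, (K j).card + 1) ^ 2 := by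
  set L := Lab.prod fun j => (P j).L with hL
  let S : Set E := {x | ∀ i, ∀ k ∈ K i, ∀ y ∈ L.cls x, y ∉ tube (G.τ w i) (G.σ w i) (a k) 4}
  obtain ⟨A, hA, cA⟩ := arr_card (G.τ w) (fun i => (P i).Θ) (G.ker w) univ convex_univ
  have hG : ∀ {x : E}, x ∈ L.G ↔ ∀ i, x ∈ (P i).L.G := Lab.mem_prod _
  have h1 : (L.cl S).card ≤ A.card := by
    refine L.card_cl_le S (fun x i => lab (G.τ w i) (P i).Θ x) A (fun x _ _ => hA x trivial)
      fun x hx gx y _ gy e => ?_
    have hD : Convex ℝ (⋂ i, slab (G.τ w i) (P i).Θ x) :=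
      convex_iInter fun i => (poly_slab _ _ _).convex
    have h2 : (⋂ i, slab (G.τ w i) (P i).Θ x) ⊆ L.cls x := by
      refine hD.isPreconnected.subset_of_closure_inter_subset (L.isOpen gx)
        ⟨x, mem_iInter.2 fun i => mem_slab_self _ _ _, L.mem x gx⟩ fun z hz => ?_
      by_cases gz : z ∈ L.G
      · exact L.mem_of_closure gx gz hz.1
      exfalso
      obtain ⟨i, hi⟩ : ∃ i, z ∉ (P i).L.G := by
        by_contra h
        exact gz (hG.2 fun i => by_contra fun h' => h ⟨i, h'⟩)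
      rcases (P i).bad z hi with h | ⟨k, hk, h⟩
      · exact slab_notMem ((P i).off x (hG.1 gx i)) (mem_iInter.1 hz.2 i) h
      · have ho : IsOpen {y : E | |G.τ w i (y - a k)| < 4 ∧ |G.σ w i (y - a k)| < 4} := by
          have c : ∀ f : Fn, Continuous fun y : E => |f (y - a k)| := fun f =>
            ((Fn.cont f).comp (continuous_id.sub continuous_const)).abs
          exact (isOpen_lt (c _) continuous_const).inter (isOpen_lt (c _) continuous_const)
        obtain ⟨u, hu, hu'⟩ := mem_closure_iff.1 hz.1 _ ho ⟨by linarith [h.1], by linarith [h.2]⟩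
        exact hx i k hk u hu' ⟨hu.1.le, hu.2.le⟩
    exact (L.eq x gx y (h2 (mem_iInter.2 fun i =>
      mem_slab_of_lab ((P i).off y (hG.1 gy i)) (congrFun e i).symm))).symm
  have h2 : L.cl univ ⊆ (Finset.univ.biUnion fun i => (K i).biUnion fun k =>
      L.cl (tube (G.τ w i) (G.σ w i) (a k) 4)) ∪ L.cl S := by
    intro R hR
    obtain ⟨x, -, gx, rfl⟩ := Lab.mem_cl.1 hR
    by_cases hx : x ∈ S
    · exact Finset.mem_union_right _ (Lab.cls_mem_cl hx gx)
    · refine Finset.mem_union_left _ ?_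
      simp only [S, mem_ofPred_eq, not_forall, not_not] at hx
      obtain ⟨i, k, hk, y, hy, ht⟩ := hx
      refine Finset.mem_biUnion.2 ⟨i, Finset.mem_univ _, Finset.mem_biUnion.2 ⟨k, hk, ?_⟩⟩
      rw [← L.eq x gx y hy]
      exact Lab.cls_mem_cl ht (L.sub x gx hy)
  have h3 : (Finset.univ.biUnion fun i => (K i).biUnion fun k =>
      L.cl (tube (G.τ w i) (G.σ w i) (a k) 4)).card ≤ (∑ j, (K j).card) * B := by
    refine Finset.card_biUnion_le.trans ?_
    rw [Finset.sum_mul]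
    exact Finset.sum_le_sum fun i _ => Finset.card_biUnion_le_card_mul _ _ _ fun k _ => hB i _
  have h4 : ∑ i, (P i).Θ.card ≤ C * ∑ j, (K j).card := by
    rw [Finset.mul_sum]
    exact Finset.sum_le_sum fun i _ => (P i).card
  have h5 : ∑ i, ∑ j ∈ Finset.univ.erase i, (((P i).Θ ×ˢ (P j).Θ).filter
      fun p => ∃ x ∈ (univ : Set E), G.τ w i x = p.1 ∧ G.τ w j x = p.2).card ≤
      (∑ i, (P i).Θ.card) ^ 2 := by
    rw [sq, Finset.sum_mul_sum]
    refine Finset.sum_le_sum fun i _ => ?_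
    refine le_trans (Finset.sum_le_sum fun j _ => ?_)
      (Finset.sum_le_sum_of_subset (Finset.erase_subset i Finset.univ))
    exact (Finset.card_filter_le _ _).trans (Finset.card_product _ _).le
  have h6 : A.card ≤ (C * ∑ j, (K j).card + 1) ^ 2 := by
    refine le_trans ?_ (Nat.pow_le_pow_left (Nat.add_le_add_right h4 1) 2)
    refine (cA.trans (Nat.add_le_add_left h5 _)).trans ?_
    generalize ∑ i, (P i).Θ.card = t
    nlinarith
  exact (Finset.card_le_card h2).trans ((Finset.card_union_le _ _).trans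
    (add_le_add h3 (h1.trans h6)))

end Pool.Agent.Cyl
end

-- part Pool.Agent.P.MP_8a0bcd_co.RefC
section

/-! Counting the classes after the last refinement. -/

set_option autoImplicit false

namespace Pool.Agent.Cyl

open Set
open scoped Classical

theorem refC_swap {κ : Type} (M : Lab) (K : Finset κ) (J : Set E → Finset κ) (T : κ → Set E)
    (b : ℕ) (hJ : ∀ x ∈ M.G, ∀ k ∈ J (M.cls x), k ∈ K ∧ x ∈ T k)
    (hb : ∀ k, (M.cl (T k)).card ≤ b) : ∑ R ∈ M.cl univ, (J R).card ≤ K.card * b := by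
  calc ∑ R ∈ M.cl univ, (J R).card
      ≤ ∑ R ∈ M.cl univ, ∑ k ∈ K, if R ∈ M.cl (T k) then 1 else 0 := by
        refine Finset.sum_le_sum fun R hR => ?_
        obtain ⟨x, -, hx, rfl⟩ := Lab.mem_cl.1 hR
        rw [← Finset.card_filter]
        exact Finset.card_le_card fun k hk =>
          Finset.mem_filter.2 ⟨(hJ x hx k hk).1, Lab.cls_mem_cl (hJ x hx k hk).2 hx⟩
    _ = ∑ k ∈ K, ∑ R ∈ M.cl univ, if R ∈ M.cl (T k) then 1 else 0 := Finset.sum_comm
    _ ≤ ∑ _k ∈ K, b := by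
        refine Finset.sum_le_sum fun k _ => le_trans ?_ (hb k)
        rw [← Finset.card_filter]
        exact Finset.card_le_card fun R hR => (Finset.mem_filter.1 hR).2
    _ = K.card * b := by simp

theorem refC_tube {κ : Type} {α β : Fn} {K : Finset κ} {a : κ → E} {ε l : ℝ} {m C : ℕ}
    (hε : ε ≤ 1) (P : Pl α β K a ε l m C) {x y : E} (hx : x ∈ P.L.G) {k : κ}
    (hk : k ∈ P.J (P.L.cls x)) (hy : y ∈ P.L.cls x) : y ∈ tube α β (a k) 2 := by
  obtain ⟨s, hs, h⟩ := (P.nice x hx).1 k hk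
  obtain ⟨h1, h2⟩ := h y hy
  have hu := P.unit (P.L.cls x)
  have a1 : |α (P.z (P.L.cls x))| ≤ 1 := by
    rw [← sq_le_one_iff_abs_le_one]
    nlinarith [sq_nonneg (β (P.z (P.L.cls x)))]
  have a2 : |β (P.z (P.L.cls x))| ≤ 1 := by
    rw [← sq_le_one_iff_abs_le_one]
    nlinarith [sq_nonneg (α (P.z (P.L.cls x)))]
  rw [map_sub, map_smul, smul_eq_mul] at h1 h2
  rw [abs_le] at h1 h2 a1 a2
  constructor <;> rw [abs_le] <;> rcases hs with rfl | rfl <;> constructor <;>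
    linarith [h1.1, h1.2, h2.1, h2.2, a1.1, a1.2, a2.1, a2.2]

theorem refC_tube_mono {α β : Fn} {o y : E} (h : y ∈ tube α β o 2) : y ∈ tube α β o 4 :=
  ⟨h.1.trans (by norm_num), h.2.trans (by norm_num)⟩

theorem refC_diff {α β : Fn} {o y y' : E} (h : y ∈ tube α β o 2) (h' : y' ∈ tube α β o 2) :
    |α (y - y')| ≤ 4 ∧ |β (y - y')| ≤ 4 := by
  obtain ⟨h1, h2⟩ := h
  obtain ⟨h3, h4⟩ := h'
  rw [map_sub, abs_le] at h1 h2 h3 h4
  constructor <;> rw [map_sub, abs_le] <;> constructor <;>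
    linarith [h1.1, h1.2, h2.1, h2.2, h3.1, h3.2, h4.1, h4.2]

theorem refC_loc {κ : Type} {α β : Fn} {K : Finset κ} {a : κ → E} {ε l : ℝ} {m C : ℕ}
    (hl : 0 ≤ l) (hε : ε ≤ 1) (P : Pl α β K a ε (100 * (l + 1)) m C) :
    ∑ R ∈ P.L.cl univ, (P.J R).card ≤ K.card * C := by
  refine refC_swap P.L K P.J (fun k => tube α β (a k) 2) C
    (fun x hx k hk => ⟨P.sub _ hk, refC_tube hε P hx hk (P.L.mem x hx)⟩) fun k => P.loc _ ?_
  intro y hy y' hy'
  obtain ⟨h1, h2⟩ := refC_diff hy hy'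
  constructor <;> linarith

theorem refC_small {ι W κ : Type} {l θ ε : ℝ} (hl : 0 ≤ l)
    (hε : ε ≤ 1) (G : Geo ι W l θ) (w₀ : W) {K : Finset κ} {a : κ → E} {m C : ℕ} {i j : ι}
    (hij : i ≠ j) (P : Pl (G.τ w₀ i) (G.σ w₀ i) K a ε (100 * (l + 1)) m C) {x : E}
    (hx : x ∈ P.L.G) (hJ : (P.J (P.L.cls x)).Nonempty) (w' : W) (s t : ℝ) (k : ι) :
    Small (G.τ w₀ k) (G.σ w₀ k) (100 * (l + 1))
      {y | y ∈ P.L.cls x ∧ G.τ w' i y = s ∧ G.τ w' j y = t} := by
  obtain ⟨k0, hk0⟩ := hJ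
  intro y hy y' hy'
  obtain ⟨h1, h2⟩ := refC_diff (refC_tube hε P hx hk0 hy.1) (refC_tube hε P hx hk0 hy'.1)
  have e1 : G.τ w' i (y - y') = 0 := by rw [map_sub, hy.2.1, hy'.2.1, sub_self]
  have e2 : G.τ w' j (y - y') = 0 := by rw [map_sub, hy.2.2, hy'.2.2, sub_self]
  have h3 := G.line w' i j _ hij e1 e2 k
  rw [← G.form w₀ k, ← G.form w₀ i] at h3
  have h4 : G.τ w₀ i (y - y') ^ 2 ≤ 4 ^ 2 := sq_le_sq' (abs_le.1 h1).1 (abs_le.1 h1).2
  have h5 : G.σ w₀ i (y - y') ^ 2 ≤ 4 ^ 2 := sq_le_sq' (abs_le.1 h2).1 (abs_le.1 h2).2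
  have h6 : l ^ 2 * (G.τ w₀ i (y - y') ^ 2 + G.σ w₀ i (y - y') ^ 2) ≤ l ^ 2 * 32 :=
    mul_le_mul_of_nonneg_left (by linarith) (sq_nonneg l)
  have h7 : l ^ 2 * 32 ≤ (100 * (l + 1)) ^ 2 := by nlinarith
  constructor
  · exact abs_le_of_sq_le_sq (by linarith [sq_nonneg (G.σ w₀ k (y - y'))]) (by linarith)
  · exact abs_le_of_sq_le_sq (by linarith [sq_nonneg (G.τ w₀ k (y - y'))]) (by linarith)

theorem refC_pairs {ι W κ : Type} [Fintype ι] [Fintype W] {l θ ε : ℝ} (hl : 0 ≤ l)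
    (hε : ε ≤ 1) (G : Geo ι W l θ) (w₀ : W) (K : ι → Finset κ) (a : κ → E) {m C : ℕ}
    (P : ∀ i, Pl (G.τ w₀ i) (G.σ w₀ i) (K i) a ε (100 * (l + 1)) m C)
    (A : ι → Set E → W → Finset ℝ) (hA : ∀ i R w, (A i R w).card ≤ 2 * ((P i).J R).card)
    (w : Set E → W) (comp : ι → Set E → Set E)
    (hcomp : ∀ x ∈ (Lab.prod fun j => (P j).L).G, ∀ i,
      comp i ((Lab.prod fun j => (P j).L).cls x) = (P i).L.cls x) {i j : ι} (hij : i ≠ j) :
    ∑ R ∈ (Lab.prod fun j => (P j).L).cl univ,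
      ((A i (comp i R) (w R) ×ˢ A j (comp j R) (w R)).filter fun p =>
        ∃ x ∈ R, G.τ (w R) i x = p.1 ∧ G.τ (w R) j x = p.2).card ≤
      C ^ Fintype.card ι * (Fintype.card W * ((2 * C * (K i).card) * (2 * C * (K j).card))) := by
  have hX : ∀ (i : ι) (w' : W),
      (((P i).L.cl univ).sigma fun R => A i R w').card ≤ 2 * C * (K i).card := by
    intro i w'
    rw [Finset.card_sigma]
    refine (Finset.sum_le_sum fun R _ => hA i R w').trans ?_
    rw [← Finset.mul_sum, mul_assoc, mul_comm C]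
    exact Nat.mul_le_mul_left 2 (refC_loc hl hε (P i))
  rw [← Finset.card_sigma]
  refine (Finset.card_le_mul_card_image_of_maps_to
    (f := fun q => (⟨w q.1, (⟨comp i q.1, q.2.1⟩, ⟨comp j q.1, q.2.2⟩)⟩ :
      Σ _ : W, (Σ _ : Set E, ℝ) × Σ _ : Set E, ℝ))
    (t := Finset.univ.sigma fun w' => (((P i).L.cl univ).sigma fun R => A i R w') ×ˢ
      ((P j).L.cl univ).sigma fun R => A j R w') ?_ (C ^ Fintype.card ι) ?_).trans ?_
  · rintro ⟨R, s, t⟩ hq
    obtain ⟨hR, hq⟩ := Finset.mem_sigma.1 hq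
    obtain ⟨x, -, hx, rfl⟩ := Lab.mem_cl.1 hR
    obtain ⟨h1, h2⟩ := Finset.mem_product.1 (Finset.mem_filter.1 hq).1
    refine Finset.mem_sigma.2 ⟨Finset.mem_univ _, Finset.mem_product.2
      ⟨Finset.mem_sigma.2 ⟨?_, h1⟩, Finset.mem_sigma.2 ⟨?_, h2⟩⟩⟩
    · show comp i _ ∈ _
      rw [hcomp x hx i]
      exact Lab.cls_mem_cl (mem_univ x) ((Lab.mem_prod _).1 hx i)
    · show comp j _ ∈ _
      rw [hcomp x hx j]
      exact Lab.cls_mem_cl (mem_univ x) ((Lab.mem_prod _).1 hx j)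
  · rintro ⟨w', ⟨Ri, s⟩, ⟨Rj, t⟩⟩ hb
    obtain ⟨h1, -⟩ := Finset.mem_product.1 (Finset.mem_sigma.1 hb).2
    obtain ⟨h1, h2⟩ := Finset.mem_sigma.1 h1
    obtain ⟨x, -, hx, rfl⟩ := Lab.mem_cl.1 h1
    have hJ : ((P i).J ((P i).L.cls x)).Nonempty := by
      have h3 := hA i ((P i).L.cls x) w'
      have h4 : 0 < (A i ((P i).L.cls x) w').card := Finset.card_pos.2 ⟨s, h2⟩
      exact Finset.card_pos.1 (by omega)
    have hS := (Lab.prod_card (fun j => (P j).L)
      {y | y ∈ (P i).L.cls x ∧ G.τ w' i y = s ∧ G.τ w' j y = t}).trans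
      (Finset.prod_le_pow_card _ _ C fun k _ =>
        (P k).loc _ (refC_small hl hε G w₀ hij (P i) hx hJ w' s t k))
    rw [Finset.card_univ] at hS
    refine le_trans (Finset.card_le_card_of_injOn (fun q => q.1) ?_ ?_) hS
    · rintro ⟨R, s', t'⟩ hq
      obtain ⟨hq, e⟩ := Finset.mem_filter.1 (Finset.mem_coe.1 hq)
      obtain ⟨hR, hq⟩ := Finset.mem_sigma.1 hq
      obtain ⟨x', -, hx', rfl⟩ := Lab.mem_cl.1 hR
      obtain ⟨y, hy, e1, e2⟩ := (Finset.mem_filter.1 hq).2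
      simp only [Sigma.mk.injEq, heq_eq_eq, Prod.mk.injEq] at e
      obtain ⟨f1, ⟨f2, f3⟩, -, f4⟩ := e
      refine Finset.mem_coe.2 (Lab.mem_cl.2 ⟨y, ⟨?_, ?_, ?_⟩, Lab.sub _ x' hx' hy,
        Lab.eq _ x' hx' y hy⟩)
      · rw [← f2, hcomp x' hx' i]
        exact mem_iInter.1 hy i
      · rw [← f1, ← f3]
        exact e1
      · rw [← f1, ← f4]
        exact e2
    · rintro ⟨R, s', t'⟩ hq ⟨R', s'', t''⟩ hq' e
      have e1 := (Finset.mem_filter.1 (Finset.mem_coe.1 hq)).2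
      have e2 := (Finset.mem_filter.1 (Finset.mem_coe.1 hq')).2
      simp only [Sigma.mk.injEq, heq_eq_eq, Prod.mk.injEq] at e1 e2
      obtain rfl : R = R' := e
      rw [e1.2.1.2, e1.2.2.2, e2.2.1.2, e2.2.2.2]
  · refine Nat.mul_le_mul_left _ ?_
    rw [Finset.card_sigma]
    refine (Finset.sum_le_card_nsmul _ _ ((2 * C * (K i).card) * (2 * C * (K j).card))
      fun w' _ => ?_).trans (by simp)
    rw [Finset.card_product]
    exact Nat.mul_le_mul (hX i w') (hX j w')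

theorem refine_count {ι W κ : Type} [Fintype ι] [Fintype W] {l θ ε : ℝ} (hl : 0 ≤ l)
    (hε : ε ≤ 1) (G : Geo ι W l θ) (w₀ : W) (K : ι → Finset κ) (a : κ → E) {m C : ℕ}
    (P : ∀ i, Pl (G.τ w₀ i) (G.σ w₀ i) (K i) a ε (100 * (l + 1)) m C) (B : ℕ)
    (hB : ∀ i o, ((Lab.prod fun j => (P j).L).cl (tube (G.τ w₀ i) (G.σ w₀ i) o 4)).card ≤ B)
    (A : ι → Set E → W → Finset ℝ) (hA : ∀ i R w, (A i R w).card ≤ 2 * ((P i).J R).card)
    (w : Set E → W) (comp : ι → Set E → Set E)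
    (hcomp : ∀ x ∈ (Lab.prod fun j => (P j).L).G, ∀ i,
      comp i ((Lab.prod fun j => (P j).L).cls x) = (P i).L.cls x)
    (h : ∀ R i, (A i (comp i R) (w R)).Nonempty → G.τ (w R) i ≠ 0) :
    (((Lab.prod fun j => (P j).L).refine (fun R i => G.τ (w R) i)
        (fun R i => A i (comp i R) (w R)) h).cl univ).card ≤
      ((Lab.prod fun j => (P j).L).cl univ).card + 2 * (∑ j, (K j).card) * B +
        Fintype.card W * C ^ Fintype.card ι * (2 * C * ∑ j, (K j).card) ^ 2 := by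
  refine (Lab.refine_card_sum _ _ _ h univ).trans ?_
  refine (Finset.sum_le_sum (g := fun R => 1 + ∑ i, (A i (comp i R) (w R)).card +
    ∑ i, ∑ j ∈ Finset.univ.erase i,
      ((A i (comp i R) (w R) ×ˢ A j (comp j R) (w R)).filter fun p =>
        ∃ x ∈ R, G.τ (w R) i x = p.1 ∧ G.τ (w R) j x = p.2).card) fun R hR => ?_).trans ?_
  · have hc : Convex ℝ R := by
      obtain ⟨x, -, hx, rfl⟩ := Lab.mem_cl.1 hR
      exact Lab.convex _ hx
    obtain ⟨B', h1, h2⟩ := arr_card (G.τ (w R)) (fun i => A i (comp i R) (w R)) (G.ker (w R)) R hc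
    exact (Lab.refine_card _ _ _ h hR B' h1).trans h2
  rw [Finset.sum_add_distrib, Finset.sum_add_distrib]
  refine add_le_add (add_le_add (by simp) ?_) ?_
  · rw [Finset.sum_comm, Finset.mul_sum, Finset.sum_mul]
    refine Finset.sum_le_sum fun i _ => ?_
    refine (Finset.sum_le_sum fun R _ => hA i (comp i R) (w R)).trans ?_
    rw [← Finset.mul_sum, mul_assoc]
    refine Nat.mul_le_mul_left 2 (refC_swap _ (K i) (fun R => (P i).J (comp i R))
      (fun k => tube (G.τ w₀ i) (G.σ w₀ i) (a k) 4) B (fun x hx k hk => ?_) fun k => hB i _)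
    rw [hcomp x hx i] at hk
    have hx' := (Lab.mem_prod _).1 hx i
    exact ⟨(P i).sub _ hk, refC_tube_mono (refC_tube hε (P i) hx' hk ((P i).L.mem x hx'))⟩
  · rw [Finset.sum_comm]
    calc _ ≤ ∑ i, ∑ j, C ^ Fintype.card ι *
            (Fintype.card W * ((2 * C * (K i).card) * (2 * C * (K j).card))) := by
          refine Finset.sum_le_sum fun i _ => ?_
          rw [Finset.sum_comm]
          refine (Finset.sum_le_sum fun j hj => refC_pairs hl hε G w₀ K a P A hA w comp hcomp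
            (Finset.ne_of_mem_erase hj).symm).trans ?_
          exact Finset.sum_le_sum_of_subset (Finset.erase_subset _ _)
      _ = _ := by
          rw [sq, Finset.mul_sum, Finset.sum_mul_sum, Finset.mul_sum]
          refine Finset.sum_congr rfl fun i _ => ?_
          rw [Finset.mul_sum]
          exact Finset.sum_congr rfl fun j _ => by ring

end Pool.Agent.Cyl
end

-- part Pool.Agent.P.MP_8a0bcd_co.Core
section

/-! The partition of space. -/

set_option autoImplicit false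

namespace Pool.Agent.Cyl

open Set
open scoped Classical

/-- Discs seen almost in a direction transversal to `w` are floors or ceilings. -/
theorem core_side {ι W : Type} {l θ : ℝ} (h0 : 0 < θ) (h1 : θ ≤ 1) (G : Geo ι W l θ) (w₀ w : W)
    (i : ι) (R : Set E) (a z : E) (s : ℝ) (hs : s = 1 ∨ s = -1) (hz : G.Q i z = 1)
    (hw : θ ≤ |G.σ w i z|)
    (h : ∀ y ∈ R, |G.τ w₀ i (y - a - s • z)| ≤ θ ^ 2 / 4 ∧ |G.σ w₀ i (y - a - s • z)| ≤ θ ^ 2 / 4) :
    (∀ y ∈ R, |G.τ w i (y - a)| ≤ 1) ∧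
      ((∀ y ∈ R, 0 ≤ G.σ w i (y - a)) ∨ ∀ y ∈ R, G.σ w i (y - a) ≤ 0) := by
  have e : ∀ y ∈ R, |G.τ w i (y - a) - s * G.τ w i z| ≤ θ ^ 2 / 2 ∧
      |G.σ w i (y - a) - s * G.σ w i z| ≤ θ ^ 2 / 2 := by
    intro y hy
    have a1 := G.form w₀ i (y - a - s • z)
    have a2 := G.form w i (y - a - s • z)
    have a3 := sq_le_sq' (abs_le.1 (h y hy).1).1 (abs_le.1 (h y hy).1).2
    have a4 := sq_le_sq' (abs_le.1 (h y hy).2).1 (abs_le.1 (h y hy).2).2
    rw [map_sub (G.τ w i) (y - a), map_sub (G.σ w i) (y - a), map_smul, map_smul, smul_eq_mul,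
      smul_eq_mul] at a2
    have p : 0 ≤ θ ^ 2 / 2 := by positivity
    constructor
    · refine abs_le_of_sq_le_sq' ?_ p |> abs_le.2
      nlinarith [sq_nonneg (G.σ w i (y - a) - s * G.σ w i z), sq_nonneg (θ ^ 2)]
    · refine abs_le_of_sq_le_sq' ?_ p |> abs_le.2
      nlinarith [sq_nonneg (G.τ w i (y - a) - s * G.τ w i z), sq_nonneg (θ ^ 2)]
  have a1 := G.form w i z
  have a2 : θ ^ 2 ≤ G.σ w i z ^ 2 := by
    rw [← sq_abs (G.σ w i z)]
    exact pow_le_pow_left₀ h0.le hw 2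
  have a3 : |G.τ w i z| ≤ 1 - θ ^ 2 / 2 := by
    refine abs_le.2 (abs_le_of_sq_le_sq' ?_ (by nlinarith))
    nlinarith [sq_nonneg (θ ^ 2)]
  have a4 : θ ^ 2 / 2 ≤ θ := by nlinarith
  rw [abs_le] at a3
  refine ⟨fun y hy => ?_, ?_⟩
  · have := abs_le.1 (e y hy).1
    rcases hs with rfl | rfl <;> exact abs_le.2 ⟨by linarith, by linarith⟩
  · rcases le_abs.1 hw with b | b <;> rcases hs with rfl | rfl
    · exact Or.inl fun y hy => by linarith [(abs_le.1 (e y hy).2).1]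
    · exact Or.inr fun y hy => by linarith [(abs_le.1 (e y hy).2).2]
    · exact Or.inr fun y hy => by linarith [(abs_le.1 (e y hy).2).2]
    · exact Or.inl fun y hy => by linarith [(abs_le.1 (e y hy).2).1]

theorem core_arith (c m N w C n : ℕ) (hm : m ≤ c) (hw : w ≤ N) :
    n * ((2 * n + 1) * (C + 1) ^ m) + (C * n + 1) ^ 2 + 2 * n * ((2 * n + 1) * (C + 1) ^ m) +
      w * C ^ m * (2 * C * n) ^ 2 ≤
      (6 * (C + 1) ^ c + (C + 1) ^ 2 + N * (C + 1) ^ c * (2 * C) ^ 2) * (n + 1) ^ 2 := by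
  have a1 : (C + 1) ^ m ≤ (C + 1) ^ c := Nat.pow_le_pow_right (Nat.succ_pos _) hm
  have a2 : C ^ m ≤ (C + 1) ^ c := (Nat.pow_le_pow_left (Nat.le_succ _) _).trans a1
  have a3 : 3 * (n * (2 * n + 1)) * (C + 1) ^ m ≤ 6 * (n + 1) ^ 2 * (C + 1) ^ c :=
    Nat.mul_le_mul (by nlinarith) a1
  have a4 : (C * n + 1) ^ 2 ≤ ((C + 1) * (n + 1)) ^ 2 := Nat.pow_le_pow_left (by nlinarith) _
  have a5 : w * C ^ m * (2 * C * n) ^ 2 ≤ N * (C + 1) ^ c * (2 * C * (n + 1)) ^ 2 :=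
    Nat.mul_le_mul (Nat.mul_le_mul hw a2)
      (Nat.pow_le_pow_left (Nat.mul_le_mul_left _ (Nat.le_succ _)) _)
  calc _ = 3 * (n * (2 * n + 1)) * (C + 1) ^ m + (C * n + 1) ^ 2 +
        w * C ^ m * (2 * C * n) ^ 2 := by ring
    _ ≤ 6 * (n + 1) ^ 2 * (C + 1) ^ c + ((C + 1) * (n + 1)) ^ 2 +
        N * (C + 1) ^ c * (2 * C * (n + 1)) ^ 2 := add_le_add (add_le_add a3 a4) a5
    _ = _ := by ring

theorem core (c : ℕ) : ∃ m C : ℕ, ∀ (n : ℕ) (F : Family c n), IsOpen F.free ∧ ∃ L : Lab,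
    L.PolyB m ∧ (L.cl univ).card ≤ C * (n + 1) ^ 2 ∧
      ∀ x ∈ L.G, ∃ T : Finset (E → ℝ), T.card ≤ 2 * c + 1 ∧ (∀ g ∈ T, Quad g) ∧
        ∀ y ∈ L.cls x, (y ∈ F.free ↔ ∀ g ∈ T, 0 < g y) := by
  obtain ⟨N, l, θ, hl, h0, h1, hgeo⟩ := exists_geo c
  obtain ⟨m₁, C, hpl⟩ := exists_pl (θ ^ 2 / 4) (100 * (l + 1)) (by positivity)
  refine ⟨c * m₁ + c * 2, 6 * (C + 1) ^ c + (C + 1) ^ 2 + N * (C + 1) ^ c * (2 * C) ^ 2,
    fun n F => ?_⟩
  obtain ⟨m, dir, f, hm, hd0, hd1, hcyl⟩ := norm_dirs F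
  obtain ⟨W, G, ⟨w₁, hw₁⟩, hQ⟩ := hgeo m dir F.r hm F.r_pos hd0 hd1
  let w₀ : W := ⟨w₁, hw₁⟩
  let K : Fin m → Finset (Fin n) := fun i => Finset.univ.filter fun k => f k = i
  have hK : ∑ j, (K j).card = n := by
    rw [← Finset.card_eq_sum_card_fiberwise (fun k _ => Finset.mem_univ (f k))]
    simp
  have hdisc : ∀ w i k y, y ∈ disc (G.τ w i) (G.σ w i) (F.a k) ↔ G.Q i (y - F.a k) ≤ 1 :=
    fun w i k y => by rw [← G.form w]; rfl
  have hfree : ∀ y, y ∈ F.free ↔ ∀ k, 1 < G.Q (f k) (y - F.a k) := by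
    intro y
    simp only [Family.free, mem_compl_iff, mem_iUnion, not_exists, hcyl, hQ, not_le]
  refine ⟨?_, ?_⟩
  · have : F.free = ⋂ k, {y | 1 < G.τ w₀ (f k) (y - F.a k) ^ 2 + G.σ w₀ (f k) (y - F.a k) ^ 2} := by
      ext y
      simp only [hfree, mem_iInter, mem_ofPred_eq, G.form]
    rw [this]
    refine isOpen_iInter_of_finite fun k => isOpen_lt continuous_const ?_
    have a := Fn.cont (G.τ w₀ (f k))
    have b := Fn.cont (G.σ w₀ (f k))
    fun_prop
  have P : ∀ i, Pl (G.τ w₀ i) (G.σ w₀ i) (K i) F.a (θ ^ 2 / 4) (100 * (l + 1)) m₁ C :=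
    fun i => (hpl _ _ _ (K i) F.a (G.onto w₀ i)).some
  let L₀ : Lab := Lab.prod fun j => (P j).L
  let comp : Fin m → Set E → Set E := fun i R => (P i).L.cls (Classical.epsilon (· ∈ R))
  have hcomp : ∀ x ∈ L₀.G, ∀ i, comp i (L₀.cls x) = (P i).L.cls x := by
    intro x hx i
    have a := Classical.epsilon_spec (p := (· ∈ L₀.cls x)) ⟨x, L₀.mem x hx⟩
    exact (P i).L.eq x ((Lab.mem_prod _).1 hx i) _ (mem_iInter.1 a i)
  have hz : ∀ i R, G.Q i ((P i).z R) = 1 := fun i R => by rw [← G.form w₀]; exact (P i).unit R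
  choose w hw using fun R : Set E => G.pick (fun i => (P i).z (comp i R)) fun i => hz i _
  have env : ∀ (i : Fin m) (R : Set E) (w : W), ∃ Θ : Finset ℝ,
      Θ.card ≤ 2 * ((P i).J R).card ∧ (R ∈ (P i).L.cl univ → θ ≤ |G.σ w i ((P i).z R)| →
        ∀ x ∈ R, G.τ w i x ∉ Θ → ∃ J' ⊆ (P i).J R, J'.card ≤ 2 ∧
          ∀ y ∈ R, y ∈ slab (G.τ w i) Θ x → ∀ k ∈ (P i).J R,
            y ∈ disc (G.τ w i) (G.σ w i) (F.a k) →
              ∃ k' ∈ J', y ∈ disc (G.τ w i) (G.σ w i) (F.a k')) := by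
    intro i R w
    by_cases h : R ∈ (P i).L.cl univ ∧ θ ≤ |G.σ w i ((P i).z R)|
    swap
    · exact ⟨∅, by simp, fun a b => absurd ⟨a, b⟩ h⟩
    obtain ⟨hR, hw⟩ := h
    obtain ⟨x, -, hx, rfl⟩ := Lab.mem_cl.1 hR
    obtain ⟨Θ, a, b⟩ := env_two (G.τ w i) (G.σ w i) ((P i).J ((P i).L.cls x)) F.a ((P i).L.cls x)
      fun k hk => by
        obtain ⟨s, hs, c⟩ := ((P i).nice x hx).1 k hk
        exact core_side h0 h1 G w₀ w i _ _ _ s hs (hz i _) hw c
    exact ⟨Θ, a, fun _ _ => b⟩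
  choose A hA hA' using env
  have hne : ∀ R i, (A i (comp i R) (w R)).Nonempty → G.τ (w R) i ≠ 0 := by
    intro R i _ h
    obtain ⟨z, a, -⟩ := G.onto (w R) i 1 0
    simp [h] at a
  refine ⟨L₀.refine (fun R i => G.τ (w R) i) (fun R i => A i (comp i R) (w R)) hne, ?_, ?_, ?_⟩
  · intro x hx
    refine (Lab.refine_poly _ _ _ hne (Lab.prod_poly _ fun i => (P i).poly) x hx).mono ?_
    rw [Fintype.card_fin]
    exact add_le_add (Nat.mul_le_mul_right _ hm) (Nat.mul_le_mul_right _ hm)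
  · have hB := tube_card hl G w₀ K F.a fun i => (P i).toCol
    have t1 := total_card G w₀ K F.a (fun i => (P i).toCol) _ hB
    have t2 := refine_count hl (by nlinarith) G w₀ K F.a P _ hB A hA w comp hcomp hne
    rw [hK, Fintype.card_fin] at t1 t2
    refine (t2.trans ?_).trans (core_arith c m N (Fintype.card W) C n hm ?_)
    · exact add_le_add (add_le_add t1 le_rfl) le_rfl
    · simpa using W.card_le_univ
  · intro x hx
    have hx' := (Lab.mem_prod _).1 hx.1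
    have hsub : ∀ y ∈ (L₀.refine (fun R i => G.τ (w R) i) (fun R i => A i (comp i R) (w R))
        hne).cls x, ∀ i, y ∈ (P i).L.cls x ∧
          y ∈ slab (G.τ (w (L₀.cls x)) i) (A i ((P i).L.cls x) (w (L₀.cls x))) x := by
      intro y hy i
      refine ⟨mem_iInter.1 hy.1 i, ?_⟩
      rw [← hcomp x hx.1 i]
      exact mem_iInter.1 hy.2 i
    by_cases hfull : ∃ i, ∀ y ∈ (P i).L.cls x, ∃ k ∈ K i, y ∈ disc (G.τ w₀ i) (G.σ w₀ i) (F.a k)
    · obtain ⟨i, hi⟩ := hfull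
      refine ⟨{fun _ => -1}, by simp, by simpa using quad_const (-1), fun y hy => ?_⟩
      obtain ⟨k, a, b⟩ := hi y (hsub y hy i).1
      refine iff_of_false (fun c => ?_) (by simp)
      have d := (hfree y).1 c k
      rw [(Finset.mem_filter.1 a).2] at d
      exact d.not_ge ((hdisc _ _ _ _).1 b)
    have dec : ∀ i, ∀ y ∈ (P i).L.cls x, ∀ k ∈ K i, y ∈ disc (G.τ w₀ i) (G.σ w₀ i) (F.a k) →
        ∃ k' ∈ (P i).J ((P i).L.cls x), y ∈ disc (G.τ w₀ i) (G.σ w₀ i) (F.a k') :=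
      fun i => ((P i).nice x (hx' i)).2.resolve_left fun h => hfull ⟨i, h⟩
    choose J' j1 j2 j3 using fun i => hA' i ((P i).L.cls x) (w (L₀.cls x))
      (Lab.cls_mem_cl (mem_univ x) (hx' i)) (by rw [← hcomp x hx.1 i]; exact hw _ i) x
      ((P i).L.mem x (hx' i)) (by rw [← hcomp x hx.1 i]; exact hx.2 i)
    refine ⟨Finset.univ.biUnion fun i => (J' i).image fun k y =>
      G.τ w₀ i (y - F.a k) ^ 2 + G.σ w₀ i (y - F.a k) ^ 2 - 1, ?_, ?_, fun y hy => ?_⟩
    · refine (Finset.card_biUnion_le_card_mul _ _ 2 fun i _ =>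
        Finset.card_image_le.trans (j2 i)).trans ?_
      rw [Finset.card_univ, Fintype.card_fin]
      omega
    · intro g hg
      obtain ⟨i, -, a⟩ := Finset.mem_biUnion.1 hg
      obtain ⟨k, -, rfl⟩ := Finset.mem_image.1 a
      exact quad_disc _ _ _
    · rw [hfree]
      constructor
      · intro h g hg
        obtain ⟨i, -, a⟩ := Finset.mem_biUnion.1 hg
        obtain ⟨k, b, rfl⟩ := Finset.mem_image.1 a
        have d := h k
        rw [(Finset.mem_filter.1 ((P i).sub _ (j1 i b))).2, ← G.form w₀] at d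
        exact sub_pos.2 d
      · intro h k
        by_contra d
        obtain ⟨k₁, a, b⟩ := dec (f k) y (hsub y hy _).1 k
          (Finset.mem_filter.2 ⟨Finset.mem_univ _, rfl⟩) ((hdisc _ _ _ _).2 (not_lt.1 d))
        obtain ⟨k₂, a', b'⟩ := j3 (f k) y (hsub y hy _).1 (hsub y hy _).2 k₁ a
          ((hdisc _ _ _ _).2 ((hdisc _ _ _ _).1 b))
        have e := h _ (Finset.mem_biUnion.2 ⟨f k, Finset.mem_univ _, Finset.mem_image_of_mem _ a'⟩)
        have e' := (hdisc _ _ _ _).1 b'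
        rw [← G.form w₀] at e'
        exact (sub_pos.1 e).not_ge e'


end Pool.Agent.Cyl
end

-- part Pool.Agent.P.MP_8a0bcd_co.Grid
section

/-! Two layers of cylinders with quadratically many pockets. -/

set_option autoImplicit false

namespace Pool.Agent.Cyl

open Set
open scoped Classical

/-- squared distance to the axis number `k` -/
noncomputable def gridG (k : ℕ) (x : E) : ℝ :=
  if k % 2 = 0 then (x 1 - 19 / 10 * (k / 2 : ℕ)) ^ 2 + (x 2 + 9 / 20) ^ 2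
  else (x 0 - 19 / 10 * (k / 2 : ℕ)) ^ 2 + (x 2 - 9 / 20) ^ 2

/-- a point of the axis number `k` -/
noncomputable def gridA (k : ℕ) : E :=
  if k % 2 = 0 then ![0, 19 / 10 * (k / 2 : ℕ), -(9 / 20)] else ![19 / 10 * (k / 2 : ℕ), 0, 9 / 20]

/-- the direction of the axis number `k` -/
def gridD (k : ℕ) : E := if k % 2 = 0 then ![1, 0, 0] else ![0, 1, 0]

lemma grid_mem (k : ℕ) (x : E) : x ∈ cyl (gridA k) (gridD k) 1 ↔ gridG k x ≤ 1 := by
  unfold cyl gridA gridD gridG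
  split_ifs with h
  · simp only [mem_setOf_eq, Fin.sum_univ_three, Matrix.cons_val_zero, Matrix.cons_val_one,
      Matrix.cons_val_two, Matrix.head_cons, Matrix.tail_cons]
    constructor
    · rintro ⟨t, ht⟩
      nlinarith [sq_nonneg (x 0 - (0 + t * 1))]
    · intro ht
      exact ⟨x 0, by nlinarith⟩
  · simp only [mem_setOf_eq, Fin.sum_univ_three, Matrix.cons_val_zero, Matrix.cons_val_one,
      Matrix.cons_val_two, Matrix.head_cons, Matrix.tail_cons]
    constructor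
    · rintro ⟨t, ht⟩
      nlinarith [sq_nonneg (x 1 - (0 + t * 1))]
    · intro ht
      exact ⟨x 1, by nlinarith⟩

lemma grid_cont (k : ℕ) : Continuous (gridG k) := by
  unfold gridG
  split_ifs <;> fun_prop

lemma grid_even (m : ℕ) (x : E) :
    gridG (2 * m) x = (x 1 - 19 / 10 * m) ^ 2 + (x 2 + 9 / 20) ^ 2 := by
  rw [gridG, if_pos (by omega), show 2 * m / 2 = m by omega]

lemma grid_odd (m : ℕ) (x : E) :
    gridG (2 * m + 1) x = (x 0 - 19 / 10 * m) ^ 2 + (x 2 - 9 / 20) ^ 2 := by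
  rw [gridG, if_neg (by omega), show (2 * m + 1) / 2 = m by omega]

lemma grid_nat {m m' : ℕ} (h : (19 / 10 * (m : ℝ) - 19 / 10 * m') ^ 2 ≤ 1) : m = m' := by
  rcases lt_trichotomy m m' with hl | he | hl
  · have : (m : ℝ) + 1 ≤ m' := by exact_mod_cast hl
    nlinarith
  · exact he
  · have : (m' : ℝ) + 1 ≤ m := by exact_mod_cast hl
    nlinarith

lemma grid_inj {k k' : ℕ} (h : ∀ x, gridG k x ≤ 1 ↔ gridG k' x ≤ 1) : k = k' := by
  obtain ⟨m, rfl | rfl⟩ := Nat.even_or_odd' k <;> obtain ⟨m', rfl | rfl⟩ := Nat.even_or_odd' k' <;>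
    simp only [grid_even, grid_odd] at h
  · have := (h ![0, 19 / 10 * m, -(9 / 20)]).1 (by simp)
    simp only [Matrix.cons_val_one, Matrix.cons_val_two, Matrix.head_cons, Matrix.tail_cons,
      Matrix.cons_val_zero] at this
    rw [grid_nat (m := m) (m' := m') (by nlinarith)]
  · have := (h ![19 / 10 * m' + 2, 19 / 10 * m, -(9 / 20)]).1 (by simp)
    simp only [Matrix.cons_val_one, Matrix.cons_val_two, Matrix.head_cons, Matrix.tail_cons,
      Matrix.cons_val_zero] at this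
    nlinarith
  · have := (h ![19 / 10 * m + 2, 19 / 10 * m', -(9 / 20)]).2 (by simp)
    simp only [Matrix.cons_val_one, Matrix.cons_val_two, Matrix.head_cons, Matrix.tail_cons,
      Matrix.cons_val_zero] at this
    nlinarith
  · have := (h ![19 / 10 * m, 0, 9 / 20]).1 (by simp)
    simp only [Matrix.cons_val_one, Matrix.cons_val_two, Matrix.head_cons, Matrix.tail_cons,
      Matrix.cons_val_zero] at this
    rw [grid_nat (m := m) (m' := m') (by nlinarith)]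

/-- the family of two layers -/
noncomputable def gridF {c : ℕ} (hc : 2 ≤ c) (n : ℕ) : Family c n where
  r := 1
  a k := gridA k
  d k := gridD k
  r_pos := one_pos
  d_ne k := by
    unfold gridD
    split_ifs
    · intro h; simpa using congrFun h 0
    · intro h; simpa using congrFun h 1
  few := by
    have h : (Set.range fun k : Fin n => gridD k) ⊆ {![1, 0, 0], ![0, 1, 0]} := by
      rintro _ ⟨k, rfl⟩
      simp only [gridD]
      split_ifs <;> simp
    refine (Set.ncard_le_ncard h (Set.toFinite _)).trans (le_trans ?_ hc)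
    exact (Set.ncard_insert_le _ _).trans (by simp)
  inj k k' h := Fin.ext (grid_inj fun x => by
    rw [← grid_mem, ← grid_mem]
    exact Set.ext_iff.1 h x)

lemma grid_free {c n : ℕ} (hc : 2 ≤ c) :
    (gridF hc n).free = ⋂ k : Fin n, {x | 1 < gridG k x} := by
  ext x
  simp only [Family.free, gridF, mem_compl_iff, mem_iUnion, not_exists, grid_mem, not_le,
    mem_iInter, mem_setOf_eq]

lemma grid_closure {c n : ℕ} (hc : 2 ≤ c) {x : E} (hx : x ∈ closure (gridF hc n).free) {k : ℕ}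
    (hk : k < n) : 1 ≤ gridG k x := by
  have h : closure (gridF hc n).free ⊆ {x | 1 ≤ gridG k x} := by
    refine closure_minimal ?_ (isClosed_le continuous_const (grid_cont k))
    rw [grid_free]
    intro y hy
    have h1 : 1 < gridG k y := mem_iInter.1 hy ⟨k, hk⟩
    exact h1.le
  exact h hx

/-- open box -/
def gridB (i : ℕ × ℕ) : Set E :=
  {x | (19 / 10 * (i.1 : ℝ) < x 0 ∧ x 0 < 19 / 10 * (i.1 + 1)) ∧
    (19 / 10 * (i.2 : ℝ) < x 1 ∧ x 1 < 19 / 10 * (i.2 + 1)) ∧ -(9 / 20) < x 2 ∧ x 2 < 9 / 20}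

/-- closed box -/
def gridC (i : ℕ × ℕ) : Set E :=
  {x | (19 / 10 * (i.1 : ℝ) ≤ x 0 ∧ x 0 ≤ 19 / 10 * (i.1 + 1)) ∧
    (19 / 10 * (i.2 : ℝ) ≤ x 1 ∧ x 1 ≤ 19 / 10 * (i.2 + 1)) ∧ -(9 / 20) ≤ x 2 ∧ x 2 ≤ 9 / 20}

lemma grid_open (i : ℕ × ℕ) : IsOpen (gridB i) := by
  have o1 : ∀ (j : Fin 3) (a : ℝ), IsOpen {x : E | a < x j} := fun j a =>
    isOpen_lt continuous_const (by fun_prop)
  have o2 : ∀ (j : Fin 3) (a : ℝ), IsOpen {x : E | x j < a} := fun j a =>
    isOpen_lt (by fun_prop) continuous_const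
  exact ((o1 _ _).inter (o2 _ _)).inter (((o1 _ _).inter (o2 _ _)).inter ((o1 _ _).inter (o2 _ _)))

lemma grid_closed (i : ℕ × ℕ) : IsClosed (gridC i) := by
  have o1 : ∀ (j : Fin 3) (a : ℝ), IsClosed {x : E | a ≤ x j} := fun j a =>
    isClosed_le continuous_const (by fun_prop)
  have o2 : ∀ (j : Fin 3) (a : ℝ), IsClosed {x : E | x j ≤ a} := fun j a =>
    isClosed_le (by fun_prop) continuous_const
  exact ((o1 _ _).inter (o2 _ _)).inter (((o1 _ _).inter (o2 _ _)).inter ((o1 _ _).inter (o2 _ _)))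

lemma grid_bdd (i : ℕ × ℕ) : Bornology.IsBounded (gridB i) := by
  refine (Metric.isBounded_Icc (![19 / 10 * (i.1 : ℝ), 19 / 10 * (i.2 : ℝ), -(9 / 20)] : E)
    ![19 / 10 * (i.1 + 1), 19 / 10 * (i.2 + 1), 9 / 20]).subset ?_
  rintro x ⟨⟨h1, h2⟩, ⟨h3, h4⟩, h5, h6⟩
  constructor <;> intro j <;> fin_cases j
  exacts [h1.le, h3.le, h5.le, h2.le, h4.le, h6.le]

lemma grid_eq {m m' : ℕ} {y : ℝ} (h1 : 19 / 10 * (m : ℝ) < y) (h2 : y < 19 / 10 * (m + 1))
    (h3 : 19 / 10 * (m' : ℝ) < y) (h4 : y < 19 / 10 * (m' + 1)) : m = m' := by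
  have a : (m : ℝ) < m' + 1 := by linarith
  have b : (m' : ℝ) < m + 1 := by linarith
  have a' : m < m' + 1 := by exact_mod_cast a
  have b' : m' < m + 1 := by exact_mod_cast b
  omega

lemma grid_wall {n : ℕ} {i : ℕ × ℕ} (h1 : 2 * (i.1 + 1) + 1 < n) (h2 : 2 * (i.2 + 1) + 1 < n)
    {x : E} (hx : ∀ k < n, 1 ≤ gridG k x) (hC : x ∈ gridC i) : x ∈ gridB i := by
  obtain ⟨⟨c1, c2⟩, ⟨c3, c4⟩, c5, c6⟩ := hC
  have e1 := hx (2 * i.1 + 1) (by omega)
  have e2 := hx (2 * (i.1 + 1) + 1) (by omega)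
  have e3 := hx (2 * i.2) (by omega)
  have e4 := hx (2 * (i.2 + 1)) (by omega)
  rw [grid_odd] at e1 e2
  rw [grid_even] at e3 e4
  push_cast at e2 e4
  have s1 : (x 2 - 9 / 20) ^ 2 ≤ 81 / 100 := by nlinarith
  have s2 : (x 2 + 9 / 20) ^ 2 ≤ 81 / 100 := by nlinarith
  refine ⟨⟨lt_of_le_of_ne c1 fun h => ?_, lt_of_le_of_ne c2 fun h => ?_⟩,
    ⟨lt_of_le_of_ne c3 fun h => ?_, lt_of_le_of_ne c4 fun h => ?_⟩,
    lt_of_le_of_ne c5 fun h => ?_, lt_of_le_of_ne c6 fun h => ?_⟩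
  · rw [← h] at e1; nlinarith
  · rw [h] at e2; nlinarith
  · rw [← h] at e3; nlinarith
  · rw [h] at e4; nlinarith
  · rw [← h] at e3 e4
    rcases le_total (x 1) (19 / 10 * i.2 + 19 / 20) with h' | h'
    · nlinarith
    · nlinarith
  · rw [h] at e1 e2
    rcases le_total (x 0) (19 / 10 * i.1 + 19 / 20) with h' | h'
    · nlinarith
    · nlinarith

lemma grid_half (m m' : ℕ) :
    (361 / 400 : ℝ) ≤ (19 / 10 * (m : ℝ) + 19 / 20 - 19 / 10 * m') ^ 2 := by
  rcases le_or_gt m' m with h | h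
  · have : (m' : ℝ) ≤ m := by exact_mod_cast h
    nlinarith
  · have : (m : ℝ) + 1 ≤ m' := by exact_mod_cast h
    nlinarith

lemma grid_centre (i : ℕ × ℕ) (k : ℕ) :
    1 < gridG k ![19 / 10 * (i.1 : ℝ) + 19 / 20, 19 / 10 * (i.2 : ℝ) + 19 / 20, 0] := by
  obtain ⟨m, rfl | rfl⟩ := Nat.even_or_odd' k
  · rw [grid_even]
    simp only [Matrix.cons_val_one, Matrix.cons_val_two, Matrix.head_cons, Matrix.tail_cons,
      Matrix.cons_val_zero]
    linarith [grid_half i.2 m]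
  · rw [grid_odd]
    simp only [Matrix.cons_val_one, Matrix.cons_val_two, Matrix.head_cons, Matrix.tail_cons,
      Matrix.cons_val_zero]
    linarith [grid_half i.1 m]

theorem exists_pockets {c n : ℕ} (hc : 2 ≤ c) (hn : 6 ≤ n) :
    ∃ (F : Family c n) (I : Finset (ℕ × ℕ)) (O : ℕ × ℕ → Set E), n ^ 2 ≤ 16 * I.card ∧
      (∀ i ∈ I, IsOpen (O i) ∧ (O i).Nonempty ∧ O i ⊆ F.free) ∧
      ∀ S : Set E, IsPreconnected S → S ⊆ closure F.free → ∀ i ∈ I, (S ∩ O i).Nonempty →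
        Bornology.IsBounded S ∧ ∀ j ∈ I, (S ∩ O j).Nonempty → i = j := by
  refine ⟨gridF hc n, Finset.range (n / 2 - 1) ×ˢ Finset.range (n / 2 - 1),
    fun i => gridB i ∩ (gridF hc n).free, ?_, fun i _ => ⟨?_, ?_, inter_subset_right⟩, ?_⟩
  · rw [Finset.card_product, Finset.card_range]
    have h : n ≤ 4 * (n / 2 - 1) := by omega
    nlinarith
  · refine (grid_open i).inter ?_
    rw [grid_free]
    exact isOpen_iInter_of_finite fun k => isOpen_lt continuous_const (grid_cont k)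
  · refine ⟨![19 / 10 * (i.1 : ℝ) + 19 / 20, 19 / 10 * (i.2 : ℝ) + 19 / 20, 0], ?_, ?_⟩
    · simp only [gridB, mem_setOf_eq, Matrix.cons_val_one, Matrix.cons_val_two, Matrix.head_cons,
        Matrix.tail_cons, Matrix.cons_val_zero]
      refine ⟨⟨?_, ?_⟩, ⟨?_, ?_⟩, ?_, ?_⟩ <;> linarith
    · rw [grid_free]
      exact mem_iInter.2 fun k => grid_centre i k
  · intro S hS hsub i hi hne
    obtain ⟨hi1, hi2⟩ := Finset.mem_product.1 hi
    rw [Finset.mem_range] at hi1 hi2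
    have hB : S ⊆ gridB i := by
      refine hS.subset_left_of_subset_union (grid_open i) (grid_closed i).isOpen_compl ?_ ?_ ?_
      · refine Set.disjoint_left.2 fun x hx hx' => hx' ?_
        obtain ⟨⟨h1, h2⟩, ⟨h3, h4⟩, h5, h6⟩ := hx
        exact ⟨⟨h1.le, h2.le⟩, ⟨h3.le, h4.le⟩, h5.le, h6.le⟩
      · intro x hx
        by_cases hC : x ∈ gridC i
        · exact Or.inl (grid_wall (n := n) (by omega) (by omega)
            (fun k hk => grid_closure hc (hsub hx) hk) hC)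
        · exact Or.inr hC
      · obtain ⟨x, hx, hx'⟩ := hne
        exact ⟨x, hx, hx'.1⟩
    refine ⟨(grid_bdd i).subset hB, fun j _ hj => ?_⟩
    obtain ⟨x, hx, hx', _⟩ := hj
    obtain ⟨⟨h1, h2⟩, ⟨h3, h4⟩, _⟩ := hB hx
    obtain ⟨⟨g1, g2⟩, ⟨g3, g4⟩, _⟩ := hx'
    exact Prod.ext (grid_eq h1 h2 g1 g2) (grid_eq h3 h4 g3 g4)

end Pool.Agent.Cyl
end

-- part Pool.Agent.P.MP_8a0bcd_co.Comp
section

/-! Bounded components of the complement of a hypersurface. -/

set_option autoImplicit false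

namespace Pool.Agent.Cyl

open Set
open scoped Classical

lemma comp_mem_of_closure {U : Set E} {x z : E} (hx : x ∈ U)
    (hz : z ∈ closure (connectedComponentIn U x)) (hzU : z ∈ U) :
    z ∈ connectedComponentIn U x := by
  have h1 : IsPreconnected (insert z (connectedComponentIn U x)) :=
    isPreconnected_connectedComponentIn.subset_closure (subset_insert _ _)
      (insert_subset hz subset_closure)
  exact h1.subset_connectedComponentIn (mem_insert_of_mem _ (mem_connectedComponentIn hx))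
    (insert_subset hzU (connectedComponentIn_subset _ _)) (mem_insert _ _)

open MvPolynomial Pool.Agent.Lib.SignPatterns in
lemma comp_critical (f : MvPolynomial (Fin 3) ℝ) (x₀ : E) (h0 : eval x₀ f ≠ 0)
    (hb : Bornology.IsBounded (connectedComponentIn {y : E | eval y f ≠ 0} x₀)) :
    ∃ δ > 0, ∀ y : Fin 3 → ℝ, (∀ s, |y s| < δ) →
      ∃ x ∈ connectedComponentIn {y : E | eval y f ≠ 0} x₀, ∀ s, eval x (pderiv s f) = y s := by
  set U : Set E := {y : E | eval y f ≠ 0} with hU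
  set D : Set E := connectedComponentIn U x₀ with hD
  set w : ℝ := eval x₀ f with hw
  have hUo : IsOpen U := isOpen_ne_fun f.continuous_eval continuous_const
  have hDo : IsOpen D := hUo.connectedComponentIn
  have hK : IsCompact (closure D) := hb.isCompact_closure
  obtain ⟨R, hR0, hR⟩ := hK.isBounded.exists_pos_norm_le
  have hx₀ : x₀ ∈ closure D := subset_closure (mem_connectedComponentIn h0)
  have hw0 : 0 < |w| := abs_pos.2 h0
  refine ⟨|w| / (8 * R), by positivity, fun y hy => ?_⟩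
  let p : MvPolynomial (Fin 3) ℝ := C w * (f - ∑ s, C (y s) * X s)
  have hp : ∀ x : E, eval x p = w * eval x f - w * ∑ s, y s * x s := by
    intro x
    simp only [p, map_mul, map_sub, eval_C, map_sum, eval_X]
    ring
  have hlin : ∀ x ∈ closure D, |w * ∑ s, y s * x s| ≤ 3 / 8 * (w * w) := by
    intro x hx
    have h1 : |∑ s, y s * x s| ≤ 3 / 8 * |w| := by
      refine (Finset.abs_sum_le_sum_abs _ _).trans ?_
      calc ∑ s, |y s * x s| ≤ ∑ _s : Fin 3, |w| / (8 * R) * R := by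
            apply Finset.sum_le_sum
            intro s _
            rw [abs_mul]
            exact mul_le_mul (hy s).le ((norm_le_pi_norm x s).trans (hR x hx)) (abs_nonneg _)
              (by positivity)
        _ = 3 / 8 * |w| := by
            simp only [Finset.sum_const, Finset.card_univ, Fintype.card_fin, nsmul_eq_mul]
            field_simp
            norm_num
    rw [abs_mul, ← abs_mul_abs_self w]
    nlinarith
  obtain ⟨x, hxK, hmax⟩ := hK.exists_isMaxOn ⟨x₀, hx₀⟩ p.continuous_eval.continuousOn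
  have hxU : x ∈ U := by
    intro hx
    have h1 : eval x₀ p ≤ eval x p := hmax hx₀
    rw [hp, hp, hx, ← hw] at h1
    have h2 := abs_le.1 (hlin x hxK)
    have h3 := abs_le.1 (hlin x₀ hx₀)
    have h4 : 0 < w * w := mul_self_pos.2 h0
    linarith [h2.1, h3.2]
  have hxD : x ∈ D := comp_mem_of_closure h0 hxK hxU
  refine ⟨x, hxD, fun s => ?_⟩
  have hloc : IsLocalMax (fun z => eval z p) x :=
    hmax.isLocalMax (Filter.mem_of_superset (hDo.mem_nhds hxD) subset_closure)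
  have hloc' : IsLocalMax (fun u => eval (Function.update x s u) p) (x s) := by
    have h1 : IsLocalMax (fun z => eval z p) (Function.update x s (x s)) := by
      rwa [Function.update_eq_self]
    exact h1.comp_continuous (g := fun u => Function.update x s u)
      (continuous_const.update s continuous_id).continuousAt
  have h1 := hloc'.hasDerivAt_eq_zero (hasDerivAt_update p x s (x s))
  rw [Function.update_eq_self] at h1
  have hd : pderiv s p = C w * (pderiv s f - C (y s)) := by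
    simp only [p, pderiv_C_mul, map_sub, map_sum, pderiv_X]
    congr 2
    rw [Finset.sum_eq_single s]
    · simp
    · intro b _ hb
      simp [hb]
    · simp
  rw [hd] at h1
  simp only [map_mul, eval_C, map_sub] at h1
  have := (mul_eq_zero.1 h1).resolve_left h0
  linarith

theorem card_bounded_components (f : MvPolynomial (Fin 3) ℝ) (D : ℕ) (hf : f.totalDegree ≤ D)
    (T : Finset E) (h0 : ∀ x ∈ T, MvPolynomial.eval x f ≠ 0)
    (hb : ∀ x ∈ T, Bornology.IsBounded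
      (connectedComponentIn {y : E | MvPolynomial.eval y f ≠ 0} x))
    (hd : ∀ x ∈ T, ∀ y ∈ T,
      y ∈ connectedComponentIn {y : E | MvPolynomial.eval y f ≠ 0} x → x = y) :
    T.card ≤ (3 * D + 1) ^ 3 := by
  have hcrit := fun x : T => comp_critical f x.1 (h0 x.1 x.2) (hb x.1 x.2)
  choose δ hδ hδ' using hcrit
  obtain ⟨ε, hε, hεδ⟩ : ∃ ε > 0, ∀ x : T, ε ≤ δ x := by
    rcases isEmpty_or_nonempty T with h | h
    · exact ⟨1, one_pos, fun x => h.elim x⟩
    · obtain ⟨x, hx⟩ := Finite.exists_min δ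
      exact ⟨δ x, hδ x, hx⟩
  have key := Pool.Agent.Lib.SignPatterns.card_le_of_fibers
    (fun s => MvPolynomial.pderiv s f) D T.card
    (fun s => (Pool.Agent.Lib.SignPatterns.totalDegree_pderiv_le f s).trans hf) hε ?_
  · simpa only [Fintype.card_fin] using key
  intro y hy
  choose z hz hz' using fun x : T => hδ' x y fun s => (hy s).trans_le (hεδ x)
  have hzinj : Function.Injective z := by
    intro x x' h
    apply Subtype.ext
    apply hd _ x.2 _ x'.2
    have h1 := connectedComponentIn_eq (hz x)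
    have h2 := connectedComponentIn_eq (hz x')
    rw [h1, h, ← h2]
    exact mem_connectedComponentIn (h0 _ x'.2)
  refine ⟨Finset.univ.image z, ?_, ?_⟩
  · rw [Finset.card_image_of_injective _ hzinj]; simp
  · intro x hx s
    obtain ⟨x', -, rfl⟩ := Finset.mem_image.1 hx
    exact hz' x' s

end Pool.Agent.Cyl
end

-- part Pool.Agent.P.MP_8a0bcd_co.Low
section

/-! Every cell meets boundedly many pockets. -/

set_option autoImplicit false

namespace Pool.Agent.Cyl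

open Set
open scoped Classical

theorem low_exists (g : MvPolynomial (Fin 3) ℝ) (hg : g ≠ 0) {O : Set E} (hO : IsOpen O)
    (hne : O.Nonempty) : ∃ x ∈ O, MvPolynomial.eval x g ≠ 0 := by
  by_contra hc
  push Not at hc
  obtain ⟨x, hx⟩ := hne
  obtain ⟨ε, hε, hb⟩ := Metric.isOpen_iff.1 hO x hx
  apply hg
  refine MvPolynomial.funext_set (fun i => Ioo (x i - ε) (x i + ε))
    (fun i => Set.Ioo_infinite (by linarith)) fun y hy => ?_
  rw [map_zero]
  refine hc y (hb ?_)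
  rw [ball_pi _ hε]
  intro i hi
  show y i ∈ Metric.ball (x i) ε
  rw [Real.ball_eq_Ioo]
  exact hy i hi

theorem low_sub {s : ℕ} (p : Fin s → MvPolynomial (Fin 3) ℝ) (Φ : Set (Fin s → SignType)) {x : E}
    (hx : (fun i => SignType.sign (MvPolynomial.eval x (p i))) ∈ Φ)
    (h0 : MvPolynomial.eval x (∏ i ∈ Finset.univ.filter fun i => p i ≠ 0, p i) ≠ 0) :
    connectedComponentIn
      {y : E | MvPolynomial.eval y (∏ i ∈ Finset.univ.filter fun i => p i ≠ 0, p i) ≠ 0} x ⊆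
      {y | (fun i => SignType.sign (MvPolynomial.eval y (p i))) ∈ Φ} := by
  intro y hy
  have : (fun i => SignType.sign (MvPolynomial.eval y (p i))) =
      fun i => SignType.sign (MvPolynomial.eval x (p i)) := by
    funext i
    by_cases hi : p i = 0
    · simp [hi]
    · refine (isPreconnected_connectedComponentIn).constant
        (f := fun z : E => SignType.sign (MvPolynomial.eval z (p i))) ?_ hy
        (mem_connectedComponentIn h0)
      intro z hz
      have hz' := connectedComponentIn_subset _ _ hz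
      simp only [mem_ofPred_eq, map_prod, Finset.prod_ne_zero_iff] at hz'
      have hzi := hz' i (by simpa using hi)
      exact ((continuousAt_sign_of_ne_zero hzi).comp
        (f := fun z : E => MvPolynomial.eval z (p i))
        (MvPolynomial.continuous_eval (p i)).continuousAt).continuousWithinAt
  simpa [this] using hx

theorem card_pockets_le {s b N : ℕ} {X : Set E} (h : Decomp s b N X) {A : Type} (I : Finset A)
    (O : A → Set E) (hO : ∀ i ∈ I, IsOpen (O i) ∧ (O i).Nonempty ∧ O i ⊆ X)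
    (hS : ∀ S : Set E, IsPreconnected S → S ⊆ closure X → ∀ i ∈ I, (S ∩ O i).Nonempty →
      Bornology.IsBounded S ∧ ∀ j ∈ I, (S ∩ O j).Nonempty → i = j) :
    I.card ≤ N * (3 * (s * b) + 1) ^ 3 := by
  obtain ⟨cell, hc, -, hsub, hun⟩ := h
  choose p Φ hdeg hcell using hc
  set f : Fin N → MvPolynomial (Fin 3) ℝ :=
    fun j => ∏ i ∈ Finset.univ.filter fun i => p j i ≠ 0, p j i with hf
  have hf0 : ∀ j, f j ≠ 0 := fun j =>
    Finset.prod_ne_zero_iff.2 fun i hi => (Finset.mem_filter.1 hi).2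
  have hfd : ∀ j, (f j).totalDegree ≤ s * b := by
    intro j
    refine (MvPolynomial.totalDegree_finsetProd _ _).trans ?_
    refine (Finset.sum_le_card_nsmul _ _ b fun i _ => hdeg j i).trans ?_
    rw [smul_eq_mul]
    refine Nat.mul_le_mul_right _ ?_
    simpa using Finset.card_filter_le (Finset.univ : Finset (Fin s)) fun i => p j i ≠ 0
  have hex : ∀ i, i ∈ I → ∃ x : E, ∃ j, x ∈ O i ∧ x ∈ cell j ∧ MvPolynomial.eval x (f j) ≠ 0 := by
    intro i hi
    obtain ⟨x, hx, hx0⟩ := low_exists (∏ j, f j) (Finset.prod_ne_zero_iff.2 fun j _ => hf0 j)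
      (hO i hi).1 (hO i hi).2.1
    have hxX : x ∈ ⋃ j, cell j := hun ▸ subset_closure ((hO i hi).2.2 hx)
    obtain ⟨j, hj⟩ := mem_iUnion.1 hxX
    rw [map_prod, Finset.prod_ne_zero_iff] at hx0
    exact ⟨x, j, hx, hj, hx0 j (Finset.mem_univ _)⟩
  rcases I.eq_empty_or_nonempty with rfl | ⟨i0, hi0⟩
  · simp
  have : Nonempty (Fin N) := by
    obtain ⟨_, j, _⟩ := hex i0 hi0
    exact ⟨j⟩
  choose! x j hxO hxc hx0 using hex
  have hD : ∀ i ∈ I, connectedComponentIn {y : E | MvPolynomial.eval y (f (j i)) ≠ 0} (x i) ⊆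
      closure X := by
    intro i hi
    refine Subset.trans ?_ (hsub (j i))
    have h1 := hxc i hi
    rw [hcell] at h1 ⊢
    exact low_sub (p (j i)) (Φ (j i)) h1 (hx0 i hi)
  have hK := fun i hi => hS _ isPreconnected_connectedComponentIn (hD i hi) i hi
    ⟨x i, mem_connectedComponentIn (hx0 i hi), hxO i hi⟩
  have hmain := Finset.card_le_mul_card_image_of_maps_to (f := j) (s := I) (t := Finset.univ)
    (fun _ _ => Finset.mem_univ _) ((3 * (s * b) + 1) ^ 3) fun k _ => by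
      have hinj : InjOn x (I.filter fun i => j i = k : Finset A) := by
        intro i hi i' hi' he
        have h1 := (Finset.mem_filter.1 hi).1
        have h2 := (Finset.mem_filter.1 hi').1
        exact (hK i h1).2 i' h2 ⟨x i, mem_connectedComponentIn (hx0 i h1), he ▸ hxO i' h2⟩
      rw [← Finset.card_image_of_injOn hinj]
      refine card_bounded_components (f k) (s * b) (hfd k) _ ?_ ?_ ?_
      · intro y hy
        obtain ⟨i, hi, rfl⟩ := Finset.mem_image.1 hy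
        obtain ⟨h1, rfl⟩ := Finset.mem_filter.1 hi
        exact hx0 i h1
      · intro y hy
        obtain ⟨i, hi, rfl⟩ := Finset.mem_image.1 hy
        obtain ⟨h1, rfl⟩ := Finset.mem_filter.1 hi
        exact (hK i h1).1
      · intro y hy z hz hyz
        obtain ⟨i, hi, rfl⟩ := Finset.mem_image.1 hy
        obtain ⟨i', hi', rfl⟩ := Finset.mem_image.1 hz
        obtain ⟨h1, rfl⟩ := Finset.mem_filter.1 hi
        have h2 := (Finset.mem_filter.1 hi').1
        rw [(hK i h1).2 i' h2 ⟨x i', hyz, hxO i' h2⟩]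
  rw [mul_comm]
  simpa using hmain

end Pool.Agent.Cyl
end

-- part Pool.Agent.P.MP_8a0bcd_co.Main
section

/-! The order of growth for boundedly many directions. -/

set_option autoImplicit false

namespace Pool.Agent.Cyl

open Set
open scoped Classical

theorem main (c : ℕ) (hc : 2 ≤ c) : ∃ s₀ b₀ : ℕ, ∀ s, s₀ ≤ s → ∀ b, b₀ ≤ b → ∃ C n₀ : ℕ,
    ∀ n, n₀ ≤ n → (n : ℕ∞) ^ 2 ≤ C * fc c s b n ∧ fc c s b n ≤ C * (n : ℕ∞) ^ 2 := by
  obtain ⟨m, C, hcore⟩ := core c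
  obtain ⟨s₀, b₀, hdec⟩ := decomp_of_lab m (2 * c + 1)
  refine ⟨s₀, b₀, fun s hs b hb => ⟨16 * (3 * (s * b) + 1) ^ 3 + 4 * C, 6, fun n hn => ⟨?_, ?_⟩⟩⟩
  · obtain ⟨F, I, O, h1, h2, h3⟩ := exists_pockets hc hn
    refine le_trans ?_ (mul_le_mul_right (le_iSup (fun F : Family c n => minCells s b F.free) F) _)
    unfold minCells
    have hC : ((16 * (3 * (s * b) + 1) ^ 3 + 4 * C : ℕ) : ℕ∞) ≠ 0 := by
      rw [Nat.cast_ne_zero]
      positivity
    rw [ENat.mul_iInf_of_ne hC]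
    refine le_iInf fun N => ?_
    rw [ENat.mul_iInf_of_ne hC]
    refine le_iInf fun hN => ?_
    have := card_pockets_le hN I O h2 h3
    have h4 : n ^ 2 ≤ (16 * (3 * (s * b) + 1) ^ 3 + 4 * C) * N := by nlinarith [Nat.zero_le (C * N)]
    exact_mod_cast h4
  · refine iSup_le fun F => ?_
    obtain ⟨h1, L, h2, h3, h4⟩ := hcore n F
    refine le_trans (iInf₂_le (L.cl univ).card (hdec s hs b hb _ L h1 h2 h4)) ?_
    have h5 : (n + 1) ^ 2 ≤ 4 * n ^ 2 := by nlinarith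
    have h6 : (L.cl univ).card ≤ (16 * (3 * (s * b) + 1) ^ 3 + 4 * C) * n ^ 2 := by
      nlinarith [Nat.zero_le (16 * (3 * (s * b) + 1) ^ 3 * n ^ 2), Nat.mul_le_mul_left C h5]
    exact_mod_cast h6

end Pool.Agent.Cyl
end
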